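import Pool.Agent.CGM.Stmts

/-!
# Module ALG of the project CGM (MP_3bdb72_co)

Comparison of the pairs and of their mean field version.
-/

set_option autoImplicit false
set_option linter.unusedSectionVars false

open Finset
open scoped Classical

namespace Pool.Agent.CGM

namespace ALG_

/-- layer cake -/
lemma layer (x w : ℕ) (h : x ≤ w) :
    (x : ℝ) = ∑ θ ∈ range w, (if θ < x then (1 : ℝ) else 0) := by
  rw [Finset.sum_ite, Finset.sum_const_zero, add_zero, Finset.sum_const]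
  have : (range w).filter (fun θ => θ < x) = range x := by
    ext θ
    simp only [mem_filter, mem_range]
    omega
  rw [this, card_range]
  simp

lemma layer_min (x y B : ℕ) (h : x ≤ B) :
    ((min x y : ℕ) : ℝ) =
      ∑ θ ∈ range B, (if θ < x then (1 : ℝ) else 0) * (if θ < y then (1 : ℝ) else 0) := by
  rw [layer (min x y) B (le_trans (min_le_left _ _) h)]
  refine Finset.sum_congr rfl (fun θ _ => ?_)
  by_cases h1 : θ < x
  · by_cases h2 : θ < y
    · rw [if_pos h1, if_pos h2, if_pos (lt_min h1 h2)]; ring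
    · rw [if_pos h1, if_neg h2, if_neg (fun h => h2 (lt_of_lt_of_le h (min_le_right _ _)))]; ring
  · rw [if_neg h1, if_neg (fun h => h1 (lt_of_lt_of_le h (min_le_left _ _)))]; ring

section
variable {Ω J : Type} [Fintype J] [DecidableEq J] (s : Finset Ω) (μ : Ω → ℝ) (x : Ω → J → ℕ)

/-- probability that the value exceeds the threshold -/
noncomputable def Q (j : J) (θ : ℕ) : ℝ := ∑ ω ∈ s, μ ω * (if θ < x ω j then 1 else 0)

/-- expectation -/
noncomputable def EX (j : J) : ℝ := ∑ ω ∈ s, μ ω * (x ω j : ℝ)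

/-- expectation of the minimum of two independent copies -/
noncomputable def MN (i j : J) : ℝ :=
  ∑ ω ∈ s, μ ω * (∑ ω' ∈ s, μ ω' * ((min (x ω i) (x ω' j) : ℕ) : ℝ))

/-- expectation of the maximum -/
noncomputable def EM (i j : J) : ℝ := ∑ ω ∈ s, μ ω * ((max (x ω i) (x ω j) : ℕ) : ℝ)

lemma EX_eq (w : J → ℕ) (hw : ∀ ω ∈ s, ∀ j, x ω j ≤ w j) (j : J) :
    EX s μ x j = ∑ θ ∈ range (w j), Q s μ x j θ := by
  unfold EX Q
  rw [Finset.sum_comm]
  refine Finset.sum_congr rfl (fun ω hω => ?_)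
  rw [← Finset.mul_sum, ← layer _ _ (hw ω hω j)]

lemma MN_eq (w : J → ℕ) (B : ℕ) (hw : ∀ ω ∈ s, ∀ j, x ω j ≤ w j) (hB : ∀ j, w j ≤ B) (i j : J) :
    MN s μ x i j = ∑ θ ∈ range B, Q s μ x i θ * Q s μ x j θ := by
  unfold MN Q
  have h1 : ∀ θ, (∑ ω ∈ s, μ ω * (if θ < x ω i then (1 : ℝ) else 0)) *
      (∑ ω ∈ s, μ ω * (if θ < x ω j then (1 : ℝ) else 0)) =
      ∑ ω ∈ s, ∑ ω' ∈ s, μ ω * (μ ω' * ((if θ < x ω i then (1 : ℝ) else 0) *
        (if θ < x ω' j then (1 : ℝ) else 0))) := by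
    intro θ
    rw [Finset.sum_mul_sum]
    refine Finset.sum_congr rfl (fun ω _ => Finset.sum_congr rfl (fun ω' _ => ?_))
    ring
  rw [Finset.sum_congr rfl (fun θ _ => h1 θ), Finset.sum_comm]
  refine Finset.sum_congr rfl (fun ω hω => ?_)
  rw [Finset.mul_sum, Finset.sum_comm]
  refine Finset.sum_congr rfl (fun ω' _ => ?_)
  rw [← Finset.mul_sum, ← Finset.mul_sum, ← layer_min _ _ _ (le_trans (hw ω hω i) (hB i))]

lemma Q_zero (w : J → ℕ) (hw : ∀ ω ∈ s, ∀ j, x ω j ≤ w j) (j : J) (θ : ℕ) (h : w j ≤ θ) :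
    Q s μ x j θ = 0 := by
  unfold Q
  refine Finset.sum_eq_zero (fun ω hω => ?_)
  rw [if_neg (not_lt.2 (le_trans (hw ω hω j) h)), mul_zero]

lemma MN_diag (w : J → ℕ) (B : ℕ) (hw : ∀ ω ∈ s, ∀ j, x ω j ≤ w j) (hB : ∀ j, w j ≤ B) (j : J) :
    MN s μ x j j = ∑ θ ∈ range (w j), Q s μ x j θ * Q s μ x j θ := by
  rw [MN_eq s μ x w B hw hB]
  symm
  refine Finset.sum_subset (fun θ hθ => ?_) (fun θ _ h => ?_)
  · rw [mem_range] at hθ ⊢
    exact lt_of_lt_of_le hθ (hB j)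
  · rw [mem_range, not_lt] at h
    rw [Q_zero s μ x w hw j θ h, mul_zero]

lemma MX_eq (hμ : ∑ ω ∈ s, μ ω = 1) (i j : J) :
    ∑ ω ∈ s, μ ω * (∑ ω' ∈ s, μ ω' * ((max (x ω i) (x ω' j) : ℕ) : ℝ)) =
      EX s μ x i + EX s μ x j - MN s μ x i j := by
  have h0 : ∀ ω ω', ((max (x ω i) (x ω' j) : ℕ) : ℝ) =
      (x ω i : ℝ) + (x ω' j : ℝ) - ((min (x ω i) (x ω' j) : ℕ) : ℝ) := by
    intro ω ω'
    have : max (x ω i) (x ω' j) + min (x ω i) (x ω' j) = x ω i + x ω' j := max_add_min _ _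
    have h2 : ((max (x ω i) (x ω' j) : ℕ) : ℝ) + ((min (x ω i) (x ω' j) : ℕ) : ℝ) =
      (x ω i : ℝ) + (x ω' j : ℝ) := by exact_mod_cast this
    linarith
  have h1 : ∀ ω, (∑ ω' ∈ s, μ ω' * ((max (x ω i) (x ω' j) : ℕ) : ℝ)) =
      (x ω i : ℝ) + EX s μ x j - ∑ ω' ∈ s, μ ω' * ((min (x ω i) (x ω' j) : ℕ) : ℝ) := by
    intro ω
    unfold EX
    have h3 : (x ω i : ℝ) = ∑ ω' ∈ s, μ ω' * (x ω i : ℝ) := by
      rw [← Finset.sum_mul, hμ, one_mul]
    rw [h3, ← Finset.sum_add_distrib, ← Finset.sum_sub_distrib]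
    refine Finset.sum_congr rfl (fun ω' _ => ?_)
    rw [h0]
    ring
  rw [Finset.sum_congr rfl (fun ω _ => by rw [h1 ω])]
  unfold MN
  have h4 : EX s μ x j = ∑ ω ∈ s, μ ω * EX s μ x j := by
    rw [← Finset.sum_mul, hμ, one_mul]
  rw [h4]
  unfold EX
  rw [← Finset.sum_add_distrib, ← Finset.sum_sub_distrib]
  refine Finset.sum_congr rfl (fun ω _ => ?_)
  have h5 : ∑ ω'' ∈ s, μ ω'' * ∑ ω' ∈ s, μ ω' * (x ω' j : ℝ) = ∑ ω' ∈ s, μ ω' * (x ω' j : ℝ) := by
    rw [← Finset.sum_mul, hμ, one_mul]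
  rw [h5]
  ring

/-- the mean field term -/
lemma D_eq (w : J → ℕ) (B : ℕ) (hμ : ∑ ω ∈ s, μ ω = 1) (hw : ∀ ω ∈ s, ∀ j, x ω j ≤ w j)
    (hB : ∀ j, w j ≤ B) (i j : J) :
    ∑ c : Fin (B + 1), (∑ ω ∈ s, μ ω * (if x ω i = (c : ℕ) then 1 else 0))
        * ∑ ω ∈ s, μ ω * ((x ω j - (c : ℕ) : ℕ) : ℝ) = EX s μ x j - MN s μ x i j := by
  have h1 : ∀ c : Fin (B + 1), (∑ ω ∈ s, μ ω * (if x ω i = (c : ℕ) then (1 : ℝ) else 0))
        * ∑ ω ∈ s, μ ω * ((x ω j - (c : ℕ) : ℕ) : ℝ) =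
      ∑ ω ∈ s, μ ω * (if x ω i = (c : ℕ) then
        (∑ ω' ∈ s, μ ω' * ((x ω' j - x ω i : ℕ) : ℝ)) else 0) := by
    intro c
    rw [Finset.sum_mul]
    refine Finset.sum_congr rfl (fun ω _ => ?_)
    by_cases h : x ω i = (c : ℕ)
    · rw [if_pos h, if_pos h, h]; ring
    · rw [if_neg h, if_neg h]; ring
  rw [Finset.sum_congr rfl (fun c _ => h1 c), Finset.sum_comm]
  have h2 : ∀ ω ∈ s, ∑ c : Fin (B + 1), μ ω * (if x ω i = (c : ℕ) then
        (∑ ω' ∈ s, μ ω' * ((x ω' j - x ω i : ℕ) : ℝ)) else 0) =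
      μ ω * (∑ ω' ∈ s, μ ω' * ((x ω' j - x ω i : ℕ) : ℝ)) := by
    intro ω hω
    rw [← Finset.mul_sum]
    congr 1
    have hlt : x ω i < B + 1 := Nat.lt_succ_of_le (le_trans (hw ω hω i) (hB i))
    rw [Finset.sum_eq_single (⟨x ω i, hlt⟩ : Fin (B + 1))]
    · simp
    · intro c _ hc
      rw [if_neg]
      intro h
      exact hc (Fin.ext h.symm)
    · intro h
      exact absurd (mem_univ _) h
  rw [Finset.sum_congr rfl h2]
  have h3 : ∀ ω, (∑ ω' ∈ s, μ ω' * ((x ω' j - x ω i : ℕ) : ℝ)) =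
      EX s μ x j - ∑ ω' ∈ s, μ ω' * ((min (x ω i) (x ω' j) : ℕ) : ℝ) := by
    intro ω
    unfold EX
    rw [← Finset.sum_sub_distrib]
    refine Finset.sum_congr rfl (fun ω' _ => ?_)
    have : (x ω' j - x ω i) + min (x ω i) (x ω' j) = x ω' j := by omega
    have h4 : ((x ω' j - x ω i : ℕ) : ℝ) + ((min (x ω i) (x ω' j) : ℕ) : ℝ) = (x ω' j : ℝ) := by
      exact_mod_cast this
    rw [← h4]
    ring
  rw [Finset.sum_congr rfl (fun ω _ => by rw [h3 ω])]
  unfold MN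
  have h4 : EX s μ x j = ∑ ω ∈ s, μ ω * EX s μ x j := by
    rw [← Finset.sum_mul, hμ, one_mul]
  conv_rhs => rw [h4]
  rw [← Finset.sum_sub_distrib]
  refine Finset.sum_congr rfl (fun ω _ => ?_)
  ring

lemma EX_nonneg (hμ : ∀ ω ∈ s, 0 ≤ μ ω) (j : J) : 0 ≤ EX s μ x j :=
  Finset.sum_nonneg (fun ω hω => mul_nonneg (hμ ω hω) (Nat.cast_nonneg _))

lemma EM_comm (i j : J) : EM s μ x i j = EM s μ x j i := by
  unfold EM
  refine Finset.sum_congr rfl (fun ω _ => ?_)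
  rw [max_comm]

end

lemma min_le_sqrt (a b c : ℝ) (h1 : c ≤ a) (h2 : c ≤ b) :
    c ≤ Real.sqrt a * Real.sqrt b := by
  by_cases hc : c ≤ 0
  · exact le_trans hc (mul_nonneg (Real.sqrt_nonneg _) (Real.sqrt_nonneg _))
  · have hc := not_le.1 hc
    have h3 : Real.sqrt c ≤ Real.sqrt a := Real.sqrt_le_sqrt h1
    have h4 : Real.sqrt c ≤ Real.sqrt b := Real.sqrt_le_sqrt h2
    calc c = Real.sqrt c * Real.sqrt c := (Real.mul_self_sqrt hc.le).symm
      _ ≤ Real.sqrt a * Real.sqrt b := mul_le_mul h3 h4 (Real.sqrt_nonneg _) (Real.sqrt_nonneg _)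

end ALG_

open ALG_

theorem alg_proof : Stmt_ALG := by
  intro Ω J _ _ s μ x w a P B u v κ f hμ hμ1 hxw hwB ha ha1 hv hP hPs hcov hquad
  -- abbreviations
  have hE0 : ∀ j, 0 ≤ EX s μ x j := EX_nonneg s μ x hμ
  have hMNs : ∀ i j, MN s μ x i j = MN s μ x j i := by
    intro i j
    rw [MN_eq s μ x w B hxw hwB, MN_eq s μ x w B hxw hwB]
    exact Finset.sum_congr rfl (fun θ _ => mul_comm _ _)
  -- lower bound for the expectation of the maximum
  have hEM : ∀ i j, i ≠ j → EX s μ x i + EX s μ x j - MN s μ x i j -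
      P i j * (Real.sqrt (EX s μ x i) * Real.sqrt (EX s μ x j)) ≤ EM s μ x i j := by
    intro i j hij
    have h1 := hcov i j hij
    have h2 := hcov j i (Ne.symm hij)
    rw [MX_eq s μ x hμ1] at h1 h2
    have e1 : ∑ ω ∈ s, μ ω * ((max (x ω i) (x ω j) : ℕ) : ℝ) = EM s μ x i j := rfl
    have e2 : ∑ ω ∈ s, μ ω * ((max (x ω j) (x ω i) : ℕ) : ℝ) = EM s μ x i j := by
      rw [EM_comm]; rfl
    have e3 : ∑ ω ∈ s, μ ω * (x ω j : ℝ) = EX s μ x j := rfl
    have e4 : ∑ ω ∈ s, μ ω * (x ω i : ℝ) = EX s μ x i := rfl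
    rw [e1, e3] at h1
    rw [e2, e4, hMNs j i, hPs j i] at h2
    have h3 : P i j * min (EX s μ x i) (EX s μ x j) ≤
        P i j * (Real.sqrt (EX s μ x i) * Real.sqrt (EX s μ x j)) :=
      mul_le_mul_of_nonneg_left (min_le_sqrt _ _ _ (min_le_left _ _)
        (min_le_right _ _)) (hP i j)
    rcases le_total (EX s μ x i) (EX s μ x j) with h | h
    · rw [min_eq_left h] at h3
      linarith
    · rw [min_eq_right h] at h3
      linarith
  -- the quadratic form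
  have hq := hquad (fun j => a j * Real.sqrt (EX s μ x j))
    (fun j => mul_nonneg (ha j) (Real.sqrt_nonneg _))
  have hq2 : ∑ j, (a j * Real.sqrt (EX s μ x j)) ^ 2 = ∑ j, a j ^ 2 * EX s μ x j := by
    refine Finset.sum_congr rfl (fun j _ => ?_)
    rw [mul_pow, Real.sq_sqrt (hE0 j)]
  rw [hq2] at hq
  -- names of the sums
  have hLsum : ∀ j, ∑ θ ∈ range (w j),
        (κ * (∑ ω ∈ s, μ ω * (if θ < x ω j then (1 : ℝ) else 0))
          - v / 2 * (∑ ω ∈ s, μ ω * (if θ < x ω j then (1 : ℝ) else 0))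
              * (1 - ∑ ω ∈ s, μ ω * (if θ < x ω j then (1 : ℝ) else 0))
          - v / 2 * f * (∑ ω ∈ s, μ ω * (if θ < x ω j then (1 : ℝ) else 0))) =
      (κ - v / 2 - v / 2 * f) * EX s μ x j + v / 2 * MN s μ x j j := by
    intro j
    rw [EX_eq s μ x w hxw, MN_diag s μ x w B hxw hwB, Finset.mul_sum, Finset.mul_sum,
      ← Finset.sum_add_distrib]
    refine Finset.sum_congr rfl (fun θ _ => ?_)
    unfold Q
    ring
  have hb : ∑ θ ∈ range B, (∑ j, a j * ∑ ω ∈ s, μ ω * (if θ < x ω j then (1 : ℝ) else 0)) ^ 2 =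
      ∑ i, ∑ j, a i * a j * MN s μ x i j := by
    have h1 : ∀ θ, (∑ j, a j * ∑ ω ∈ s, μ ω * (if θ < x ω j then (1 : ℝ) else 0)) ^ 2 =
        ∑ i, ∑ j, a i * a j * (Q s μ x i θ * Q s μ x j θ) := by
      intro θ
      rw [sq, Finset.sum_mul_sum]
      refine Finset.sum_congr rfl (fun i _ => Finset.sum_congr rfl (fun j _ => ?_))
      unfold Q
      ring
    rw [Finset.sum_congr rfl (fun θ _ => h1 θ), Finset.sum_comm]
    refine Finset.sum_congr rfl (fun i _ => ?_)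
    rw [Finset.sum_comm]
    refine Finset.sum_congr rfl (fun j _ => ?_)
    rw [MN_eq s μ x w B hxw hwB, Finset.mul_sum]
  have hD : ∑ i, ∑ j, v * (a i * a j) * ∑ c : Fin (B + 1),
          (∑ ω ∈ s, μ ω * (if x ω i = (c : ℕ) then (1 : ℝ) else 0))
            * ∑ ω ∈ s, μ ω * ((x ω j - (c : ℕ) : ℕ) : ℝ) =
      v * (∑ j, a j * EX s μ x j) - v * ∑ i, ∑ j, a i * a j * MN s μ x i j := by
    have h1 : ∀ i j, v * (a i * a j) * ∑ c : Fin (B + 1),
          (∑ ω ∈ s, μ ω * (if x ω i = (c : ℕ) then (1 : ℝ) else 0))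
            * ∑ ω ∈ s, μ ω * ((x ω j - (c : ℕ) : ℕ) : ℝ) =
        v * (a i * (a j * EX s μ x j)) - v * (a i * a j * MN s μ x i j) := by
      intro i j
      rw [D_eq s μ x w B hμ1 hxw hwB]
      ring
    rw [Finset.sum_congr rfl (fun i _ => Finset.sum_congr rfl (fun j _ => h1 i j))]
    simp_rw [Finset.sum_sub_distrib, ← Finset.mul_sum]
    rw [← Finset.sum_mul, ha1, one_mul]
  -- the off-diagonal part
  have hoff : ∑ i, ∑ j ∈ univ.erase i, a i * a j *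
      (EX s μ x i + EX s μ x j - MN s μ x i j -
      P i j * (Real.sqrt (EX s μ x i) * Real.sqrt (EX s μ x j))) ≤
      ∑ i, ∑ j ∈ univ.erase i, a i * a j * ∑ ω ∈ s, μ ω * ((max (x ω i) (x ω j) : ℕ) : ℝ) := by
    refine Finset.sum_le_sum (fun i _ => Finset.sum_le_sum (fun j hj => ?_))
    exact mul_le_mul_of_nonneg_left (hEM i j (Ne.symm (Finset.ne_of_mem_erase hj)))
      (mul_nonneg (ha i) (ha j))
  have herase : ∀ (g : J → J → ℝ), ∑ i, ∑ j ∈ univ.erase i, g i j =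
      (∑ i, ∑ j, g i j) - ∑ i, g i i := by
    intro g
    rw [← Finset.sum_sub_distrib]
    refine Finset.sum_congr rfl (fun i _ => ?_)
    have := Finset.sum_erase_add (univ : Finset J) (fun j => g i j) (mem_univ i)
    linarith
  have hoff2 : ∑ i, ∑ j ∈ univ.erase i, a i * a j *
      (EX s μ x i + EX s μ x j - MN s μ x i j -
      P i j * (Real.sqrt (EX s μ x i) * Real.sqrt (EX s μ x j))) =
      (2 * ∑ j, a j * EX s μ x j) - 2 * (∑ j, a j ^ 2 * EX s μ x j)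
        - (∑ i, ∑ j, a i * a j * MN s μ x i j) + (∑ j, a j ^ 2 * MN s μ x j j)
        - ∑ i, ∑ j ∈ univ.erase i, (a i * Real.sqrt (EX s μ x i)) *
          (a j * Real.sqrt (EX s μ x j)) * P i j := by
    have h1 : ∀ i j, a i * a j *
        (EX s μ x i + EX s μ x j - MN s μ x i j -
        P i j * (Real.sqrt (EX s μ x i) * Real.sqrt (EX s μ x j))) =
        (a i * a j * (EX s μ x i + EX s μ x j) - a i * a j * MN s μ x i j) -
          (a i * Real.sqrt (EX s μ x i)) *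
          (a j * Real.sqrt (EX s μ x j)) * P i j := by
      intro i j
      ring
    rw [Finset.sum_congr rfl (fun i _ => Finset.sum_congr rfl (fun j _ => h1 i j))]
    simp_rw [Finset.sum_sub_distrib]
    rw [herase (fun i j => a i * a j * (EX s μ x i + EX s μ x j)),
      herase (fun i j => a i * a j * MN s μ x i j)]
    have h2 : ∑ i, ∑ j, a i * a j * (EX s μ x i + EX s μ x j) = 2 * ∑ j, a j * EX s μ x j := by
      have h3 : ∀ i j, a i * a j * (EX s μ x i + EX s μ x j) =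
          (a i * EX s μ x i) * a j + a i * (a j * EX s μ x j) := by
        intro i j; ring
      rw [Finset.sum_congr rfl (fun i _ => Finset.sum_congr rfl (fun j _ => h3 i j))]
      simp_rw [Finset.sum_add_distrib, ← Finset.mul_sum, ← Finset.sum_mul]
      rw [ha1]
      ring
    have h4 : ∑ i, a i * a i * (EX s μ x i + EX s μ x i) = 2 * ∑ j, a j ^ 2 * EX s μ x j := by
      rw [Finset.mul_sum]
      exact Finset.sum_congr rfl (fun i _ => by ring)
    have h5 : ∑ i, a i * a i * MN s μ x i i = ∑ j, a j ^ 2 * MN s μ x j j :=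
      Finset.sum_congr rfl (fun i _ => by ring)
    rw [h2, h4, h5]
    ring
  rw [hoff2] at hoff
  -- final assembly
  have hL : ∑ j, a j ^ 2 * ∑ θ ∈ range (w j),
        (κ * (∑ ω ∈ s, μ ω * (if θ < x ω j then (1 : ℝ) else 0))
          - v / 2 * (∑ ω ∈ s, μ ω * (if θ < x ω j then (1 : ℝ) else 0))
              * (1 - ∑ ω ∈ s, μ ω * (if θ < x ω j then (1 : ℝ) else 0))
          - v / 2 * f * (∑ ω ∈ s, μ ω * (if θ < x ω j then (1 : ℝ) else 0))) =
      (κ - v / 2 - v / 2 * f) * (∑ j, a j ^ 2 * EX s μ x j) +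
        v / 2 * ∑ j, a j ^ 2 * MN s μ x j j := by
    rw [Finset.mul_sum, Finset.mul_sum, ← Finset.sum_add_distrib]
    refine Finset.sum_congr rfl (fun j _ => ?_)
    rw [hLsum j]
    ring
  have hR : ∑ j, (u * a j + (v / 2 + κ) * a j ^ 2) * (∑ ω ∈ s, μ ω * (x ω j : ℝ)) =
      u * (∑ j, a j * EX s μ x j) + (v / 2 + κ) * (∑ j, a j ^ 2 * EX s μ x j) := by
    rw [Finset.mul_sum, Finset.mul_sum, ← Finset.sum_add_distrib]
    refine Finset.sum_congr rfl (fun j _ => ?_)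
    unfold EX
    ring
  have hR2 : ∑ j, u * a j * (∑ ω ∈ s, μ ω * (x ω j : ℝ)) = u * (∑ j, a j * EX s μ x j) := by
    rw [Finset.mul_sum]
    refine Finset.sum_congr rfl (fun j _ => ?_)
    unfold EX
    ring
  rw [hL, hb, hR, hR2, hD]
  have hv2 : 0 ≤ v / 2 := by linarith
  have k1 := mul_le_mul_of_nonneg_left hoff hv2
  have k2 := mul_le_mul_of_nonneg_left hq hv2
  nlinarith [k1, k2]

end Pool.Agent.CGM
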