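import Pool.Agent.CGM.Stmts

/-!
# CGM, module CAP: the capacity inequality
-/

set_option autoImplicit false
set_option linter.unusedSectionVars false

open Finset
open scoped Classical

namespace Pool.Agent.CGM

namespace CAP_

/-- `1 - x` is at most the exponential of the truncated logarithm series -/
lemma one_sub_le (x : ℝ) (h0 : 0 ≤ x) (h1 : x ≤ 1) :
    1 - x ≤ Real.exp (-(x + x ^ 2 / 2 + x ^ 3 / 3 + x ^ 4 / 4 + x ^ 5 / 5)) := by
  rcases eq_or_lt_of_le h1 with h | h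
  · rw [h]
    have := Real.exp_pos (-((1 : ℝ) + 1 ^ 2 / 2 + 1 ^ 3 / 3 + 1 ^ 4 / 4 + 1 ^ 5 / 5))
    linarith
  · have hs := Real.hasSum_pow_div_log_of_abs_lt_one (x := x) (by rw [abs_of_nonneg h0]; exact h)
    have h2 := sum_le_hasSum (Finset.range 5) (fun i _ => by positivity) hs
    have h3 : ∑ i ∈ Finset.range 5, x ^ (i + 1) / ((i : ℝ) + 1)
        = x + x ^ 2 / 2 + x ^ 3 / 3 + x ^ 4 / 4 + x ^ 5 / 5 := by
      simp only [Finset.sum_range_succ, Finset.sum_range_zero]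
      push_cast
      ring
    rw [h3] at h2
    have h4 : Real.log (1 - x) ≤ -(x + x ^ 2 / 2 + x ^ 3 / 3 + x ^ 4 / 4 + x ^ 5 / 5) := by
      linarith
    calc 1 - x = Real.exp (Real.log (1 - x)) := (Real.exp_log (by linarith)).symm
      _ ≤ _ := Real.exp_le_exp.2 h4

lemma prod_le {J : Type} (S : Finset J) (a : J → ℝ) (h0 : ∀ j ∈ S, 0 ≤ a j)
    (h1 : ∀ j ∈ S, a j ≤ 1) :
    ∏ j ∈ S, (1 - a j) ≤ Real.exp (-∑ j ∈ S, (a j + a j ^ 2 / 2 + a j ^ 3 / 3 + a j ^ 4 / 4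
      + a j ^ 5 / 5)) := by
  rw [← Finset.sum_neg_distrib, Real.exp_sum]
  exact Finset.prod_le_prod (fun j hj => by linarith [h1 j hj])
    (fun j hj => one_sub_le (a j) (h0 j hj) (h1 j hj))

/-- power means -/
lemma pm {J : Type} (S : Finset J) (a : J → ℝ) (h0 : ∀ j ∈ S, 0 ≤ a j)
    (hs : 0 < ∑ j ∈ S, a j) (m : ℕ) :
    (∑ j ∈ S, a j) * ((∑ j ∈ S, a j ^ 2) / ∑ j ∈ S, a j) ^ m ≤ ∑ j ∈ S, a j ^ (m + 1) := by
  set s := ∑ j ∈ S, a j with hsdef
  have h := Real.pow_arith_mean_le_arith_mean_pow S (fun j => a j / s) a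
    (fun j hj => div_nonneg (h0 j hj) hs.le)
    (by rw [← Finset.sum_div, ← hsdef]; exact div_self hs.ne') h0 m
  have h2 : ∑ j ∈ S, a j / s * a j = (∑ j ∈ S, a j ^ 2) / s := by
    rw [Finset.sum_div]
    exact Finset.sum_congr rfl (fun j _ => by ring)
  have h3 : ∑ j ∈ S, a j / s * a j ^ m = (∑ j ∈ S, a j ^ (m + 1)) / s := by
    rw [Finset.sum_div]
    exact Finset.sum_congr rfl (fun j _ => by ring)
  rw [h2, h3, le_div_iff₀ hs] at h
  linarith

lemma exp_conv (s z : ℝ) (h0 : 0 ≤ s) (h1 : s ≤ 1) :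
    Real.exp (-(s * z)) ≤ (1 - s) + s * Real.exp (-z) := by
  have h := convexOn_exp.2 (Set.mem_univ (0 : ℝ)) (Set.mem_univ (-z)) (sub_nonneg.2 h1) h0
    (by ring)
  simp only [smul_eq_mul, Real.exp_zero, mul_zero, zero_add, mul_one] at h
  have h2 : -(s * z) = s * -z := by ring
  rw [h2]
  exact h

end CAP_

open CAP_ in
theorem cap_proof (h1 : Stmt_NTE) (h2 : Stmt_NTF) : Stmt_CAP := by
  intro J S a ha hsum
  have hs0 : 0 ≤ ∑ j ∈ S, a j := Finset.sum_nonneg ha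
  have ha1 : ∀ j ∈ S, a j ≤ 1 := fun j hj => (Finset.single_le_sum ha hj).trans hsum
  rcases eq_or_lt_of_le hs0 with h | hs
  · have hz : ∀ j ∈ S, a j = 0 := (Finset.sum_eq_zero_iff_of_nonneg ha).1 h.symm
    have e1 : ∑ j ∈ S, a j ^ 2 = 0 := Finset.sum_eq_zero (fun j hj => by rw [hz j hj]; ring)
    have e2 : ∏ j ∈ S, (1 - a j) = 1 := Finset.prod_eq_one (fun j hj => by rw [hz j hj]; ring)
    rw [← h, e1, e2]
    norm_num
  · set s := ∑ j ∈ S, a j with hsdef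
    set q := ∑ j ∈ S, a j ^ 2 with hqdef
    set α := q / s with hα
    have hq0 : 0 ≤ q := Finset.sum_nonneg (fun j _ => sq_nonneg _)
    have hqs : q ≤ s := Finset.sum_le_sum (fun j hj => by nlinarith [ha j hj, ha1 j hj])
    have hα0 : 0 ≤ α := div_nonneg hq0 hs.le
    have hα1 : α ≤ 1 := (div_le_one hs).2 hqs
    have hsα : s * α = q := by rw [hα]; field_simp
    set z := α / 2 + α ^ 2 / 3 + α ^ 3 / 4 + α ^ 4 / 5 with hz
    have p1 := pm S a ha hs 1
    have p2 := pm S a ha hs 2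
    have p3 := pm S a ha hs 3
    have p4 := pm S a ha hs 4
    rw [← hsdef, ← hqdef, ← hα] at p1 p2 p3 p4
    norm_num at p1 p2 p3 p4
    have hprod := prod_le S a ha ha1
    have hsumeq : ∑ j ∈ S, (a j + a j ^ 2 / 2 + a j ^ 3 / 3 + a j ^ 4 / 4 + a j ^ 5 / 5)
        = s + q / 2 + (∑ j ∈ S, a j ^ 3) / 3 + (∑ j ∈ S, a j ^ 4) / 4
          + (∑ j ∈ S, a j ^ 5) / 5 := by
      rw [Finset.sum_add_distrib, Finset.sum_add_distrib, Finset.sum_add_distrib,
        Finset.sum_add_distrib, ← Finset.sum_div, ← Finset.sum_div, ← Finset.sum_div,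
        ← Finset.sum_div]
    have hge : s * (1 + z) ≤ ∑ j ∈ S, (a j + a j ^ 2 / 2 + a j ^ 3 / 3 + a j ^ 4 / 4
        + a j ^ 5 / 5) := by
      rw [hsumeq, hz]
      nlinarith [p2, p3, p4, hsα]
    have hP : ∏ j ∈ S, (1 - a j) ≤ Real.exp (-(s * (1 + z))) :=
      hprod.trans (Real.exp_le_exp.2 (by linarith))
    have hsplit : Real.exp (-(s * (1 + z))) = Real.exp (-s) * Real.exp (-(s * z)) := by
      rw [← Real.exp_add]
      congr 1
      ring
    have hc := exp_conv s z hs.le hsum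
    have hes : Real.exp (-1) ≤ Real.exp (-s) := Real.exp_le_exp.2 (by linarith)
    have hz0 : 0 ≤ z := by rw [hz]; positivity
    have hez : Real.exp (-z) ≤ 1 := Real.exp_le_one_iff.2 (by linarith)
    have h2' := h2 s hs.le hsum
    have h1' := h1 α hα0 hα1
    have hE : Real.exp (-(1 + α / 2 + α ^ 2 / 3 + α ^ 3 / 4 + α ^ 4 / 5))
        = Real.exp (-1) * Real.exp (-z) := by
      rw [← Real.exp_add]
      congr 1
      rw [hz]
      ring
    rw [hE] at h1'
    have hes0 : 0 < Real.exp (-s) := Real.exp_pos _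
    -- exp(-s) exp(-sz) <= exp(-s) - exp(-s) s (1 - exp(-z)) <= exp(-s) - exp(-1) s (1 - exp(-z))
    have k1 : Real.exp (-s) * Real.exp (-(s * z)) ≤
        Real.exp (-s) * ((1 - s) + s * Real.exp (-z)) :=
      mul_le_mul_of_nonneg_left hc hes0.le
    have k2 : Real.exp (-1) * (s * (1 - Real.exp (-z))) ≤
        Real.exp (-s) * (s * (1 - Real.exp (-z))) :=
      mul_le_mul_of_nonneg_right hes (mul_nonneg hs.le (by linarith))
    have k3 : s * (Real.exp (-1) * Real.exp (-z)) ≤ s * (1 - u0 - v0 / 2 - k0 * α) :=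
      mul_le_mul_of_nonneg_left h1' hs.le
    have k4 : k0 * q = s * (k0 * α) := by rw [← hsα]; ring
    rw [k4]
    rw [hsplit] at hP
    nlinarith [hP, k1, k2, k3, h2']

end Pool.Agent.CGM
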