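import Pool.Agent.CGM.Stmts

/-!
# Module CON: first step of a path (project CGM, MP_3bdb72_co)
-/

set_option autoImplicit false
set_option linter.unusedSectionVars false

open Finset
open scoped Classical

namespace Pool.Agent.CGM

namespace CON_

variable {Λ J : Type} [Fintype Λ] [DecidableEq Λ] [Fintype J] [DecidableEq J]

lemma conn_mono (y : Λ → J → ℕ) {S S' : Finset Λ} (h : S ⊆ S') {i j : J}
    (hc : conn y S i j) : conn y S' i j := by
  unfold conn at hc ⊢
  induction hc with
  | refl => exact Relation.ReflTransGen.refl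
  | tail _ hstep ih =>
    obtain ⟨e, he, h1⟩ := hstep
    exact Relation.ReflTransGen.tail ih ⟨e, h he, h1⟩

lemma not_conn (y : Λ → J → ℕ) (S : Finset Λ) {a b : J} (hab : a ≠ b)
    (h : conn y (S.filter (fun e => y e a = 0)) a b) : False := by
  unfold conn at h
  rcases Relation.ReflTransGen.cases_head h with h1 | ⟨c, ⟨e, he, h2, _⟩, _⟩
  · exact hab h1
  · exact h2 (Finset.mem_filter.1 he).2

lemma first_step (y : Λ → J → ℕ) (S : Finset Λ) {a b : J} (hab : a ≠ b)
    (h : conn y S a b) :
    ∃ c, c ≠ a ∧ ∃ e ∈ S, y e a ≠ 0 ∧ y e c ≠ 0 ∧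
      conn y (S.filter (fun e => y e a = 0)) c b := by
  have key : ∀ x, Relation.ReflTransGen (fun a b => ∃ e ∈ S, y e a ≠ 0 ∧ y e b ≠ 0) x b →
      conn y (S.filter (fun e => y e a = 0)) x b ∨
      ∃ c, c ≠ a ∧ ∃ e ∈ S, y e a ≠ 0 ∧ y e c ≠ 0 ∧
        conn y (S.filter (fun e => y e a = 0)) c b := by
    intro x hx
    induction hx using Relation.ReflTransGen.head_induction_on with
    | refl => exact Or.inl Relation.ReflTransGen.refl
    | @head p q hstep _ ih =>
      rcases ih with ih | ih
      · obtain ⟨e, he, hp, hq⟩ := hstep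
        by_cases hea : y e a = 0
        · left
          exact Relation.ReflTransGen.head ⟨e, Finset.mem_filter.2 ⟨he, hea⟩, hp, hq⟩ ih
        · right
          have hqa : q ≠ a := by
            intro h1
            subst h1
            exact not_conn y S hab ih
          exact ⟨q, hqa, e, he, hea, hq, ih⟩
      · exact Or.inr ih
  rcases key a h with h1 | h1
  · exact (not_conn y S hab h1).elim
  · exact h1

lemma EB_factor (T T' : Finset Λ) (π : Λ → ℝ) (hT : T' ⊆ T) (e : Λ) (he : e ∈ T) (he' : e ∉ T')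
    (G : Finset Λ → ℝ) :
    EB T π (fun S => (if e ∈ S then 1 else 0) * G (S ∩ T')) = π e * EB T' π G := by
  have h1 : T = insert e (T.erase e) := (Finset.insert_erase he).symm
  have hsub : T' ⊆ T.erase e := fun x hx =>
    Finset.mem_erase.2 ⟨fun h => he' (h ▸ hx), hT hx⟩
  rw [h1, EB_insert (Finset.notMem_erase e T)]
  have h2 : EB (T.erase e) π (fun S => (if e ∈ S then 1 else 0) * G (S ∩ T')) = 0 := by
    have h3 : EB (T.erase e) π (fun S => (if e ∈ S then 1 else 0) * G (S ∩ T')) =
        EB (T.erase e) π (fun _ => 0) := by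
      refine EB_congr (fun _ _ => rfl) (fun S hS => ?_)
      have : e ∉ S := fun h => Finset.notMem_erase e T (hS h)
      rw [if_neg this, zero_mul]
    rw [h3, EB_const]
  have h4 : EB (T.erase e) π (fun S => (if e ∈ insert e S then (1 : ℝ) else 0) *
      G (insert e S ∩ T')) = EB T' π G := by
    rw [← EB_restrict hsub π G]
    refine EB_congr (fun _ _ => rfl) (fun S hS => ?_)
    rw [if_pos (Finset.mem_insert_self e S), one_mul, Finset.insert_inter_of_notMem he']
  rw [h2, h4, mul_zero, zero_add]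

end CON_

open CON_

theorem con_proof : Stmt_CON := by
  intro Λ J _ _ _ _ y T π a b hPro hab
  -- the set of items which do not touch `a`
  set T' : Finset Λ := T.filter (fun e => y e a = 0) with hT'
  have hT'T : T' ⊆ T := Finset.filter_subset _ _
  have hfil : ∀ S, S ⊆ T → S.filter (fun e => y e a = 0) = S ∩ T' := by
    intro S hS
    ext e
    rw [Finset.mem_filter, Finset.mem_inter, hT', Finset.mem_filter]
    constructor
    · rintro ⟨h1, h2⟩
      exact ⟨h1, hS h1, h2⟩
    · rintro ⟨h1, _, h2⟩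
      exact ⟨h1, h2⟩
  have h1 : Pc y T π a b ≤ EB T π (fun S => ∑ c ∈ univ.erase a,
      ∑ e ∈ T.filter (fun e => y e a ≠ 0 ∧ y e c ≠ 0),
        (if e ∈ S then 1 else 0) * (if conn y (S ∩ T') c b then 1 else 0)) := by
    unfold Pc
    refine EB_mono hPro (fun S hS => ?_)
    have hnn : ∀ c ∈ univ.erase a, 0 ≤ ∑ e ∈ T.filter (fun e => y e a ≠ 0 ∧ y e c ≠ 0),
        (if e ∈ S then (1 : ℝ) else 0) * (if conn y (S ∩ T') c b then 1 else 0) := by
      intro c _
      refine Finset.sum_nonneg (fun e _ => ?_)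
      split_ifs <;> norm_num
    by_cases hc : conn y S a b
    · rw [if_pos hc]
      obtain ⟨c, hca, e, heS, hea, hec, hcb⟩ := first_step y S hab hc
      rw [hfil S hS] at hcb
      refine le_trans ?_ (Finset.single_le_sum hnn (Finset.mem_erase.2 ⟨hca, mem_univ c⟩))
      have hnn2 : ∀ e ∈ T.filter (fun e => y e a ≠ 0 ∧ y e c ≠ 0),
          0 ≤ (if e ∈ S then (1 : ℝ) else 0) * (if conn y (S ∩ T') c b then 1 else 0) := by
        intro e _
        split_ifs <;> norm_num
      refine le_trans ?_ (Finset.single_le_sum hnn2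
        (Finset.mem_filter.2 ⟨hS heS, hea, hec⟩))
      rw [if_pos heS, if_pos hcb, one_mul]
    · rw [if_neg hc]
      exact Finset.sum_nonneg hnn
  refine le_trans h1 ?_
  rw [EB_sum]
  refine Finset.sum_le_sum (fun c _ => ?_)
  rw [EB_sum]
  unfold Qr
  rw [Finset.sum_mul]
  refine Finset.sum_le_sum (fun e he => ?_)
  obtain ⟨heT, hea, _⟩ := Finset.mem_filter.1 he
  have heT' : e ∉ T' := fun h => hea (Finset.mem_filter.1 h).2
  have h2 := EB_factor T T' π hT'T e heT heT' (fun S => if conn y S c b then 1 else 0)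
  rw [h2]
  refine mul_le_mul_of_nonneg_left ?_ (hPro e heT).1
  rw [← EB_restrict hT'T π (fun S => if conn y S c b then 1 else 0)]
  unfold Pc
  refine EB_mono hPro (fun S hS => ?_)
  by_cases h3 : conn y (S ∩ T') c b
  · rw [if_pos h3, if_pos (conn_mono y Finset.inter_subset_left h3)]
  · rw [if_neg h3]
    split_ifs <;> norm_num

end Pool.Agent.CGM
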