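import Pool.Agent.CGM.Stmts

/-!
# CGM : the covariance bound (module COV)
-/

set_option autoImplicit false

open Finset
open scoped Classical

namespace Pool.Agent.CGM

noncomputable section

namespace COV_

variable {Λ J : Type} [Fintype Λ] [DecidableEq Λ] [Fintype J] [DecidableEq J]

/-- the items touching the component of `i` -/
def Tch (y : Λ → J → ℕ) (T : Finset Λ) (i : J) (S : Finset Λ) : Finset Λ :=
  T.filter (fun e => ∃ b, conn y S i b ∧ y e b ≠ 0)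

def fA (y : Λ → J → ℕ) (T : Finset Λ) (i : J) (S S' : Finset Λ) : Finset Λ :=
  (S ∩ Tch y T i S) ∪ (S' \ Tch y T i S)

def fB (y : Λ → J → ℕ) (T : Finset Λ) (i : J) (S S' : Finset Λ) : Finset Λ :=
  (S' ∩ Tch y T i S) ∪ (S \ Tch y T i S)

variable (y : Λ → J → ℕ) (T : Finset Λ) (i : J) {S S' : Finset Λ}

theorem mem_Tch (e : Λ) : e ∈ Tch y T i S ↔ e ∈ T ∧ ∃ b, conn y S i b ∧ y e b ≠ 0 := by
  unfold Tch
  rw [mem_filter]

theorem mem_fA (e : Λ) :
    e ∈ fA y T i S S' ↔ (e ∈ S ∧ e ∈ Tch y T i S) ∨ (e ∈ S' ∧ e ∉ Tch y T i S) := by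
  unfold fA
  rw [mem_union, mem_inter, mem_sdiff]

theorem mem_fB (e : Λ) :
    e ∈ fB y T i S S' ↔ (e ∈ S' ∧ e ∈ Tch y T i S) ∨ (e ∈ S ∧ e ∉ Tch y T i S) := by
  unfold fB
  rw [mem_union, mem_inter, mem_sdiff]

theorem fA_sub (hS : S ⊆ T) (hS' : S' ⊆ T) : fA y T i S S' ⊆ T := by
  intro e he
  rw [mem_fA] at he
  rcases he with h | h
  · exact hS h.1
  · exact hS' h.1

theorem fB_sub (hS : S ⊆ T) (hS' : S' ⊆ T) : fB y T i S S' ⊆ T := by
  intro e he
  rw [mem_fB] at he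
  rcases he with h | h
  · exact hS' h.1
  · exact hS h.1

theorem conn_fA (hS : S ⊆ T) (hS' : S' ⊆ T) (b : J) :
    conn y (fA y T i S S') i b ↔ conn y S i b := by
  constructor
  · intro h
    induction h with
    | refl => exact Relation.ReflTransGen.refl
    | tail h1 h2 ih =>
      obtain ⟨e, he, h3, h4⟩ := h2
      have heT : e ∈ T := fA_sub y T i hS hS' he
      have h5 : e ∈ Tch y T i S := (mem_Tch y T i e).2 ⟨heT, _, ih, h3⟩
      rw [mem_fA] at he
      rcases he with h | h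
      · exact Relation.ReflTransGen.tail ih ⟨e, h.1, h3, h4⟩
      · exact absurd h5 h.2
  · intro h
    induction h with
    | refl => exact Relation.ReflTransGen.refl
    | tail h1 h2 ih =>
      obtain ⟨e, he, h3, h4⟩ := h2
      have h5 : e ∈ Tch y T i S := (mem_Tch y T i e).2 ⟨hS he, _, h1, h3⟩
      exact Relation.ReflTransGen.tail ih ⟨e, (mem_fA y T i e).2 (Or.inl ⟨he, h5⟩), h3, h4⟩

theorem Tch_fA (hS : S ⊆ T) (hS' : S' ⊆ T) : Tch y T i (fA y T i S S') = Tch y T i S := by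
  ext e
  rw [mem_Tch, mem_Tch]
  constructor
  · rintro ⟨h1, b, h2, h3⟩
    exact ⟨h1, b, (conn_fA y T i hS hS' b).1 h2, h3⟩
  · rintro ⟨h1, b, h2, h3⟩
    exact ⟨h1, b, (conn_fA y T i hS hS' b).2 h2, h3⟩

theorem fA_fA (hS : S ⊆ T) (hS' : S' ⊆ T) :
    fA y T i (fA y T i S S') (fB y T i S S') = S := by
  ext e
  rw [mem_fA, Tch_fA y T i hS hS', mem_fA, mem_fB]
  tauto

theorem fB_fA (hS : S ⊆ T) (hS' : S' ⊆ T) :
    fB y T i (fA y T i S S') (fB y T i S S') = S' := by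
  ext e
  rw [mem_fB, Tch_fA y T i hS hS', mem_fA, mem_fB]
  tauto

theorem weight (π : Λ → ℝ) (hS : S ⊆ T) (hS' : S' ⊆ T) :
    wB π T (fA y T i S S') * wB π T (fB y T i S S') = wB π T S * wB π T S' := by
  rw [wB_eq_prod π (fA_sub y T i hS hS'), wB_eq_prod π (fB_sub y T i hS hS'),
    wB_eq_prod π hS, wB_eq_prod π hS', ← Finset.prod_mul_distrib, ← Finset.prod_mul_distrib]
  refine Finset.prod_congr rfl (fun e _ => ?_)
  have hA := mem_fA y T i (S := S) (S' := S') e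
  have hB := mem_fB y T i (S := S) (S' := S') e
  by_cases h : e ∈ Tch y T i S
  · have h1 : e ∈ fA y T i S S' ↔ e ∈ S := by rw [hA]; tauto
    have h2 : e ∈ fB y T i S S' ↔ e ∈ S' := by rw [hB]; tauto
    simp only [h1, h2]
  · have h1 : e ∈ fA y T i S S' ↔ e ∈ S' := by rw [hA]; tauto
    have h2 : e ∈ fB y T i S S' ↔ e ∈ S := by rw [hB]; tauto
    simp only [h1, h2]
    rw [mul_comm]

/-- the sum over pairs is invariant -/
theorem sum_pairs (π : Λ → ℝ) (f : Finset Λ → Finset Λ → ℝ) :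
    ∑ p ∈ T.powerset ×ˢ T.powerset, wB π T p.1 * wB π T p.2 * f p.1 p.2 =
    ∑ p ∈ T.powerset ×ˢ T.powerset, wB π T p.1 * wB π T p.2 *
      f (fA y T i p.1 p.2) (fB y T i p.1 p.2) := by
  symm
  refine Finset.sum_bij' (fun p _ => (fA y T i p.1 p.2, fB y T i p.1 p.2))
    (fun p _ => (fA y T i p.1 p.2, fB y T i p.1 p.2)) ?_ ?_ ?_ ?_ ?_
  · intro p hp
    rw [mem_product, mem_powerset, mem_powerset] at hp ⊢
    exact ⟨fA_sub y T i hp.1 hp.2, fB_sub y T i hp.1 hp.2⟩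
  · intro p hp
    rw [mem_product, mem_powerset, mem_powerset] at hp ⊢
    exact ⟨fA_sub y T i hp.1 hp.2, fB_sub y T i hp.1 hp.2⟩
  · intro p hp
    rw [mem_product, mem_powerset, mem_powerset] at hp
    exact Prod.ext (fA_fA y T i hp.1 hp.2) (fB_fA y T i hp.1 hp.2)
  · intro p hp
    rw [mem_product, mem_powerset, mem_powerset] at hp
    exact Prod.ext (fA_fA y T i hp.1 hp.2) (fB_fA y T i hp.1 hp.2)
  · intro p hp
    rw [mem_product, mem_powerset, mem_powerset] at hp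
    have := weight y T i π hp.1 hp.2
    simp only
    rw [this]

theorem EB_EB (π : Λ → ℝ) (f : Finset Λ → Finset Λ → ℝ) :
    EB T π (fun S => EB T π (fun S' => f S S')) =
      ∑ p ∈ T.powerset ×ˢ T.powerset, wB π T p.1 * wB π T p.2 * f p.1 p.2 := by
  unfold EB
  rw [Finset.sum_product]
  refine Finset.sum_congr rfl (fun S _ => ?_)
  rw [Finset.mul_sum]
  exact Finset.sum_congr rfl (fun S' _ => by ring)

/-- the component as a finset -/
def Kc (y : Λ → J → ℕ) (i : J) (S : Finset Λ) : Finset J := univ.filter (fun b => conn y S i b)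

theorem mem_Kc (b : J) : b ∈ Kc y i S ↔ conn y S i b := by
  unfold Kc
  rw [mem_filter]
  exact ⟨fun h => h.2, fun h => ⟨mem_univ _, h⟩⟩

theorem Kc_closed (S : Finset Λ) : ∀ e ∈ S,
    (∀ j, j ∈ Kc y i S → y e j = 0) ∨ (∀ j, j ∉ Kc y i S → y e j = 0) := by
  intro e he
  by_cases h : ∃ b, conn y S i b ∧ y e b ≠ 0
  · right
    intro j hj
    by_contra h1
    obtain ⟨b, h2, h3⟩ := h
    exact hj ((mem_Kc y i j).2 (Relation.ReflTransGen.tail h2 ⟨e, he, h3, h1⟩))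
  · left
    intro j hj
    by_contra h1
    exact h ⟨j, (mem_Kc y i j).1 hj, h1⟩

theorem Kc_fA (hS : S ⊆ T) (hS' : S' ⊆ T) : Kc y i (fA y T i S S') = Kc y i S := by
  ext b
  rw [mem_Kc, mem_Kc, conn_fA y T i hS hS' b]

theorem pr_i (hL : Stmt_OPL) (hS : S ⊆ T) (hS' : S' ⊆ T) :
    pr y (fA y T i S S') i = pr y S i := by
  have hi : i ∈ Kc y i S := (mem_Kc y i i).2 Relation.ReflTransGen.refl
  have h1 := (hL Λ J y S (Kc y i S) (Kc_closed y i S)).1 i hi
  have h2 := (hL Λ J y (fA y T i S S') (Kc y i (fA y T i S S'))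
    (Kc_closed y i (fA y T i S S'))).1 i (by rw [Kc_fA y T i hS hS']; exact hi)
  rw [h1, h2, Kc_fA y T i hS hS']
  congr 1
  ext e
  rw [mem_filter, mem_filter, mem_fA]
  constructor
  · rintro ⟨h3, b, h4, h5⟩
    rcases h3 with h3 | h3
    · exact ⟨h3.1, b, h4, h5⟩
    · exact absurd ((mem_Tch y T i e).2 ⟨hS' h3.1, b, (mem_Kc y i b).1 h4, h5⟩) h3.2
  · rintro ⟨h3, b, h4, h5⟩
    exact ⟨Or.inl ⟨h3, (mem_Tch y T i e).2 ⟨hS h3, b, (mem_Kc y i b).1 h4, h5⟩⟩, b, h4, h5⟩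

theorem pr_j (hM : Stmt_OPM) (hL : Stmt_OPL) (hS : S ⊆ T) (hS' : S' ⊆ T) (j : J)
    (hj : ¬ conn y S i j) : pr y (fA y T i S S') j ≤ pr y S' j := by
  have h2 := (hL Λ J y (fA y T i S S') (Kc y i (fA y T i S S'))
    (Kc_closed y i (fA y T i S S'))).2 j (by
      rw [Kc_fA y T i hS hS', mem_Kc]
      exact hj)
  rw [h2]
  apply hM Λ J y
  intro e he
  rw [mem_filter, mem_fA] at he
  obtain ⟨h3, h4⟩ := he
  rcases h3 with h3 | h3
  · obtain ⟨_, b, h5, h6⟩ := (mem_Tch y T i e).1 h3.2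
    exact absurd ⟨b, (by rw [Kc_fA y T i hS hS', mem_Kc]; exact h5), h6⟩ h4
  · exact h3.1

end COV_

open COV_ in
theorem cov_proof (h1 : Stmt_OPM) (h2 : Stmt_OPL) : Stmt_COV := by
  intro Λ J _ _ _ _ y T π i j c d hπ
  have e1 : EB T π (fun S => ((max (c - pr y S i) (d - pr y S j) : ℕ) : ℝ)) =
      EB T π (fun S => EB T π (fun _ => ((max (c - pr y S i) (d - pr y S j) : ℕ) : ℝ))) := by
    refine EB_congr (fun _ _ => rfl) (fun S _ => ?_)
    rw [EB_const]
  have e2 : Pc y T π i j * EB T π (fun S => ((d - pr y S j : ℕ) : ℝ)) =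
      EB T π (fun S => EB T π (fun S' =>
        (if conn y S i j then (1 : ℝ) else 0) * ((d - pr y S' j : ℕ) : ℝ))) := by
    unfold Pc EB
    rw [Finset.sum_mul]
    refine Finset.sum_congr rfl (fun S _ => ?_)
    rw [Finset.mul_sum, Finset.mul_sum]
    exact Finset.sum_congr rfl (fun S' _ => by ring)
  rw [e1, e2, EB_EB, EB_EB, EB_EB,
    sum_pairs y T i π (fun S _ => ((max (c - pr y S i) (d - pr y S j) : ℕ) : ℝ)),
    ← Finset.sum_sub_distrib]
  refine Finset.sum_le_sum (fun p hp => ?_)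
  rw [mem_product, mem_powerset, mem_powerset] at hp
  have hw : 0 ≤ wB π T p.1 * wB π T p.2 := mul_nonneg (wB_nonneg hπ hp.1) (wB_nonneg hπ hp.2)
  rw [← mul_sub]
  refine mul_le_mul_of_nonneg_left ?_ hw
  have hi := pr_i y T i h2 hp.1 hp.2
  rw [hi]
  by_cases hj : conn y p.1 i j
  · rw [if_pos hj, one_mul]
    have h3 : max (c - pr y p.1 i) (d - pr y p.2 j) ≤
        max (c - pr y p.1 i) (d - pr y (fA y T i p.1 p.2) j) + (d - pr y p.2 j) := by
      omega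
    have h4 : ((max (c - pr y p.1 i) (d - pr y p.2 j) : ℕ) : ℝ) ≤
        ((max (c - pr y p.1 i) (d - pr y (fA y T i p.1 p.2) j) : ℕ) : ℝ) +
          ((d - pr y p.2 j : ℕ) : ℝ) := by exact_mod_cast h3
    linarith
  · rw [if_neg hj, zero_mul]
    have h5 := pr_j y T i h1 h2 hp.1 hp.2 j hj
    have h3 : max (c - pr y p.1 i) (d - pr y p.2 j) ≤
        max (c - pr y p.1 i) (d - pr y (fA y T i p.1 p.2) j) := by
      omega
    have h4 : ((max (c - pr y p.1 i) (d - pr y p.2 j) : ℕ) : ℝ) ≤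
        ((max (c - pr y p.1 i) (d - pr y (fA y T i p.1 p.2) j) : ℕ) : ℝ) := by exact_mod_cast h3
    linarith

end

end Pool.Agent.CGM
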