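import Pool.Agent.CGM.Stmts

set_option autoImplicit false

/-! # CGM : the capacity inequality for functions (layer cake) -/

open Finset
open scoped Classical

namespace Pool.Agent.CGM

namespace CPS_

lemma cnt (B n : ℕ) (h : n ≤ B) (c : ℝ) :
    ∑ th ∈ range B, (if th < n then c else 0) = c * (n : ℝ) := by
  rw [← Finset.sum_filter]
  have : (range B).filter (fun th => th < n) = range n := by
    ext th
    simp only [Finset.mem_filter, Finset.mem_range]
    constructor
    · exact fun h => h.2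
    · exact fun h' => ⟨lt_of_lt_of_le h' h, h'⟩
  rw [this, Finset.sum_const, Finset.card_range, nsmul_eq_mul, mul_comm]

variable {J : Type} [Fintype J] [DecidableEq J]

lemma EB_nonempty (T : Finset J) (a : J → ℝ) :
    EB T a (fun S => if S.Nonempty then (1 : ℝ) else 0) = 1 - ∏ j ∈ T, (1 - a j) := by
  have h1 : EB T a (fun S => if S.Nonempty then (1 : ℝ) else 0) =
      EB T a (fun S => (fun _ => (1 : ℝ)) S - (fun S => if S = ∅ then (1 : ℝ) else 0) S) := by
    refine EB_congr (fun _ _ => rfl) (fun S _ => ?_)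
    by_cases hS : S = ∅
    · subst hS
      simp
    · have : S.Nonempty := Finset.nonempty_iff_ne_empty.2 hS
      simp [hS, this]
  rw [h1, EB_sub, EB_const]
  congr 1
  unfold EB
  rw [Finset.sum_eq_single ∅]
  · simp [wB]
  · intro S _ hS
    simp [hS]
  · intro h
    exact absurd (Finset.empty_mem_powerset T) h

lemma sup_eq (x : J → ℕ) (N : Finset J) (B : ℕ) (hB : ∀ j, x j ≤ B) :
    ((N.sup x : ℕ) : ℝ) =
      ∑ th ∈ range B, (if (N ∩ univ.filter (fun j => th < x j)).Nonempty then (1 : ℝ) else 0) := by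
  have h1 : ∀ th, (N ∩ univ.filter (fun j => th < x j)).Nonempty ↔ th < N.sup x := by
    intro th
    rw [Finset.lt_sup_iff]
    constructor
    · rintro ⟨j, hj⟩
      rw [Finset.mem_inter, Finset.mem_filter] at hj
      exact ⟨j, hj.1, hj.2.2⟩
    · rintro ⟨j, hj, h⟩
      exact ⟨j, Finset.mem_inter.2 ⟨hj, Finset.mem_filter.2 ⟨Finset.mem_univ _, h⟩⟩⟩
  have h2 : N.sup x ≤ B := Finset.sup_le (fun j _ => hB j)
  have h3 := cnt B (N.sup x) h2 1
  rw [one_mul] at h3
  rw [← h3]
  refine Finset.sum_congr rfl (fun th _ => ?_)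
  by_cases h : th < N.sup x
  · rw [if_pos h, if_pos ((h1 th).2 h)]
  · rw [if_neg h, if_neg (fun h' => h ((h1 th).1 h'))]

end CPS_

open CPS_ in
theorem cps_proof (hCAP : Stmt_CAP) : Stmt_CPS := by
  intro J _ _ a x ha hs
  obtain ⟨B, hB⟩ : ∃ B : ℕ, ∀ j, x j ≤ B := ⟨univ.sup x, fun j => Finset.le_sup (Finset.mem_univ j)⟩
  -- the right side
  have hR : EB univ a (fun N => ((N.sup x : ℕ) : ℝ)) =
      ∑ th ∈ range B, (1 - ∏ j ∈ univ.filter (fun j => th < x j), (1 - a j)) := by
    rw [EB_congr (π' := a) (F' := fun N => ∑ th ∈ range B,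
      (if (N ∩ univ.filter (fun j => th < x j)).Nonempty then (1 : ℝ) else 0)) (fun _ _ => rfl)
      (fun S _ => sup_eq x S B hB)]
    rw [EB_sum]
    refine Finset.sum_congr rfl (fun th _ => ?_)
    rw [← EB_nonempty]
    exact EB_restrict (T := univ) (T' := univ.filter (fun j => th < x j)) (Finset.subset_univ _) a
      (fun S => if S.Nonempty then (1 : ℝ) else 0)
  rw [hR]
  obtain ⟨s, hsd⟩ : ∃ s : ℕ → ℝ, ∀ th, s th = ∑ j, (if th < x j then a j else 0) := ⟨_, fun _ => rfl⟩
  have hsf : ∀ th, ∑ j ∈ univ.filter (fun j => th < x j), a j = s th := by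
    intro th
    rw [hsd, Finset.sum_filter]
  have hqf : ∀ th, ∑ j ∈ univ.filter (fun j => th < x j), a j ^ 2 =
      ∑ j, (if th < x j then a j ^ 2 else 0) := by
    intro th
    rw [Finset.sum_filter]
  have hcap : ∀ th, u0 * s th + v0 * (s th - s th ^ 2 / 2) +
      k0 * ∑ j, (if th < x j then a j ^ 2 else 0) ≤
        1 - ∏ j ∈ univ.filter (fun j => th < x j), (1 - a j) := by
    intro th
    have h := hCAP J (univ.filter (fun j => th < x j)) a (fun j _ => ha j) (by
      rw [← hs]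
      exact Finset.sum_le_sum_of_subset_of_nonneg (Finset.subset_univ _) (fun j _ _ => ha j))
    rw [hsf, hqf] at h
    exact h
  refine le_trans (le_of_eq ?_) (Finset.sum_le_sum (fun th _ => hcap th))
  -- the layers
  have e1 : ∑ th ∈ range B, s th = ∑ j, a j * (x j : ℝ) := by
    rw [Finset.sum_congr rfl (fun th _ => hsd th), Finset.sum_comm]
    exact Finset.sum_congr rfl (fun j _ => cnt B (x j) (hB j) (a j))
  have e2 : ∑ th ∈ range B, ∑ j, (if th < x j then a j ^ 2 else 0) =
      ∑ j, a j ^ 2 * (x j : ℝ) := by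
    rw [Finset.sum_comm]
    exact Finset.sum_congr rfl (fun j _ => cnt B (x j) (hB j) (a j ^ 2))
  have e3 : ∑ th ∈ range B, s th ^ 2 = ∑ i, ∑ j, a i * a j * ((min (x i) (x j) : ℕ) : ℝ) := by
    have : ∀ th, s th ^ 2 = ∑ i, ∑ j, (if th < min (x i) (x j) then a i * a j else 0) := by
      intro th
      rw [sq, hsd, Finset.sum_mul_sum]
      refine Finset.sum_congr rfl (fun i _ => Finset.sum_congr rfl (fun j _ => ?_))
      by_cases h1 : th < x i <;> by_cases h2 : th < x j <;> simp [h1, h2]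
    rw [Finset.sum_congr rfl (fun th _ => this th), Finset.sum_comm]
    refine Finset.sum_congr rfl (fun i _ => ?_)
    rw [Finset.sum_comm]
    exact Finset.sum_congr rfl (fun j _ => cnt B (min (x i) (x j))
      (le_trans (min_le_left _ _) (hB i)) (a i * a j))
  have e4 : ∑ i, ∑ j, a i * a j * ((max (x i) (x j) : ℕ) : ℝ) =
      2 * (∑ j, a j * (x j : ℝ)) - ∑ i, ∑ j, a i * a j * ((min (x i) (x j) : ℕ) : ℝ) := by
    have hmm : ∀ i j, a i * a j * ((max (x i) (x j) : ℕ) : ℝ) =
        a i * (x i : ℝ) * a j + a i * (a j * (x j : ℝ)) -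
          a i * a j * ((min (x i) (x j) : ℕ) : ℝ) := by
      intro i j
      have : ((max (x i) (x j) : ℕ) : ℝ) + ((min (x i) (x j) : ℕ) : ℝ) = (x i : ℝ) + (x j : ℝ) := by
        exact_mod_cast max_add_min (x i) (x j)
      have h' : ((max (x i) (x j) : ℕ) : ℝ) = (x i : ℝ) + (x j : ℝ) -
        ((min (x i) (x j) : ℕ) : ℝ) := by linarith
      rw [h']
      ring
    simp_rw [hmm, Finset.sum_sub_distrib, Finset.sum_add_distrib]
    have f1 : ∑ i, ∑ j, a i * (x i : ℝ) * a j = ∑ i, a i * (x i : ℝ) := by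
      refine Finset.sum_congr rfl (fun i _ => ?_)
      rw [← Finset.mul_sum, hs, mul_one]
    have f2 : ∑ i, ∑ j, a i * (a j * (x j : ℝ)) = ∑ j, a j * (x j : ℝ) := by
      rw [← Finset.sum_mul_sum, hs, one_mul]
    rw [f1, f2]
    ring
  have e5 : ∑ th ∈ range B, (u0 * s th + v0 * (s th - s th ^ 2 / 2) +
      k0 * ∑ j, (if th < x j then a j ^ 2 else 0)) =
      u0 * (∑ th ∈ range B, s th) + v0 * ((∑ th ∈ range B, s th) - (∑ th ∈ range B, s th ^ 2) / 2) +
      k0 * ∑ th ∈ range B, ∑ j, (if th < x j then a j ^ 2 else 0) := by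
    rw [Finset.sum_add_distrib, Finset.sum_add_distrib, ← Finset.mul_sum, ← Finset.mul_sum,
      ← Finset.mul_sum, Finset.sum_sub_distrib, Finset.sum_div]
  rw [e5, e1, e2, e3, e4]
  have e6 : ∑ j, (u0 * a j + k0 * a j ^ 2) * (x j : ℝ) =
      u0 * (∑ j, a j * (x j : ℝ)) + k0 * ∑ j, a j ^ 2 * (x j : ℝ) := by
    rw [Finset.mul_sum, Finset.mul_sum, ← Finset.sum_add_distrib]
    exact Finset.sum_congr rfl (fun j _ => by ring)
  rw [e6]
  ring

end Pool.Agent.CGM
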