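import Mathlib

/-!
# Definitions for the project CGM (MP_3bdb72_co)

`J` = right vertices, `Λ` = index type of the (potential) left vertices, also called items.
Item `e : Λ` has the weight `y e j : ℕ` at the right vertex `j`.
`opt y S U` = maximum weight of a matching of the items of `S` into the right vertices of `U`.
`EB T π F` = expectation of `F S`, where `S ⊆ T` contains `e ∈ T` with probability `π e`,
independently.
-/

set_option autoImplicit false
set_option linter.unusedSectionVars false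

open Finset
open scoped Classical

namespace Pool.Agent.CGM

noncomputable section

section opt
variable {Λ J : Type} [Fintype Λ] [DecidableEq Λ] [Fintype J] [DecidableEq J]

/-- `m` is a matching of (some) items of `S` into `U` -/
def IsM (S : Finset Λ) (U : Finset J) (m : Λ → Option J) : Prop :=
  (∀ e j, m e = some j → e ∈ S ∧ j ∈ U) ∧
    (∀ e e' j, m e = some j → m e' = some j → e = e')

/-- the weight of the matching `m` -/
def val (y : Λ → J → ℕ) (m : Λ → Option J) : ℕ := ∑ e, (m e).elim 0 (y e)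

/-- the maximum weight of a matching of items of `S` into `U` -/
def opt (y : Λ → J → ℕ) (S : Finset Λ) (U : Finset J) : ℕ :=
  (univ.filter (fun m : Λ → Option J => IsM S U m)).sup (val y)

/-- the price of the right vertex `j` -/
def pr (y : Λ → J → ℕ) (S : Finset Λ) (j : J) : ℕ := opt y S univ - opt y S (univ.erase j)

/-- the gain from adding the item `e` to `S` (see `Stmt_OPI`) -/
def gain (y : Λ → J → ℕ) (S : Finset Λ) (e : Λ) : ℕ := univ.sup (fun j => y e j - pr y S j)

/-- `i` and `j` are connected by items of `S` (an item joins the vertices at which it has nonzero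
weight) -/
def conn (y : Λ → J → ℕ) (S : Finset Λ) (i j : J) : Prop :=
  Relation.ReflTransGen (fun a b => ∃ e ∈ S, y e a ≠ 0 ∧ y e b ≠ 0) i j

lemma isM_none (S : Finset Λ) (U : Finset J) : IsM S U (fun _ => none) :=
  ⟨fun _ _ h => by simp at h, fun _ _ _ h => by simp at h⟩

lemma val_le_opt {y : Λ → J → ℕ} {S : Finset Λ} {U : Finset J} {m : Λ → Option J}
    (h : IsM S U m) : val y m ≤ opt y S U :=
  Finset.le_sup (f := val y) (mem_filter.2 ⟨mem_univ _, h⟩)

lemma exists_opt (y : Λ → J → ℕ) (S : Finset Λ) (U : Finset J) :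
    ∃ m : Λ → Option J, IsM S U m ∧ val y m = opt y S U := by
  obtain ⟨m, hm, h⟩ := Finset.exists_mem_eq_sup
    (univ.filter (fun m : Λ → Option J => IsM S U m))
    ⟨fun _ => none, mem_filter.2 ⟨mem_univ _, isM_none S U⟩⟩ (val y)
  exact ⟨m, (mem_filter.1 hm).2, h.symm⟩

lemma opt_mono (y : Λ → J → ℕ) {S S' : Finset Λ} {U U' : Finset J} (hS : S ⊆ S') (hU : U ⊆ U') :
    opt y S U ≤ opt y S' U' := by
  obtain ⟨m, hm, h⟩ := exists_opt y S U
  rw [← h]
  exact val_le_opt ⟨fun e j hj => ⟨hS (hm.1 e j hj).1, hU (hm.1 e j hj).2⟩, hm.2⟩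

end opt

section bern
variable {Λ : Type} [DecidableEq Λ]

/-- the probability of the outcome `S` -/
def wB (π : Λ → ℝ) (T S : Finset Λ) : ℝ := (∏ e ∈ S, π e) * ∏ e ∈ T \ S, (1 - π e)

/-- expectation over the random subset of `T` -/
def EB (T : Finset Λ) (π : Λ → ℝ) (F : Finset Λ → ℝ) : ℝ := ∑ S ∈ T.powerset, wB π T S * F S

/-- all probabilities are in `[0,1]` -/
def Pro (T : Finset Λ) (π : Λ → ℝ) : Prop := ∀ e ∈ T, 0 ≤ π e ∧ π e ≤ 1

lemma Pro.mono {T T' : Finset Λ} {π : Λ → ℝ} (h : Pro T π) (hT : T' ⊆ T) : Pro T' π :=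
  fun e he => h e (hT he)

lemma wB_nonneg {π : Λ → ℝ} {T S : Finset Λ} (h : Pro T π) (hS : S ⊆ T) : 0 ≤ wB π T S :=
  mul_nonneg (Finset.prod_nonneg (fun e he => (h e (hS he)).1))
    (Finset.prod_nonneg (fun e he => by
      have := (h e (Finset.mem_sdiff.1 he).1).2
      linarith))

@[simp] lemma EB_empty (π : Λ → ℝ) (F : Finset Λ → ℝ) : EB ∅ π F = F ∅ := by
  simp [EB, wB]

lemma EB_congr {T : Finset Λ} {π π' : Λ → ℝ} {F F' : Finset Λ → ℝ} (hπ : ∀ e ∈ T, π e = π' e)
    (hF : ∀ S, S ⊆ T → F S = F' S) : EB T π F = EB T π' F' := by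
  unfold EB
  refine Finset.sum_congr rfl (fun S hS => ?_)
  have hST := Finset.mem_powerset.1 hS
  rw [hF S hST]
  congr 1
  unfold wB
  congr 1
  · exact Finset.prod_congr rfl (fun e he => hπ e (hST he))
  · exact Finset.prod_congr rfl (fun e he => by rw [hπ e (Finset.mem_sdiff.1 he).1])

lemma EB_insert {T : Finset Λ} {e : Λ} (he : e ∉ T) (π : Λ → ℝ) (F : Finset Λ → ℝ) :
    EB (insert e T) π F = (1 - π e) * EB T π F + π e * EB T π (fun S => F (insert e S)) := by
  unfold EB
  rw [Finset.sum_powerset_insert he, Finset.mul_sum, Finset.mul_sum]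
  congr 1
  · refine Finset.sum_congr rfl (fun S hS => ?_)
    have hST := Finset.mem_powerset.1 hS
    have heS : e ∉ S := fun h => he (hST h)
    unfold wB
    have : insert e T \ S = insert e (T \ S) := by
      rw [Finset.insert_sdiff_of_notMem _ heS]
    rw [this, Finset.prod_insert (fun h => he (Finset.mem_sdiff.1 h).1)]
    ring
  · refine Finset.sum_congr rfl (fun S hS => ?_)
    have hST := Finset.mem_powerset.1 hS
    have heS : e ∉ S := fun h => he (hST h)
    unfold wB
    have : insert e T \ insert e S = T \ S := by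
      rw [Finset.insert_sdiff_insert, Finset.sdiff_insert_of_notMem he]
    rw [this, Finset.prod_insert heS]
    ring

lemma EB_add (T : Finset Λ) (π : Λ → ℝ) (F G : Finset Λ → ℝ) :
    EB T π (fun S => F S + G S) = EB T π F + EB T π G := by
  unfold EB
  rw [← Finset.sum_add_distrib]
  exact Finset.sum_congr rfl (fun S _ => by ring)

lemma EB_sub (T : Finset Λ) (π : Λ → ℝ) (F G : Finset Λ → ℝ) :
    EB T π (fun S => F S - G S) = EB T π F - EB T π G := by
  unfold EB
  rw [← Finset.sum_sub_distrib]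
  exact Finset.sum_congr rfl (fun S _ => by ring)

lemma EB_mul_left (T : Finset Λ) (π : Λ → ℝ) (c : ℝ) (F : Finset Λ → ℝ) :
    EB T π (fun S => c * F S) = c * EB T π F := by
  unfold EB
  rw [Finset.mul_sum]
  exact Finset.sum_congr rfl (fun S _ => by ring)

lemma EB_mul_right (T : Finset Λ) (π : Λ → ℝ) (c : ℝ) (F : Finset Λ → ℝ) :
    EB T π (fun S => F S * c) = EB T π F * c := by
  unfold EB
  rw [Finset.sum_mul]
  exact Finset.sum_congr rfl (fun S _ => by ring)

lemma EB_sum {ι : Type} (T : Finset Λ) (π : Λ → ℝ) (s : Finset ι) (F : ι → Finset Λ → ℝ) :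
    EB T π (fun S => ∑ i ∈ s, F i S) = ∑ i ∈ s, EB T π (F i) := by
  unfold EB
  rw [Finset.sum_comm]
  exact Finset.sum_congr rfl (fun S _ => by rw [Finset.mul_sum])

lemma EB_const (T : Finset Λ) (π : Λ → ℝ) (c : ℝ) : EB T π (fun _ => c) = c := by
  induction T using Finset.induction_on with
  | empty => simp
  | insert e T he ih =>
    rw [EB_insert he, ih]
    ring

lemma sum_wB (T : Finset Λ) (π : Λ → ℝ) : ∑ S ∈ T.powerset, wB π T S = 1 := by
  have := EB_const T π 1
  unfold EB at this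
  simpa using this

lemma EB_mono {T : Finset Λ} {π : Λ → ℝ} (h : Pro T π) {F G : Finset Λ → ℝ}
    (hFG : ∀ S, S ⊆ T → F S ≤ G S) : EB T π F ≤ EB T π G :=
  Finset.sum_le_sum (fun S hS => mul_le_mul_of_nonneg_left (hFG S (Finset.mem_powerset.1 hS))
    (wB_nonneg h (Finset.mem_powerset.1 hS)))

lemma EB_nonneg {T : Finset Λ} {π : Λ → ℝ} (h : Pro T π) {F : Finset Λ → ℝ}
    (hF : ∀ S, S ⊆ T → 0 ≤ F S) : 0 ≤ EB T π F := by
  have := EB_mono h (F := fun _ => 0) hF
  rwa [EB_const] at this

lemma EB_union {T T' : Finset Λ} (hd : Disjoint T T') (π : Λ → ℝ) (F : Finset Λ → ℝ) :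
    EB (T ∪ T') π F = EB T π (fun S => EB T' π (fun S' => F (S ∪ S'))) := by
  induction T using Finset.induction_on generalizing F with
  | empty => simp
  | insert e T he ih =>
    have hdT : Disjoint T T' := Finset.disjoint_of_subset_left (Finset.subset_insert e T) hd
    have heT' : e ∉ T' := Finset.disjoint_left.1 hd (Finset.mem_insert_self e T)
    have heU : e ∉ T ∪ T' := by
      rw [Finset.mem_union]
      tauto
    rw [Finset.insert_union, EB_insert heU, EB_insert he, ih hdT, ih hdT]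
    congr 2
    · refine EB_congr (fun _ _ => rfl) (fun S _ => ?_)
      refine EB_congr (fun _ _ => rfl) (fun S' _ => ?_)
      rw [Finset.insert_union]

/-- Fubini: two expectations commute -/
lemma EB_comm {Λ' : Type} [DecidableEq Λ'] (T : Finset Λ) (T' : Finset Λ') (π : Λ → ℝ)
    (π' : Λ' → ℝ) (F : Finset Λ → Finset Λ' → ℝ) :
    EB T π (fun S => EB T' π' (fun S' => F S S')) =
      EB T' π' (fun S' => EB T π (fun S => F S S')) := by
  unfold EB
  simp_rw [Finset.mul_sum]
  rw [Finset.sum_comm]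
  exact Finset.sum_congr rfl (fun S _ => Finset.sum_congr rfl (fun S' _ => by ring))

/-- the weight as a product over `T` of one factor for each element -/
lemma wB_eq_prod (π : Λ → ℝ) {T S : Finset Λ} (hS : S ⊆ T) :
    wB π T S = ∏ e ∈ T, if e ∈ S then π e else 1 - π e := by
  unfold wB
  rw [← Finset.prod_sdiff hS, mul_comm]
  congr 1
  · exact Finset.prod_congr rfl (fun e he => by rw [if_neg (Finset.mem_sdiff.1 he).2])
  · exact Finset.prod_congr rfl (fun e he => by rw [if_pos he])

/-- if `F` does not depend on the elements outside `T'` they can be forgotten -/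
lemma EB_restrict {T T' : Finset Λ} (hT : T' ⊆ T) (π : Λ → ℝ) (F : Finset Λ → ℝ) :
    EB T π (fun S => F (S ∩ T')) = EB T' π F := by
  have h1 : T = T' ∪ (T \ T') := (Finset.union_sdiff_of_subset hT).symm
  rw [h1, EB_union Finset.disjoint_sdiff]
  refine EB_congr (fun _ _ => rfl) (fun S hS => ?_)
  rw [← EB_const (T \ T') π (F S)]
  refine EB_congr (fun _ _ => rfl) (fun S' hS' => ?_)
  congr 1
  ext e
  rw [Finset.mem_inter, Finset.mem_union]
  constructor
  · rintro ⟨h | h, h2⟩
    · exact h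
    · exact absurd h2 (Finset.mem_sdiff.1 (hS' h)).2
  · intro h
    exact ⟨Or.inl h, hS h⟩

end bern

section rates
variable {Λ J : Type} [Fintype Λ] [DecidableEq Λ] [Fintype J] [DecidableEq J]

/-- the probability that `i` and `j` are connected -/
def Pc (y : Λ → J → ℕ) (T : Finset Λ) (π : Λ → ℝ) (i j : J) : ℝ :=
  EB T π (fun S => if conn y S i j then 1 else 0)

/-- the total rate of the items joining `i` and `j` -/
def Qr (y : Λ → J → ℕ) (T : Finset Λ) (π : Λ → ℝ) (i j : J) : ℝ :=
  ∑ e ∈ T.filter (fun e => y e i ≠ 0 ∧ y e j ≠ 0), π e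

end rates

/-! ### parameters -/

/-- parameter `u` -/
def u0 : ℝ := 382 / 1000
/-- parameter `v` -/
def v0 : ℝ := 486 / 1000
/-- parameter `κ` -/
def k0 : ℝ := 233 / 1000
/-- lower bound for the probability that no item touches a given vertex -/
def r0 : ℝ := 4197 / 10000

/-- the connectivity bound -/
def fs (s : ℝ) : ℝ := v0 * s / (1 - v0 * s)

/-- lower bound (a polynomial) for the net gain -/
def Lf (s : ℝ) : ℝ :=
  v0 / 2 * r0 ^ 2 -
    (v0 / 2 - k0 + v0 / 2 * (v0 * s + (v0 * s) ^ 2 + (v0 * s) ^ 3 + (v0 * s) ^ 4 / (1 - v0))) * r0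
    - v0 / 2 * (74 / 1000 * s ^ 4) ^ 2

/-! ### the problem -/

/-- `M` is a matching of `K_{n,n}` -/
def IsMatching {n : ℕ} (M : Finset (Fin n × Fin n)) : Prop :=
  ∀ e ∈ M, ∀ f ∈ M, (e.1 = f.1 ∨ e.2 = f.2) → e = f

/-- the maximum weight of a matching contained in `R` -/
def maxW {n : ℕ} (W : Fin n → Fin n → ℝ) (R : Finset (Fin n × Fin n)) : ℝ :=
  (R.powerset.filter (fun M => IsMatching M)).sup'
    ⟨∅, Finset.mem_filter.2 ⟨Finset.empty_mem_powerset R, fun _ he => by simp at he⟩⟩
    (fun M => ∑ e ∈ M, W e.1 e.2)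

/-- the probability that the random graph `R(A)` is equal to `R` -/
def prob {n : ℕ} (A : Fin n → Fin n → ℝ) (R : Finset (Fin n × Fin n)) : ℝ :=
  (∏ e ∈ R, A e.1 e.2) * ∏ e ∈ univ \ R, (1 - A e.1 e.2)

/-- the expected maximum weight of a matching of `R(A)` -/
def Phi {n : ℕ} (A W : Fin n → Fin n → ℝ) : ℝ :=
  ∑ R : Finset (Fin n × Fin n), prob A R * maxW W R

/-- doubly stochastic matrices -/
def DS {n : ℕ} (A : Fin n → Fin n → ℝ) : Prop :=
  (∀ i j, 0 ≤ A i j) ∧ (∀ i, ∑ j, A i j = 1) ∧ ∀ j, ∑ i, A i j = 1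

end

end Pool.Agent.CGM
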