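import Pool.Agent.CGM.Stmts

/-! Module EVL: evaluation of the final lower bound -/

set_option autoImplicit false

open Finset
open scoped Classical

namespace Pool.Agent.CGM

namespace EVL_

/-- a sum over `range B` of a function supported on `range w` -/
lemma sum_ite_lt {B w : ℕ} (h : w ≤ B) (f : ℕ → ℝ) :
    ∑ θ ∈ range B, (if θ < w then f θ else 0) = ∑ θ ∈ range w, f θ := by
  rw [← Finset.sum_filter]
  congr 1
  ext θ
  simp only [mem_filter, mem_range]
  omega

end EVL_

open EVL_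

theorem evl_proof (h1 : Stmt_JEN) (h2 : Stmt_NTB) (h3 : Stmt_NTC) : Stmt_EVL := by
  intro n M B A w β hA hM hw hβ
  obtain ⟨hA0, hArow, hAcol⟩ := hA
  have hMpos : (0 : ℝ) < M := by
    have : 0 < M := by omega
    exact_mod_cast this
  have hM0 : (M : ℝ) ≠ 0 := hMpos.ne'
  obtain ⟨c, hc⟩ : ∃ c : Fin n → ℕ → Fin n → Fin M → ℝ, c = fun j θ k t =>
    if θ < w k j then u0 + v0 * (1 - β k t (w k j - 1 - θ)) else 0 := ⟨_, rfl⟩
  have hc0 : ∀ j θ k t, 0 ≤ c j θ k t := by
    intro j θ k t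
    rw [hc]
    dsimp only
    split_ifs
    · have := (hβ k t (w k j - 1 - θ)).2
      have h0 : (0 : ℝ) ≤ v0 := by unfold v0; norm_num
      have h0' : (0 : ℝ) ≤ u0 := by unfold u0; norm_num
      have := mul_nonneg h0 (sub_nonneg.2 this)
      linarith
    · exact le_rfl
  -- Jensen
  have hJ : ∀ j θ, ∑ k, ∑ t, A k j / M * (1 - Real.exp (-c j θ k t)) ≤
      1 - Real.exp (-∑ k, ∑ t, A k j / M * c j θ k t) := by
    intro j θ
    have hl0 : ∀ i ∈ (univ : Finset (Fin n × Fin M)), 0 ≤ A i.1 j / M :=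
      fun i _ => div_nonneg (hA0 _ _) hMpos.le
    have hl1 : ∑ i ∈ (univ : Finset (Fin n × Fin M)), A i.1 j / M ≤ 1 := by
      rw [Fintype.sum_prod_type]
      have : ∀ k, ∑ _t : Fin M, A k j / M = A k j := by
        intro k
        rw [Finset.sum_const, Finset.card_univ, Fintype.card_fin, nsmul_eq_mul]
        field_simp
      simp only [this]
      exact (hAcol j).le
    have := h1 (Fin n × Fin M) univ (fun i => A i.1 j / M) (fun i => c j θ i.1 i.2) hl0 hl1
      (fun i _ => hc0 j θ i.1 i.2)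
    rw [Fintype.sum_prod_type, Fintype.sum_prod_type] at this
    exact this
  -- the first sum
  have hS1 : ∑ k, ∑ t : Fin M, ∑ j, A k j / M *
      (∑ θ ∈ range (w k j), (1 - Real.exp (-(u0 + v0 * (1 - β k t θ))))) ≤
      ∑ j, ∑ θ ∈ range B, (1 - Real.exp (-∑ k, ∑ t, A k j / M * c j θ k t)) := by
    have e1 : ∑ k, ∑ t : Fin M, ∑ j, A k j / M *
        (∑ θ ∈ range (w k j), (1 - Real.exp (-(u0 + v0 * (1 - β k t θ))))) =
        ∑ j, ∑ θ ∈ range B, ∑ k, ∑ t, A k j / M * (1 - Real.exp (-c j θ k t)) := by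
      have e2 : ∀ (j k : Fin n) (t : Fin M), ∑ θ ∈ range B, A k j / M * (1 - Real.exp (-c j θ k t)) =
          A k j / M * (∑ θ ∈ range (w k j), (1 - Real.exp (-(u0 + v0 * (1 - β k t θ))))) := by
        intro j k t
        rw [← Finset.mul_sum]
        congr 1
        rw [← Finset.sum_range_reflect
          (fun θ => 1 - Real.exp (-(u0 + v0 * (1 - β k t θ)))) (w k j), ← sum_ite_lt (hw k j)]
        apply Finset.sum_congr rfl
        intro θ _
        rw [hc]
        dsimp only
        split_ifs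
        · rfl
        · simp
      have e3 : ∀ j, ∑ θ ∈ range B, ∑ k, ∑ t, A k j / M * (1 - Real.exp (-c j θ k t)) =
          ∑ k, ∑ t : Fin M, A k j / M *
            (∑ θ ∈ range (w k j), (1 - Real.exp (-(u0 + v0 * (1 - β k t θ))))) := by
        intro j
        rw [Finset.sum_comm]
        apply Finset.sum_congr rfl
        intro k _
        rw [Finset.sum_comm]
        apply Finset.sum_congr rfl
        intro t _
        exact e2 j k t
      simp only [e3]
      rw [Finset.sum_comm]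
      rw [Finset.sum_comm (f := fun j k => ∑ t : Fin M, A k j / M *
            (∑ θ ∈ range (w k j), (1 - Real.exp (-(u0 + v0 * (1 - β k t θ))))))]
      rw [Finset.sum_comm]
      apply Finset.sum_congr rfl
      intro k _
      rw [Finset.sum_comm]
    rw [e1]
    apply Finset.sum_le_sum
    intro j _
    apply Finset.sum_le_sum
    intro θ _
    exact hJ j θ
  -- the squares
  have hv0 : (0 : ℝ) ≤ v0 / 2 := by unfold v0; norm_num
  have hS2 : ∀ (k : Fin n) (t : Fin M), ∑ j, A k j * (∑ θ ∈ range (w k j), (β k t θ) ^ 2) ≤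
      ∑ θ ∈ range B, (β k t θ) ^ 2 := by
    intro k t
    have e1 : ∑ j, A k j * (∑ θ ∈ range (w k j), (β k t θ) ^ 2) =
        ∑ θ ∈ range B, (∑ j, A k j * (if θ < w k j then 1 else 0)) * (β k t θ) ^ 2 := by
      simp only [Finset.sum_mul]
      rw [Finset.sum_comm]
      apply Finset.sum_congr rfl
      intro j _
      rw [← sum_ite_lt (hw k j), Finset.mul_sum]
      apply Finset.sum_congr rfl
      intro θ _
      split_ifs <;> ring
    rw [e1]
    apply Finset.sum_le_sum
    intro θ _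
    have h4 : ∑ j, A k j * (if θ < w k j then (1 : ℝ) else 0) ≤ 1 := by
      refine le_trans (Finset.sum_le_sum (g := fun j => A k j) (fun j _ => ?_)) (hArow k).le
      have := hA0 k j
      split_ifs
      · linarith
      · linarith
    have := mul_le_mul_of_nonneg_right h4 (sq_nonneg (β k t θ))
    linarith
  -- the main term
  have hmain : 52507 / 100000 * ∑ k, ∑ j, A k j * (w k j : ℝ) ≤
      ∑ k, ∑ t : Fin M, ∑ j, A k j / M *
        (∑ θ ∈ range (w k j), (1 - Real.exp (-(u0 + v0 * (1 - β k t θ))))) +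
      ∑ k, ∑ t : Fin M, 1 / (M : ℝ) * (v0 / 2 * ∑ θ ∈ range B, (β k t θ) ^ 2) := by
    have g1 : ∑ k, ∑ t : Fin M, ∑ j, A k j / M *
        (∑ θ ∈ range (w k j), (1 - Real.exp (-(u0 + v0 * (1 - β k t θ))) +
          v0 / 2 * (β k t θ) ^ 2)) ≤
        ∑ k, ∑ t : Fin M, ∑ j, A k j / M *
        (∑ θ ∈ range (w k j), (1 - Real.exp (-(u0 + v0 * (1 - β k t θ))))) +
      ∑ k, ∑ t : Fin M, 1 / (M : ℝ) * (v0 / 2 * ∑ θ ∈ range B, (β k t θ) ^ 2) := by
      rw [← Finset.sum_add_distrib]
      apply Finset.sum_le_sum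
      intro k _
      rw [← Finset.sum_add_distrib]
      apply Finset.sum_le_sum
      intro t _
      have g2 : ∑ j, A k j / M * (∑ θ ∈ range (w k j), (1 - Real.exp (-(u0 + v0 * (1 - β k t θ))) +
          v0 / 2 * (β k t θ) ^ 2)) =
          ∑ j, A k j / M * (∑ θ ∈ range (w k j), (1 - Real.exp (-(u0 + v0 * (1 - β k t θ))))) +
          1 / (M : ℝ) * (v0 / 2 * ∑ j, A k j * (∑ θ ∈ range (w k j), (β k t θ) ^ 2)) := by
        rw [Finset.mul_sum, Finset.mul_sum, ← Finset.sum_add_distrib]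
        apply Finset.sum_congr rfl
        intro j _
        rw [Finset.sum_add_distrib, ← Finset.mul_sum]
        ring
      rw [g2]
      have g3 := mul_le_mul_of_nonneg_left (mul_le_mul_of_nonneg_left (hS2 k t) hv0)
        (by positivity : (0 : ℝ) ≤ 1 / (M : ℝ))
      linarith
    refine le_trans ?_ g1
    have g4 : 52507 / 100000 * ∑ k, ∑ j, A k j * (w k j : ℝ) =
        ∑ k, ∑ t : Fin M, ∑ j, A k j / M * (52507 / 100000 * (w k j : ℝ)) := by
      rw [Finset.mul_sum]
      apply Finset.sum_congr rfl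
      intro k _
      rw [Finset.sum_const, Finset.card_univ, Fintype.card_fin, nsmul_eq_mul, Finset.mul_sum,
        Finset.mul_sum]
      apply Finset.sum_congr rfl
      intro j _
      field_simp
    rw [g4]
    apply Finset.sum_le_sum
    intro k _
    apply Finset.sum_le_sum
    intro t _
    apply Finset.sum_le_sum
    intro j _
    apply mul_le_mul_of_nonneg_left _ (div_nonneg (hA0 k j) hMpos.le)
    have g5 : ∑ θ ∈ range (w k j), (52507 / 100000 : ℝ) ≤
        ∑ θ ∈ range (w k j), (1 - Real.exp (-(u0 + v0 * (1 - β k t θ))) +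
          v0 / 2 * (β k t θ) ^ 2) :=
      Finset.sum_le_sum (fun θ _ => h3 (β k t θ) (hβ k t θ).1 (hβ k t θ).2)
    rw [Finset.sum_const, Finset.card_range, nsmul_eq_mul] at g5
    linarith
  -- the terms with Lf
  have hLf : 0 ≤ ∑ k, ∑ t : Fin M, 1 / (M : ℝ) *
      (Lf (((M : ℝ) - (t : ℕ)) / M) * ∑ j, A k j ^ 2 * (w k j : ℝ)) := by
    apply Finset.sum_nonneg
    intro k _
    have e1 : ∑ t : Fin M, 1 / (M : ℝ) *
        (Lf (((M : ℝ) - (t : ℕ)) / M) * ∑ j, A k j ^ 2 * (w k j : ℝ)) =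
        (1 / (M : ℝ) * ∑ j, A k j ^ 2 * (w k j : ℝ)) *
          ∑ t : Fin M, Lf (((M : ℝ) - (t : ℕ)) / M) := by
      rw [Finset.mul_sum]
      apply Finset.sum_congr rfl
      intro t _
      ring
    rw [e1, Fin.sum_univ_eq_sum_range (fun t => Lf (((M : ℝ) - (t : ℕ)) / M)) M]
    apply mul_nonneg _ (h2 M hM)
    apply mul_nonneg (by positivity)
    apply Finset.sum_nonneg
    intro j _
    positivity
  -- the error term
  have herr : ∑ k, ∑ t : Fin M, 1 / (M : ℝ) * (2 / M * ∑ j, A k j * (w k j : ℝ)) =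
      2 / M * ∑ k, ∑ j, A k j * (w k j : ℝ) := by
    rw [Finset.mul_sum]
    apply Finset.sum_congr rfl
    intro k _
    rw [Finset.sum_const, Finset.card_univ, Fintype.card_fin, nsmul_eq_mul]
    field_simp
  have hT0 : 0 ≤ ∑ k, ∑ j, A k j * (w k j : ℝ) := by
    apply Finset.sum_nonneg
    intro k _
    apply Finset.sum_nonneg
    intro j _
    exact mul_nonneg (hA0 k j) (Nat.cast_nonneg _)
  have hM5 : (2 : ℝ) / M ≤ 2 / 100000 := by
    apply div_le_div_of_nonneg_left (by norm_num) (by norm_num)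
    exact_mod_cast hM
  have herr2 := mul_le_mul_of_nonneg_right hM5 hT0
  -- put together
  have hsplit : ∑ k, ∑ t : Fin M, 1 / (M : ℝ) * (v0 / 2 * ∑ θ ∈ range B, (β k t θ) ^ 2
          + Lf (((M : ℝ) - (t : ℕ)) / M) * ∑ j, A k j ^ 2 * (w k j : ℝ)
          - 2 / M * ∑ j, A k j * (w k j : ℝ)) =
      ∑ k, ∑ t : Fin M, 1 / (M : ℝ) * (v0 / 2 * ∑ θ ∈ range B, (β k t θ) ^ 2) +
      ∑ k, ∑ t : Fin M, 1 / (M : ℝ) *
        (Lf (((M : ℝ) - (t : ℕ)) / M) * ∑ j, A k j ^ 2 * (w k j : ℝ)) -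
      ∑ k, ∑ t : Fin M, 1 / (M : ℝ) * (2 / M * ∑ j, A k j * (w k j : ℝ)) := by
    rw [← Finset.sum_add_distrib, ← Finset.sum_sub_distrib]
    apply Finset.sum_congr rfl
    intro k _
    rw [← Finset.sum_add_distrib, ← Finset.sum_sub_distrib]
    apply Finset.sum_congr rfl
    intro t _
    ring
  rw [hsplit, herr]
  rw [hc] at hS1
  dsimp only at hS1
  linarith

end Pool.Agent.CGM
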