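import Pool.Agent.CGM.Stmts

set_option autoImplicit false
set_option linter.unusedSectionVars false

open Finset
open scoped Classical

namespace Pool.Agent.CGM

noncomputable section

namespace FIN_

/-- blocks `(k, t)` -/
abbrev Blk (n M : ℕ) := Fin n × Fin M

/-- the items: rows with their support, real items, mean field items -/
abbrev Lam (n M B : ℕ) :=
  (Fin n × Finset (Fin n)) ⊕
    (Blk n M × ((Fin n ⊕ (Fin n × Fin n)) ⊕ (Fin n × Option (Fin n × Fin (B + 1)))))

/-- the weights of the items -/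
def yw {n : ℕ} (M B : ℕ) (w : Fin n → Fin n → ℕ) : Lam n M B → Fin n → ℕ
  | Sum.inl (k, N), j => if j ∈ N then w k j else 0
  | Sum.inr (b, Sum.inl (Sum.inl j0)), j => if j = j0 then w b.1 j else 0
  | Sum.inr (b, Sum.inl (Sum.inr (i0, j0))), j => if j = i0 ∨ j = j0 then w b.1 j else 0
  | Sum.inr (b, Sum.inr (j0, none)), j => if j = j0 then w b.1 j else 0
  | Sum.inr (b, Sum.inr (j0, some (_, c))), j => if j = j0 then w b.1 j - (c : ℕ) else 0

/-- the probabilities of the real items -/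
def piR {n M : ℕ} (A : Fin n → Fin n → ℝ) (b : Blk n M) : Fin n ⊕ (Fin n × Fin n) → ℝ
  | Sum.inl j => (u0 * A b.1 j + (v0 / 2 + k0) * A b.1 j ^ 2) / M
  | Sum.inr (i, j) => if i = j then 0 else v0 / 2 * (A b.1 i * A b.1 j) / M

/-- the real items of a block -/
def realI {n M : ℕ} (B : ℕ) (b : Blk n M) : Finset (Lam n M B) :=
  univ.image (fun κ : Fin n ⊕ (Fin n × Fin n) => (Sum.inr (b, Sum.inl κ) : Lam n M B))

/-- the mean field items of a block -/
def mfI {n M : ℕ} (B : ℕ) (b : Blk n M) : Finset (Lam n M B) :=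
  univ.image (fun κ : Fin n × Option (Fin n × Fin (B + 1)) =>
    (Sum.inr (b, Sum.inr κ) : Lam n M B))

variable {n M B : ℕ}

lemma mem_realI (b : Blk n M) (e : Lam n M B) :
    e ∈ realI B b ↔ ∃ κ, e = Sum.inr (b, Sum.inl κ) := by
  unfold realI
  rw [Finset.mem_image]
  constructor
  · rintro ⟨κ, _, h⟩
    exact ⟨κ, h.symm⟩
  · rintro ⟨κ, h⟩
    exact ⟨κ, Finset.mem_univ _, h.symm⟩

lemma mem_mfI (b : Blk n M) (e : Lam n M B) :
    e ∈ mfI B b ↔ ∃ κ, e = Sum.inr (b, Sum.inr κ) := by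
  unfold mfI
  rw [Finset.mem_image]
  constructor
  · rintro ⟨κ, _, h⟩
    exact ⟨κ, h.symm⟩
  · rintro ⟨κ, h⟩
    exact ⟨κ, Finset.mem_univ _, h.symm⟩

lemma sum_realI (b : Blk n M) (g : Lam n M B → ℝ) :
    ∑ e ∈ realI B b, g e = ∑ j, g (Sum.inr (b, Sum.inl (Sum.inl j)))
      + ∑ i, ∑ j, g (Sum.inr (b, Sum.inl (Sum.inr (i, j)))) := by
  unfold realI
  rw [Finset.sum_image (by
    intro x _ x' _ h
    simpa using h)]
  rw [Fintype.sum_sum_type, Fintype.sum_prod_type]

lemma sum_mfI (b : Blk n M) (g : Lam n M B → ℝ) :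
    ∑ e ∈ mfI B b, g e = ∑ j, (g (Sum.inr (b, Sum.inr (j, none)))
      + ∑ i, ∑ c : Fin (B + 1), g (Sum.inr (b, Sum.inr (j, some (i, c))))) := by
  unfold mfI
  rw [Finset.sum_image (by
    intro x _ x' _ h
    simpa using h)]
  rw [Fintype.sum_prod_type]
  refine Finset.sum_congr rfl (fun j _ => ?_)
  rw [Fintype.sum_option, Fintype.sum_prod_type]

/-! ### gains -/

section gains
variable (w : Fin n → Fin n → ℕ) (S : Finset (Lam n M B))

lemma gain_row (k : Fin n) (N : Finset (Fin n)) :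
    gain (yw M B w) S (Sum.inl (k, N)) = N.sup (fun j => w k j - pr (yw M B w) S j) := by
  unfold gain
  apply le_antisymm
  · apply Finset.sup_le
    intro j _
    show (if j ∈ N then w k j else 0) - pr (yw M B w) S j ≤ _
    by_cases hj : j ∈ N
    · rw [if_pos hj]
      exact Finset.le_sup (f := fun j => w k j - pr (yw M B w) S j) hj
    · rw [if_neg hj]
      simp
  · apply Finset.sup_le
    intro j hj
    refine le_trans ?_ (Finset.le_sup (f := fun j => yw M B w (Sum.inl (k, N)) j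
      - pr (yw M B w) S j) (Finset.mem_univ j))
    show w k j - pr (yw M B w) S j ≤ (if j ∈ N then w k j else 0) - pr (yw M B w) S j
    rw [if_pos hj]

lemma gain_sng (b : Blk n M) (j0 : Fin n) :
    gain (yw M B w) S (Sum.inr (b, Sum.inl (Sum.inl j0))) = w b.1 j0 - pr (yw M B w) S j0 := by
  unfold gain
  apply le_antisymm
  · apply Finset.sup_le
    intro j _
    show (if j = j0 then w b.1 j else 0) - pr (yw M B w) S j ≤ _
    by_cases hj : j = j0
    · rw [if_pos hj, hj]
    · rw [if_neg hj]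
      simp
  · refine le_trans ?_ (Finset.le_sup (f := fun j => yw M B w (Sum.inr (b, Sum.inl (Sum.inl j0))) j
      - pr (yw M B w) S j) (Finset.mem_univ j0))
    show w b.1 j0 - pr (yw M B w) S j0 ≤ (if j0 = j0 then w b.1 j0 else 0) - pr (yw M B w) S j0
    rw [if_pos rfl]

lemma gain_pair (b : Blk n M) (i0 j0 : Fin n) :
    gain (yw M B w) S (Sum.inr (b, Sum.inl (Sum.inr (i0, j0)))) =
      max (w b.1 i0 - pr (yw M B w) S i0) (w b.1 j0 - pr (yw M B w) S j0) := by
  unfold gain
  apply le_antisymm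
  · apply Finset.sup_le
    intro j _
    show (if j = i0 ∨ j = j0 then w b.1 j else 0) - pr (yw M B w) S j ≤ _
    by_cases hj : j = i0 ∨ j = j0
    · rw [if_pos hj]
      rcases hj with h | h
      · rw [h]
        exact le_max_left _ _
      · rw [h]
        exact le_max_right _ _
    · rw [if_neg hj]
      simp
  · apply max_le
    · refine le_trans ?_ (Finset.le_sup (f := fun j =>
        yw M B w (Sum.inr (b, Sum.inl (Sum.inr (i0, j0)))) j
        - pr (yw M B w) S j) (Finset.mem_univ i0))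
      show w b.1 i0 - pr (yw M B w) S i0 ≤
        (if i0 = i0 ∨ i0 = j0 then w b.1 i0 else 0) - pr (yw M B w) S i0
      rw [if_pos (Or.inl rfl)]
    · refine le_trans ?_ (Finset.le_sup (f := fun j =>
        yw M B w (Sum.inr (b, Sum.inl (Sum.inr (i0, j0)))) j
        - pr (yw M B w) S j) (Finset.mem_univ j0))
      show w b.1 j0 - pr (yw M B w) S j0 ≤
        (if j0 = i0 ∨ j0 = j0 then w b.1 j0 else 0) - pr (yw M B w) S j0
      rw [if_pos (Or.inr rfl)]

lemma gain_mfn (b : Blk n M) (j0 : Fin n) :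
    gain (yw M B w) S (Sum.inr (b, Sum.inr (j0, none))) = w b.1 j0 - pr (yw M B w) S j0 := by
  unfold gain
  apply le_antisymm
  · apply Finset.sup_le
    intro j _
    show (if j = j0 then w b.1 j else 0) - pr (yw M B w) S j ≤ _
    by_cases hj : j = j0
    · rw [if_pos hj, hj]
    · rw [if_neg hj]
      simp
  · refine le_trans ?_ (Finset.le_sup (f := fun j => yw M B w (Sum.inr (b, Sum.inr (j0, none))) j
      - pr (yw M B w) S j) (Finset.mem_univ j0))
    show w b.1 j0 - pr (yw M B w) S j0 ≤ (if j0 = j0 then w b.1 j0 else 0) - pr (yw M B w) S j0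
    rw [if_pos rfl]

lemma gain_mfs (b : Blk n M) (j0 i : Fin n) (c : Fin (B + 1)) :
    gain (yw M B w) S (Sum.inr (b, Sum.inr (j0, some (i, c)))) =
      (w b.1 j0 - pr (yw M B w) S j0) - (c : ℕ) := by
  rw [Nat.sub_right_comm]
  unfold gain
  apply le_antisymm
  · apply Finset.sup_le
    intro j _
    show (if j = j0 then w b.1 j - (c : ℕ) else 0) - pr (yw M B w) S j ≤ _
    by_cases hj : j = j0
    · rw [if_pos hj, hj]
    · rw [if_neg hj]
      simp
  · refine le_trans ?_ (Finset.le_sup (f := fun j =>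
      yw M B w (Sum.inr (b, Sum.inr (j0, some (i, c)))) j
      - pr (yw M B w) S j) (Finset.mem_univ j0))
    show w b.1 j0 - (c : ℕ) - pr (yw M B w) S j0 ≤
      (if j0 = j0 then w b.1 j0 - (c : ℕ) else 0) - pr (yw M B w) S j0
    rw [if_pos rfl]

end gains

/-! ### elementary inequalities for doubly stochastic matrices -/

lemma DS.le_one {A : Fin n → Fin n → ℝ} (hA : DS A) (i j : Fin n) : A i j ≤ 1 := by
  rw [← hA.2.1 i]
  exact Finset.single_le_sum (f := fun j => A i j) (fun j _ => hA.1 i j) (Finset.mem_univ j)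

lemma sum_sq_add_off (a : Fin n → ℝ) (ha : ∑ j, a j = 1) :
    ∑ j, a j ^ 2 + ∑ i, ∑ j, (if i = j then 0 else a i * a j) = 1 := by
  have h1 : ∑ i, ∑ j, a i * a j = 1 := by
    rw [← Finset.sum_mul_sum, ha, one_mul]
  rw [← h1, ← Finset.sum_add_distrib]
  refine Finset.sum_congr rfl (fun i _ => ?_)
  have h2 : ∀ j, a i * a j = (if i = j then a i ^ 2 else 0) + (if i = j then 0 else a i * a j) := by
    intro j
    by_cases h : i = j
    · subst h
      simp
      ring
    · simp [h]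
  rw [Finset.sum_congr rfl (fun j _ => h2 j), Finset.sum_add_distrib, Finset.sum_ite_eq]
  simp

/-- total probability of the real items of a block -/
lemma sum_piR_le {A : Fin n → Fin n → ℝ} (hA : DS A) (b : Blk n M) :
    ∑ j, piR A b (Sum.inl j) + ∑ i, ∑ j, piR A b (Sum.inr (i, j)) ≤ 1 / (M : ℝ) := by
  have h1 : ∑ j, piR A b (Sum.inl j) + ∑ i, ∑ j, piR A b (Sum.inr (i, j))
      = (u0 * ∑ j, A b.1 j + k0 * ∑ j, A b.1 j ^ 2 + v0 / 2 * (∑ j, A b.1 j ^ 2
        + ∑ i, ∑ j, (if i = j then 0 else A b.1 i * A b.1 j))) / M := by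
    have e1 : ∀ j, piR A b (Sum.inl j) = (u0 * A b.1 j + (v0 / 2 + k0) * A b.1 j ^ 2) / M :=
      fun j => rfl
    have e2 : ∀ i j, piR A b (Sum.inr (i, j))
        = v0 / 2 * (if i = j then 0 else A b.1 i * A b.1 j) / M := by
      intro i j
      show (if i = j then 0 else v0 / 2 * (A b.1 i * A b.1 j) / (M : ℝ)) = _
      by_cases h : i = j <;> simp [h]
    simp_rw [e1, e2, ← Finset.sum_div, ← Finset.mul_sum, Finset.sum_add_distrib, ← Finset.mul_sum]
    ring
  rw [h1, sum_sq_add_off _ (hA.2.1 b.1), hA.2.1 b.1]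
  have h2 : ∑ j, A b.1 j ^ 2 ≤ 1 := by
    rw [← hA.2.1 b.1]
    refine Finset.sum_le_sum (fun j _ => ?_)
    have h3 := hA.1 b.1 j
    have h4 := DS.le_one hA b.1 j
    nlinarith
  apply div_le_div_of_nonneg_right _ (Nat.cast_nonneg M)
  unfold u0 k0 v0
  linarith

lemma piR_bd {A : Fin n → Fin n → ℝ} (hA : DS A) (b : Blk n M)
    (κ : Fin n ⊕ (Fin n × Fin n)) : 0 ≤ piR A b κ ∧ piR A b κ ≤ 1 / (M : ℝ) := by
  have hM : (0 : ℝ) ≤ (M : ℝ) := Nat.cast_nonneg M
  rcases κ with j | ⟨i, j⟩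
  · show 0 ≤ (u0 * A b.1 j + (v0 / 2 + k0) * A b.1 j ^ 2) / M ∧
      (u0 * A b.1 j + (v0 / 2 + k0) * A b.1 j ^ 2) / M ≤ 1 / (M : ℝ)
    have h3 := hA.1 b.1 j
    have h4 := DS.le_one hA b.1 j
    constructor
    · apply div_nonneg _ hM
      unfold u0 k0 v0
      positivity
    · apply div_le_div_of_nonneg_right _ hM
      unfold u0 k0 v0
      nlinarith
  · show 0 ≤ (if i = j then 0 else v0 / 2 * (A b.1 i * A b.1 j) / (M : ℝ)) ∧
      (if i = j then 0 else v0 / 2 * (A b.1 i * A b.1 j) / (M : ℝ)) ≤ 1 / (M : ℝ)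
    have h1 := hA.1 b.1 i
    have h2 := DS.le_one hA b.1 i
    have h3 := hA.1 b.1 j
    have h4 := DS.le_one hA b.1 j
    by_cases h : i = j
    · rw [if_pos h]
      exact ⟨le_refl _, by positivity⟩
    · rw [if_neg h]
      have h5 : A b.1 i * A b.1 j ≤ 1 := by nlinarith
      have h6 : 0 ≤ A b.1 i * A b.1 j := mul_nonneg h1 h3
      constructor
      · apply div_nonneg _ hM
        unfold v0
        positivity
      · apply div_le_div_of_nonneg_right _ hM
        unfold v0
        nlinarith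

end FIN_

end

end Pool.Agent.CGM
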