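import Pool.Agent.CGM.FINA

set_option autoImplicit false
set_option linter.unusedSectionVars false

open Finset
open scoped Classical

namespace Pool.Agent.CGM

noncomputable section

namespace FIN_

variable {n M B : ℕ}

/-! ### from rows to small items -/

/-- all real items of the row `k` -/
def rowI (M B : ℕ) (k : Fin n) : Finset (Lam n M B) :=
  (univ : Finset (Fin M)).biUnion (fun t => realI B (k, t))

lemma realI_disj {b b' : Blk n M} (h : b ≠ b') : Disjoint (realI B b) (realI B b') := by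
  rw [Finset.disjoint_left]
  intro e he he'
  rw [mem_realI] at he he'
  obtain ⟨κ, rfl⟩ := he
  obtain ⟨κ', h'⟩ := he'
  simp only [Sum.inr.injEq, Prod.mk.injEq] at h'
  exact h h'.1

/-- the total gain of the real items of a block -/
lemma real_gain (A : Fin n → Fin n → ℝ) (w : Fin n → Fin n → ℕ) (b : Blk n M)
    (g : Fin n → Fin n → ℝ) :
    ∑ j, piR A b (Sum.inl j) * g j j + ∑ i, ∑ j, piR A b (Sum.inr (i, j)) * g i j
      = (∑ j, (u0 * A b.1 j + (v0 / 2 + k0) * A b.1 j ^ 2) * g j j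
        + v0 / 2 * ∑ i, ∑ j ∈ univ.erase i, A b.1 i * A b.1 j * g i j) / M := by
  have e1 : ∀ j, piR A b (Sum.inl j) * g j j
      = (u0 * A b.1 j + (v0 / 2 + k0) * A b.1 j ^ 2) * g j j / M := by
    intro j
    show (u0 * A b.1 j + (v0 / 2 + k0) * A b.1 j ^ 2) / M * g j j = _
    ring
  have e2 : ∀ i, ∑ j, piR A b (Sum.inr (i, j)) * g i j
      = v0 / 2 * (∑ j ∈ univ.erase i, A b.1 i * A b.1 j * g i j) / M := by
    intro i
    rw [← Finset.sum_erase_add _ _ (Finset.mem_univ i)]
    have h0 : piR A b (Sum.inr (i, i)) = 0 := by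
      show (if i = i then 0 else v0 / 2 * (A b.1 i * A b.1 i) / (M : ℝ)) = 0
      rw [if_pos rfl]
    rw [h0, zero_mul, add_zero, Finset.mul_sum, Finset.sum_div]
    refine Finset.sum_congr rfl (fun j hj => ?_)
    have hij : i ≠ j := (Finset.ne_of_mem_erase hj).symm
    show (if i = j then 0 else v0 / 2 * (A b.1 i * A b.1 j) / (M : ℝ)) * g i j = _
    rw [if_neg hij]
    ring
  rw [Finset.sum_congr rfl (fun j _ => e1 j), Finset.sum_congr rfl (fun i _ => e2 i),
    ← Finset.sum_div, ← Finset.sum_div, ← Finset.mul_sum, ← add_div]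

lemma row_step (hOPI : Stmt_OPI) (hUPP : Stmt_UPP) (hCPS : Stmt_CPS) (hM : 0 < M)
    {A : Fin n → Fin n → ℝ} (hA : DS A) (w : Fin n → Fin n → ℕ) (π : Lam n M B → ℝ)
    (hπ : ∀ b κ, π (Sum.inr (b, Sum.inl κ)) = piR A b κ) (k : Fin n) (S0 : Finset (Lam n M B))
    (hd : Disjoint S0 (rowI M B k)) (hN : ∀ N, (Sum.inl (k, N) : Lam n M B) ∉ S0) :
    EB (rowI M B k) π (fun S => (opt (yw M B w) (S0 ∪ S) univ : ℝ)) ≤
      EB univ (A k) (fun N => (opt (yw M B w) (insert (Sum.inl (k, N)) S0) univ : ℝ)) := by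
  have hMr : (0 : ℝ) < (M : ℝ) := by exact_mod_cast hM
  have hpro : Pro (rowI M B k) π := by
    intro e he
    unfold rowI at he
    rw [Finset.mem_biUnion] at he
    obtain ⟨t, _, he⟩ := he
    rw [mem_realI] at he
    obtain ⟨κ, rfl⟩ := he
    rw [hπ]
    have h1 := piR_bd hA (k, t) κ
    refine ⟨h1.1, h1.2.trans ?_⟩
    rw [div_le_one hMr]
    exact_mod_cast hM
  refine (hUPP (Lam n M B) (Fin n) (yw M B w) S0 (rowI M B k) π hd hpro).trans ?_
  have h1 : ∀ N : Finset (Fin n), (opt (yw M B w) (insert (Sum.inl (k, N)) S0) univ : ℝ)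
      = (opt (yw M B w) S0 univ : ℝ)
        + ((N.sup (fun j => w k j - pr (yw M B w) S0 j) : ℕ) : ℝ) := by
    intro N
    rw [hOPI (Lam n M B) (Fin n) (yw M B w) S0 (Sum.inl (k, N)) (hN N), gain_row]
    push_cast
    rfl
  have h2 : EB univ (A k) (fun N => (opt (yw M B w) (insert (Sum.inl (k, N)) S0) univ : ℝ))
      = (opt (yw M B w) S0 univ : ℝ)
        + EB univ (A k) (fun N => ((N.sup (fun j => w k j - pr (yw M B w) S0 j) : ℕ) : ℝ)) := by
    rw [← EB_const (univ : Finset (Fin n)) (A k) (opt (yw M B w) S0 univ : ℝ), ← EB_add]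
    refine EB_congr (fun _ _ => rfl) (fun N _ => ?_)
    exact h1 N
  rw [h2]
  apply add_le_add (le_refl _)
  refine le_trans ?_ (hCPS (Fin n) (A k) (fun j => w k j - pr (yw M B w) S0 j) (hA.1 k) (hA.2.1 k))
  -- the sum over the items
  set x : Fin n → ℕ := fun j => w k j - pr (yw M B w) S0 j with hx
  have h3 : ∑ e ∈ rowI M B k, π e * (gain (yw M B w) S0 e : ℝ)
      = ∑ t : Fin M, ∑ e ∈ realI B (k, t), π e * (gain (yw M B w) S0 e : ℝ) := by
    unfold rowI
    rw [Finset.sum_biUnion]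
    intro t _ t' _ htt'
    apply realI_disj
    intro h
    simp only [Prod.mk.injEq, true_and] at h
    exact htt' h
  have h4 : ∀ t : Fin M, ∑ e ∈ realI B (k, t), π e * (gain (yw M B w) S0 e : ℝ)
      = (∑ j, (u0 * A k j + (v0 / 2 + k0) * A k j ^ 2) * ((max (x j) (x j) : ℕ) : ℝ)
        + v0 / 2 * ∑ i, ∑ j ∈ univ.erase i, A k i * A k j * ((max (x i) (x j) : ℕ) : ℝ)) / M := by
    intro t
    rw [sum_realI]
    have := real_gain A w (k, t) (fun i j => ((max (x i) (x j) : ℕ) : ℝ))
    rw [← this]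
    congr 1
    · refine Finset.sum_congr rfl (fun j _ => ?_)
      rw [hπ, gain_sng, max_self]
    · refine Finset.sum_congr rfl (fun i _ => Finset.sum_congr rfl (fun j _ => ?_))
      rw [hπ, gain_pair]
  rw [h3, Finset.sum_congr rfl (fun t _ => h4 t), Finset.sum_const, Finset.card_univ,
    Fintype.card_fin, nsmul_eq_mul, mul_div_cancel₀ _ (ne_of_gt hMr)]
  have h5 : ∀ i, ∑ j, A k i * A k j * ((max (x i) (x j) : ℕ) : ℝ)
      = ∑ j ∈ univ.erase i, A k i * A k j * ((max (x i) (x j) : ℕ) : ℝ) + A k i ^ 2 * (x i : ℝ) := by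
    intro i
    rw [← Finset.sum_erase_add _ _ (Finset.mem_univ i), max_self]
    ring
  rw [Finset.sum_congr rfl (fun i _ => h5 i), Finset.sum_add_distrib]
  simp only [max_self]
  apply le_of_eq
  have h6 : ∑ j, (u0 * A k j + (v0 / 2 + k0) * A k j ^ 2) * (x j : ℝ)
      = ∑ j, (u0 * A k j + k0 * A k j ^ 2) * (x j : ℝ) + v0 / 2 * ∑ j, A k j ^ 2 * (x j : ℝ) := by
    rw [Finset.mul_sum, ← Finset.sum_add_distrib]
    exact Finset.sum_congr rfl (fun j _ => by ring)
  rw [h6]
  ring

/-- the original problem is bounded below by the problem with the real items -/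
lemma rows_to_items (hOPI : Stmt_OPI) (hUPP : Stmt_UPP) (hCPS : Stmt_CPS) (hHYB : Stmt_HYB)
    (hOPK : Stmt_OPK) (hM : 0 < M)
    {A : Fin n → Fin n → ℝ} (hA : DS A) (w : Fin n → Fin n → ℕ) (π : Lam n M B → ℝ)
    (hπ : ∀ b κ, π (Sum.inr (b, Sum.inl κ)) = piR A b κ) :
    EB ((univ : Finset (Blk n M)).biUnion (realI B)) π
      (fun S => (opt (yw M B w) S univ : ℝ)) ≤ Phi A (fun i j => (w i j : ℝ)) := by
  have hset : (univ : Finset (Blk n M)).biUnion (realI B) = univ.biUnion (rowI M B) := by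
    ext e
    simp only [rowI, Finset.mem_biUnion, Finset.mem_univ, true_and]
    constructor
    · rintro ⟨b, hb⟩
      exact ⟨b.1, b.2, hb⟩
    · rintro ⟨k, t, h⟩
      exact ⟨(k, t), h⟩
  rw [hset]
  have hMr : (0 : ℝ) < (M : ℝ) := by exact_mod_cast hM
  have key := hHYB n A (Lam n M B) (fun k N => Sum.inl (k, N)) (rowI M B) π
    (fun S => (opt (yw M B w) S univ : ℝ)) (fun i j => ⟨hA.1 i j, DS.le_one hA i j⟩)
    (by
      intro k N k' N' h
      simpa using h)
    (by
      intro k k' N h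
      unfold rowI at h
      rw [Finset.mem_biUnion] at h
      obtain ⟨t, _, h⟩ := h
      rw [mem_realI] at h
      obtain ⟨κ, h⟩ := h
      simp at h)
    (by
      intro k k' hkk'
      rw [Finset.disjoint_left]
      intro e he he'
      unfold rowI at he he'
      rw [Finset.mem_biUnion] at he he'
      obtain ⟨t, _, he⟩ := he
      obtain ⟨t', _, he'⟩ := he'
      have : ((k, t) : Blk n M) ≠ (k', t') := by
        intro h
        simp only [Prod.mk.injEq] at h
        exact hkk' h.1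
      exact (Finset.disjoint_left.1 (realI_disj this)) he he')
    (by
      intro k e he
      unfold rowI at he
      rw [Finset.mem_biUnion] at he
      obtain ⟨t, _, he⟩ := he
      rw [mem_realI] at he
      obtain ⟨κ, rfl⟩ := he
      rw [hπ]
      have h1 := piR_bd hA (k, t) κ
      refine ⟨h1.1, h1.2.trans ?_⟩
      rw [div_le_one hMr]
      exact_mod_cast hM)
    (fun k S0 hd hN => row_step hOPI hUPP hCPS hM hA w π hπ k S0 hd hN)
  refine key.trans (le_of_eq ?_)
  unfold Phi EB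
  rw [Finset.powerset_univ]
  refine Finset.sum_congr rfl (fun R _ => ?_)
  have h1 := hOPK n w (Lam n M B) (yw M B w)
    (fun k => Sum.inl (k, univ.filter (fun j => (k, j) ∈ R))) R
    (by
      intro k k' h
      simp only [Sum.inl.injEq, Prod.mk.injEq] at h
      exact h.1)
    (by
      intro k j
      show (if j ∈ univ.filter (fun j => (k, j) ∈ R) then w k j else 0) = _
      simp only [Finset.mem_filter, Finset.mem_univ, true_and])
  rw [h1]
  rfl

end FIN_

end

end Pool.Agent.CGM
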