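import Pool.Agent.CGM.FINB

set_option autoImplicit false
set_option linter.unusedSectionVars false

open Finset
open scoped Classical

namespace Pool.Agent.CGM

noncomputable section

namespace FIN_

variable {n M B : ℕ}

/-- probabilities of the mean field items of the block `b0` -/
def pmfv {n M B : ℕ} (A : Fin n → Fin n → ℝ) (b0 : Blk n M) (p : Fin n → ℕ → ℝ) :
    Fin n × Option (Fin n × Fin (B + 1)) → ℝ
  | (j, none) => u0 * A b0.1 j / M
  | (j, some (i, c)) => v0 * (A b0.1 i * A b0.1 j) * p i c / M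

/-- the new probabilities -/
def piF {n M B : ℕ} (A : Fin n → Fin n → ℝ) (b0 : Blk n M) (p : Fin n → ℕ → ℝ)
    (π : Lam n M B → ℝ) : Lam n M B → ℝ
  | Sum.inl r => π (Sum.inl r)
  | Sum.inr (b, Sum.inl κ) => π (Sum.inr (b, Sum.inl κ))
  | Sum.inr (b, Sum.inr κ) => if b = b0 then pmfv A b0 p κ else π (Sum.inr (b, Sum.inr κ))

lemma piF_new (A : Fin n → Fin n → ℝ) (b0 : Blk n M) (p : Fin n → ℕ → ℝ)
    (π : Lam n M B → ℝ) (κ : Fin n × Option (Fin n × Fin (B + 1))) :
    piF A b0 p π (Sum.inr (b0, Sum.inr κ)) = pmfv A b0 p κ := by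
  show (if b0 = b0 then pmfv A b0 p κ else π (Sum.inr (b0, Sum.inr κ))) = _
  rw [if_pos rfl]

lemma piF_old (A : Fin n → Fin n → ℝ) (b0 : Blk n M) (p : Fin n → ℕ → ℝ)
    (π : Lam n M B → ℝ) (e : Lam n M B) (he : e ∉ mfI B b0) : piF A b0 p π e = π e := by
  rcases e with r | ⟨b, κ | κ⟩
  · rfl
  · rfl
  · show (if b = b0 then pmfv A b0 p κ else π (Sum.inr (b, Sum.inr κ))) = _
    rw [if_neg]
    rintro rfl
    exact he ((mem_mfI _ _).2 ⟨κ, rfl⟩)

lemma conn_symm {Λ J : Type} [Fintype Λ] [DecidableEq Λ] [Fintype J] [DecidableEq J]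
    (y : Λ → J → ℕ) (S : Finset Λ) {i j : J} (h : conn y S i j) : conn y S j i := by
  unfold conn at h ⊢
  induction h with
  | refl => exact Relation.ReflTransGen.refl
  | tail _ hbc ih =>
    obtain ⟨e, he, h1, h2⟩ := hbc
    exact Relation.ReflTransGen.head ⟨e, he, h2, h1⟩ ih

lemma Pc_symm {Λ J : Type} [Fintype Λ] [DecidableEq Λ] [Fintype J] [DecidableEq J]
    (y : Λ → J → ℕ) (T : Finset Λ) (π : Λ → ℝ) (i j : J) : Pc y T π i j = Pc y T π j i := by
  unfold Pc
  refine EB_congr (fun _ _ => rfl) (fun S _ => ?_)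
  by_cases h : conn y S i j
  · rw [if_pos h, if_pos (conn_symm y S h)]
  · rw [if_neg h, if_neg (fun h' => h (conn_symm y S h'))]

lemma Pc_self {Λ J : Type} [Fintype Λ] [DecidableEq Λ] [Fintype J] [DecidableEq J]
    (y : Λ → J → ℕ) (T : Finset Λ) (π : Λ → ℝ) (i : J) : Pc y T π i i = 1 := by
  unfold Pc
  refine (EB_congr (fun _ _ => rfl) (fun S _ => ?_)).trans (EB_const T π 1)
  rw [if_pos]
  exact Relation.ReflTransGen.refl

/-- elementary upper bound for the total gain -/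
lemma XR_le {A : Fin n → Fin n → ℝ} (hA : DS A) (k : Fin n) (wt : Fin n → ℝ) (hw : ∀ j, 0 ≤ wt j)
    (X : Fin n → ℝ) (Y : Fin n → Fin n → ℝ) (hX : ∀ j, X j ≤ wt j)
    (hY : ∀ i j, Y i j ≤ wt i + wt j) :
    ∑ j, (u0 * A k j + (v0 / 2 + k0) * A k j ^ 2) * X j
      + v0 / 2 * ∑ i, ∑ j ∈ univ.erase i, A k i * A k j * Y i j ≤ 2 * ∑ j, A k j * wt j := by
  have h1 : ∑ j, (u0 * A k j + (v0 / 2 + k0) * A k j ^ 2) * X j
      ≤ (u0 + v0 / 2 + k0) * ∑ j, A k j * wt j := by
    rw [Finset.mul_sum]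
    refine Finset.sum_le_sum (fun j _ => ?_)
    have h3 := hA.1 k j
    have h4 := DS.le_one hA k j
    have h5 := hw j
    have h6 : A k j ^ 2 ≤ A k j := by nlinarith
    have h7 : 0 ≤ u0 * A k j + (v0 / 2 + k0) * A k j ^ 2 := by
      unfold u0 v0 k0
      positivity
    calc (u0 * A k j + (v0 / 2 + k0) * A k j ^ 2) * X j
        ≤ (u0 * A k j + (v0 / 2 + k0) * A k j ^ 2) * wt j :=
          mul_le_mul_of_nonneg_left (hX j) h7
      _ ≤ (u0 * A k j + (v0 / 2 + k0) * A k j) * wt j := by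
          apply mul_le_mul_of_nonneg_right _ h5
          have : (0 : ℝ) ≤ v0 / 2 + k0 := by unfold v0 k0; norm_num
          nlinarith
      _ = (u0 + v0 / 2 + k0) * (A k j * wt j) := by ring
  have h2 : ∑ i, ∑ j ∈ univ.erase i, A k i * A k j * Y i j ≤ 2 * ∑ j, A k j * wt j := by
    calc ∑ i, ∑ j ∈ univ.erase i, A k i * A k j * Y i j
        ≤ ∑ i, ∑ j ∈ univ.erase i, A k i * A k j * (wt i + wt j) := by
          refine Finset.sum_le_sum (fun i _ => Finset.sum_le_sum (fun j _ => ?_))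
          exact mul_le_mul_of_nonneg_left (hY i j) (mul_nonneg (hA.1 k i) (hA.1 k j))
      _ ≤ ∑ i, ∑ j, A k i * A k j * (wt i + wt j) := by
          refine Finset.sum_le_sum (fun i _ => ?_)
          apply Finset.sum_le_sum_of_subset_of_nonneg (Finset.erase_subset _ _)
          intro j _ _
          exact mul_nonneg (mul_nonneg (hA.1 k i) (hA.1 k j)) (add_nonneg (hw i) (hw j))
      _ = 2 * ∑ j, A k j * wt j := by
          have e1 : ∀ i, ∑ j, A k i * A k j * (wt i + wt j)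
              = A k i * wt i * ∑ j, A k j + A k i * ∑ j, A k j * wt j := by
            intro i
            rw [Finset.mul_sum, Finset.mul_sum, ← Finset.sum_add_distrib]
            exact Finset.sum_congr rfl (fun j _ => by ring)
          rw [Finset.sum_congr rfl (fun i _ => e1 i), Finset.sum_add_distrib, hA.2.1 k,
            ← Finset.sum_mul, ← Finset.sum_mul, hA.2.1 k]
          ring
  have h8 : 0 ≤ ∑ j, A k j * wt j :=
    Finset.sum_nonneg (fun j _ => mul_nonneg (hA.1 k j) (hw j))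
  have h9 : (0 : ℝ) ≤ v0 / 2 := by unfold v0; norm_num
  have h10 := mul_le_mul_of_nonneg_left h2 h9
  have h11 : (u0 + v0 / 2 + k0) + v0 / 2 * 2 ≤ 2 := by unfold u0 v0 k0; norm_num
  nlinarith

/-- the replacement of one block -/
lemma block_step (hUPP : Stmt_UPP) (hLOW : Stmt_LOW) (hCOV : Stmt_COV) (hCON : Stmt_CON)
    (hLTW : Stmt_LTW) (hRMI : Stmt_RMI) (hALG : Stmt_ALG) (hNTA : Stmt_NTA) (hNTD : Stmt_NTD)
    (hM : 100000 ≤ M) {A : Fin n → Fin n → ℝ} (hA : DS A) (w : Fin n → Fin n → ℕ)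
    (hw : ∀ k j, w k j ≤ B) (π : Lam n M B → ℝ) (b0 : Blk n M)
    (hπ : ∀ κ, π (Sum.inr (b0, Sum.inl κ)) = piR A b0 κ) (T : Finset (Lam n M B))
    (hT : ∀ e ∈ T, 0 ≤ π e ∧ π e ≤ 1 / (M : ℝ))
    (hdR : Disjoint T (realI B b0)) (hdF : Disjoint T (mfI B b0))
    (s : ℝ) (hs0 : 0 ≤ s) (hs1 : s ≤ 1)
    (hQ : ∀ a, ∑ c ∈ univ.erase a, Qr (yw M B w) T π a c ≤ v0 * s)
    (htouch : ∀ j, ∑ e ∈ T.filter (fun e => yw M B w e j ≠ 0), π e ≤ u0 + v0) :
    EB (T ∪ mfI B b0)
        (piF A b0 (fun i c => EB T π (fun S =>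
          if w b0.1 i - pr (yw M B w) S i = c then (1 : ℝ) else 0)) π)
        (fun S => (opt (yw M B w) S univ : ℝ))
      + 1 / (M : ℝ) * (v0 / 2 * ∑ θ ∈ range B, (∑ j, A b0.1 j * EB T π (fun S =>
          if θ < w b0.1 j - pr (yw M B w) S j then (1 : ℝ) else 0)) ^ 2
        + Lf s * ∑ j, A b0.1 j ^ 2 * (w b0.1 j : ℝ) - 2 / M * ∑ j, A b0.1 j * (w b0.1 j : ℝ)) ≤
    EB (T ∪ realI B b0) π (fun S => (opt (yw M B w) S univ : ℝ)) := by
  have hMr : (0 : ℝ) < (M : ℝ) := by
    have : 0 < M := by omega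
    exact_mod_cast this
  have hM1 : 1 / (M : ℝ) ≤ 1 := by
    rw [div_le_one hMr]
    have : 1 ≤ M := by omega
    exact_mod_cast this
  have hpro : Pro T π := fun e he => ⟨(hT e he).1, (hT e he).2.trans hM1⟩
  set a : Fin n → ℝ := A b0.1 with ha
  set wt : Fin n → ℕ := w b0.1 with hwt
  set y := yw M B w with hy
  set x : Finset (Lam n M B) → Fin n → ℕ := fun S j => wt j - pr y S j with hx
  set p : Fin n → ℕ → ℝ := fun i c => EB T π (fun S => if wt i - pr y S i = c then (1 : ℝ) else 0)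
    with hp
  -- the real block
  have hproR : Pro (realI B b0) π := by
    intro e he
    rw [mem_realI] at he
    obtain ⟨κ, rfl⟩ := he
    rw [hπ]
    have h1 := piR_bd hA b0 κ
    exact ⟨h1.1, h1.2.trans hM1⟩
  have hσ : ∑ e ∈ realI B b0, π e ≤ 1 / (M : ℝ) := by
    rw [sum_realI]
    have := sum_piR_le hA b0
    calc _ = ∑ j, piR A b0 (Sum.inl j) + ∑ i, ∑ j, piR A b0 (Sum.inr (i, j)) := by
          congr 1
          · exact Finset.sum_congr rfl (fun j _ => hπ _)
          · exact Finset.sum_congr rfl (fun i _ => Finset.sum_congr rfl (fun j _ => hπ _))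
      _ ≤ _ := this
  have hσ0 : 0 ≤ ∑ e ∈ realI B b0, π e := Finset.sum_nonneg (fun e he => (hproR e he).1)
  set XR : ℝ := ∑ j, (u0 * a j + (v0 / 2 + k0) * a j ^ 2) * EB T π (fun S => (x S j : ℝ))
      + v0 / 2 * ∑ i, ∑ j ∈ univ.erase i,
          a i * a j * EB T π (fun S => ((max (x S i) (x S j) : ℕ) : ℝ)) with hXR
  set XF : ℝ := ∑ j, u0 * a j * EB T π (fun S => (x S j : ℝ))
      + ∑ i, ∑ j, v0 * (a i * a j) * ∑ c : Fin (B + 1),
          EB T π (fun S => if x S i = (c : ℕ) then (1 : ℝ) else 0)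
            * EB T π (fun S => ((x S j - (c : ℕ) : ℕ) : ℝ)) with hXF
  have hreal : EB T π (fun S => (opt y S univ : ℝ)) + (1 - ∑ e ∈ realI B b0, π e) * (XR / M) ≤
      EB (T ∪ realI B b0) π (fun S => (opt y S univ : ℝ)) := by
    rw [EB_union hdR]
    have h1 : EB T π (fun S => (opt y S univ : ℝ)
        + (1 - ∑ e ∈ realI B b0, π e) * ∑ e ∈ realI B b0, π e * (gain y S e : ℝ)) ≤
        EB T π (fun S => EB (realI B b0) π (fun S' => (opt y (S ∪ S') univ : ℝ))) := by
      apply EB_mono hpro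
      intro S hS
      exact hLOW _ _ y S (realI B b0) π (Finset.disjoint_of_subset_left hS hdR) hproR
        (hσ.trans hM1)
    refine le_trans (le_of_eq ?_) h1
    rw [EB_add, EB_mul_left]
    congr 2
    have h2 : ∀ S : Finset (Lam n M B), ∑ e ∈ realI B b0, π e * (gain y S e : ℝ)
        = (∑ j, (u0 * a j + (v0 / 2 + k0) * a j ^ 2) * (x S j : ℝ)
          + v0 / 2 * ∑ i, ∑ j ∈ univ.erase i, a i * a j * ((max (x S i) (x S j) : ℕ) : ℝ)) / M := by
      intro S
      rw [sum_realI]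
      have h3 := real_gain A w b0 (fun i j => ((max (x S i) (x S j) : ℕ) : ℝ))
      simp only [max_self] at h3
      rw [← h3]
      congr 1
      · refine Finset.sum_congr rfl (fun j _ => ?_)
        rw [hπ, gain_sng]
      · refine Finset.sum_congr rfl (fun i _ => Finset.sum_congr rfl (fun j _ => ?_))
        rw [hπ, gain_pair]
    have h4 : EB T π (fun S => ∑ e ∈ realI B b0, π e * (gain y S e : ℝ)) =
        EB T π (fun S => (∑ j, (u0 * a j + (v0 / 2 + k0) * a j ^ 2) * (x S j : ℝ)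
          + v0 / 2 * ∑ i, ∑ j ∈ univ.erase i, a i * a j * ((max (x S i) (x S j) : ℕ) : ℝ))
          * (1 / (M : ℝ))) := by
      refine EB_congr (fun _ _ => rfl) (fun S _ => ?_)
      rw [h2 S]
      ring
    rw [h4, EB_mul_right, EB_add, EB_sum, EB_mul_left, EB_sum, hXR]
    rw [div_eq_mul_one_div]
    congr 2
    · exact Finset.sum_congr rfl (fun j _ => (EB_mul_left _ _ _ _).symm)
    · congr 1
      refine Finset.sum_congr rfl (fun i _ => ?_)
      rw [EB_sum]
      exact Finset.sum_congr rfl (fun j _ => (EB_mul_left _ _ _ _).symm)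
  -- the mean field block
  have hp0 : ∀ i c, 0 ≤ p i c := fun i c => EB_nonneg hpro (fun S _ => by split_ifs <;> norm_num)
  have hp1 : ∀ i c, p i c ≤ 1 := by
    intro i c
    exact (EB_mono hpro (fun S _ => by split_ifs <;> norm_num)).trans (EB_const T π 1).le
  have hMn : (0 : ℝ) ≤ (M : ℝ) := hMr.le
  have hproF : Pro (mfI B b0) (piF A b0 p π) := by
    intro e he
    rw [mem_mfI] at he
    obtain ⟨⟨j, κ⟩, rfl⟩ := he
    rw [piF_new]
    have h1 := hA.1 b0.1 j
    have h2 := DS.le_one hA b0.1 j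
    rcases κ with _ | ⟨i, c⟩
    · show 0 ≤ u0 * A b0.1 j / M ∧ u0 * A b0.1 j / M ≤ 1
      constructor
      · apply div_nonneg _ hMn
        unfold u0
        positivity
      · refine le_trans (div_le_div_of_nonneg_right (?_ : u0 * A b0.1 j ≤ 1) hMn) hM1
        unfold u0
        linarith
    · show 0 ≤ v0 * (A b0.1 i * A b0.1 j) * p i c / M ∧ v0 * (A b0.1 i * A b0.1 j) * p i c / M ≤ 1
      have h3 := hA.1 b0.1 i
      have h4 := DS.le_one hA b0.1 i
      have h5 : A b0.1 i * A b0.1 j ≤ 1 := by nlinarith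
      have h6 : 0 ≤ A b0.1 i * A b0.1 j := mul_nonneg h3 h1
      have h7 : 0 ≤ v0 * (A b0.1 i * A b0.1 j) := by unfold v0; positivity
      have h8 : v0 * (A b0.1 i * A b0.1 j) ≤ 1 := by unfold v0; linarith
      constructor
      · exact div_nonneg (mul_nonneg h7 (hp0 i c)) hMn
      · refine le_trans (div_le_div_of_nonneg_right (?_ : _ ≤ (1 : ℝ)) hMn) hM1
        exact mul_le_one₀ h8 (hp0 i c) (hp1 i c)
  have hmf : EB (T ∪ mfI B b0) (piF A b0 p π) (fun S => (opt y S univ : ℝ)) ≤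
      EB T π (fun S => (opt y S univ : ℝ)) + XF / M := by
    have hcong : ∀ F : Finset (Lam n M B) → ℝ, EB T (piF A b0 p π) F = EB T π F := by
      intro F
      refine EB_congr (fun e he => ?_) (fun _ _ => rfl)
      exact piF_old A b0 p π e (Finset.disjoint_left.1 hdF he)
    rw [EB_union hdF, hcong]
    have h1 : EB T π (fun S => EB (mfI B b0) (piF A b0 p π)
        (fun S' => (opt y (S ∪ S') univ : ℝ))) ≤
        EB T π (fun S => (opt y S univ : ℝ)
          + ∑ e ∈ mfI B b0, piF A b0 p π e * (gain y S e : ℝ)) := by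
      apply EB_mono hpro
      intro S hS
      exact hUPP _ _ y S (mfI B b0) (piF A b0 p π) (Finset.disjoint_of_subset_left hS hdF) hproF
    refine h1.trans (le_of_eq ?_)
    rw [EB_add]
    congr 1
    have h2 : ∀ S : Finset (Lam n M B), ∑ e ∈ mfI B b0, piF A b0 p π e * (gain y S e : ℝ)
        = (∑ j, u0 * a j * (x S j : ℝ) + ∑ i, ∑ j, v0 * (a i * a j) * ∑ c : Fin (B + 1),
          p i c * ((x S j - (c : ℕ) : ℕ) : ℝ)) * (1 / (M : ℝ)) := by
      intro S
      rw [sum_mfI, Finset.sum_add_distrib, add_mul]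
      congr 1
      · rw [Finset.sum_mul]
        refine Finset.sum_congr rfl (fun j _ => ?_)
        rw [piF_new, gain_mfn]
        show u0 * A b0.1 j / M * _ = _
        ring
      · rw [Finset.sum_comm, Finset.sum_mul]
        refine Finset.sum_congr rfl (fun i _ => ?_)
        rw [Finset.sum_mul]
        refine Finset.sum_congr rfl (fun j _ => ?_)
        rw [Finset.mul_sum, Finset.sum_mul]
        refine Finset.sum_congr rfl (fun c _ => ?_)
        rw [piF_new, gain_mfs]
        show v0 * (A b0.1 i * A b0.1 j) * p i c / M * _ = _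
        ring
    have h4 : EB T π (fun S => ∑ e ∈ mfI B b0, piF A b0 p π e * (gain y S e : ℝ)) =
        EB T π (fun S => (∑ j, u0 * a j * (x S j : ℝ)
          + ∑ i, ∑ j, v0 * (a i * a j) * ∑ c : Fin (B + 1),
          p i c * ((x S j - (c : ℕ) : ℕ) : ℝ)) * (1 / (M : ℝ))) :=
      EB_congr (fun _ _ => rfl) (fun S _ => h2 S)
    have h5 : XF / (M : ℝ) = XF * (1 / (M : ℝ)) := by ring
    rw [h4, EB_mul_right, EB_add, EB_sum, EB_sum, h5, hXF]
    congr 2
    · exact Finset.sum_congr rfl (fun j _ => EB_mul_left _ _ _ _)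
    · refine Finset.sum_congr rfl (fun i _ => ?_)
      rw [EB_sum]
      refine Finset.sum_congr rfl (fun j _ => ?_)
      rw [EB_mul_left, EB_sum]
      congr 1
      exact Finset.sum_congr rfl (fun c _ => EB_mul_left _ _ _ _)
  -- the comparison
  have hv : (0 : ℝ) ≤ v0 := by unfold v0; norm_num
  have hvs0 : 0 ≤ v0 * s := mul_nonneg hv hs0
  have hvs1 : v0 * s < 1 := by
    have : v0 * s ≤ v0 * 1 := mul_le_mul_of_nonneg_left hs1 hv
    have h2 : v0 * 1 < 1 := by unfold v0; norm_num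
    linarith
  have hQ0 : ∀ a c, 0 ≤ Qr y T π a c := by
    intro a c
    unfold Qr
    exact Finset.sum_nonneg (fun e he => (hT e (Finset.mem_filter.1 he).1).1)
  have hQs : ∀ a c, Qr y T π a c = Qr y T π c a := by
    intro a c
    unfold Qr
    congr 1
    ext e
    simp only [Finset.mem_filter]
    tauto
  have hP0 : ∀ i j, 0 ≤ Pc y T π i j := by
    intro i j
    unfold Pc
    exact EB_nonneg hpro (fun S _ => by split_ifs <;> norm_num)
  have halg := hALG (Finset (Lam n M B)) (Fin n) T.powerset (wB π T) x wt a (Pc y T π) B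
    u0 v0 k0 (fs s) (fun S hS => wB_nonneg hpro (Finset.mem_powerset.1 hS)) (sum_wB T π)
    (fun S _ j => Nat.sub_le _ _) (hw b0.1) (hA.1 b0.1) (hA.2.1 b0.1) hv hP0
    (Pc_symm y T π) (fun i j _ => hCOV _ _ y T π i j (wt i) (wt j) hpro)
    (fun α hα => by
      have := hLTW (Fin n) (Qr y T π) (Pc y T π) (v0 * s) hvs0 hvs1 hQ0 hQ
        (fun c => by
          rw [Finset.sum_congr rfl (fun a _ => hQs a c)]
          exact hQ c) hP0 (Pc_self y T π) (fun a b hab => hCON _ _ y T π a b hpro hab) α hα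
      exact this)
  have halg' : ∑ j, a j ^ 2 * ∑ θ ∈ range (wt j),
        (k0 * EB T π (fun S => if θ < x S j then (1 : ℝ) else 0)
          - v0 / 2 * EB T π (fun S => if θ < x S j then (1 : ℝ) else 0)
              * (1 - EB T π (fun S => if θ < x S j then (1 : ℝ) else 0))
          - v0 / 2 * fs s * EB T π (fun S => if θ < x S j then (1 : ℝ) else 0))
      + v0 / 2 * ∑ θ ∈ range B, (∑ j, a j * EB T π (fun S => if θ < x S j then (1 : ℝ) else 0)) ^ 2
      ≤ XR - XF := halg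
  -- the lower bound for the net gain
  have hq1 : ∀ j θ, EB T π (fun S => if θ < x S j then (1 : ℝ) else 0) ≤ 1 := by
    intro j θ
    exact (EB_mono hpro (fun S _ => by split_ifs <;> norm_num)).trans (EB_const T π 1).le
  have hr : ∀ j θ, θ < wt j → r0 ≤ EB T π (fun S => if θ < x S j then (1 : ℝ) else 0) := by
    intro j θ hθ
    have h1 := hRMI _ _ y T π j (1 / (M : ℝ)) (by
      rw [div_le_div_iff₀ hMr (by norm_num)]
      have : 2 ≤ M := by omega
      have : (2 : ℝ) ≤ (M : ℝ) := by exact_mod_cast this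
      linarith) hT
    have h2 : Real.exp (-((1 + 1 / (M : ℝ)) * (u0 + v0))) ≤
        Real.exp (-((1 + 1 / (M : ℝ)) * ∑ e ∈ T.filter (fun e => y e j ≠ 0), π e)) := by
      apply Real.exp_le_exp.2
      apply neg_le_neg
      exact mul_le_mul_of_nonneg_left (htouch j) (by positivity)
    refine (hNTD M hM).trans (h2.trans (h1.trans ?_))
    apply EB_mono hpro
    intro S _
    by_cases h0 : pr y S j = 0
    · have : θ < x S j := by
        show θ < wt j - pr y S j
        rw [h0]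
        simpa using hθ
      rw [if_pos h0, if_pos this]
    · rw [if_neg h0]
      split_ifs <;> norm_num
  have hnet : Lf s * ∑ j, a j ^ 2 * (wt j : ℝ) ≤ ∑ j, a j ^ 2 * ∑ θ ∈ range (wt j),
        (k0 * EB T π (fun S => if θ < x S j then (1 : ℝ) else 0)
          - v0 / 2 * EB T π (fun S => if θ < x S j then (1 : ℝ) else 0)
              * (1 - EB T π (fun S => if θ < x S j then (1 : ℝ) else 0))
          - v0 / 2 * fs s * EB T π (fun S => if θ < x S j then (1 : ℝ) else 0)) := by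
    rw [Finset.mul_sum]
    refine Finset.sum_le_sum (fun j _ => ?_)
    have h1 : ∑ θ ∈ range (wt j), Lf s ≤ ∑ θ ∈ range (wt j),
        (k0 * EB T π (fun S => if θ < x S j then (1 : ℝ) else 0)
          - v0 / 2 * EB T π (fun S => if θ < x S j then (1 : ℝ) else 0)
              * (1 - EB T π (fun S => if θ < x S j then (1 : ℝ) else 0))
          - v0 / 2 * fs s * EB T π (fun S => if θ < x S j then (1 : ℝ) else 0)) := by
      refine Finset.sum_le_sum (fun θ hθ => ?_)
      exact hNTA s _ hs0 hs1 (hr j θ (Finset.mem_range.1 hθ)) (hq1 j θ)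
    rw [Finset.sum_const, Finset.card_range, nsmul_eq_mul] at h1
    have h2 : 0 ≤ a j ^ 2 := sq_nonneg _
    calc Lf s * (a j ^ 2 * (wt j : ℝ)) = a j ^ 2 * ((wt j : ℝ) * Lf s) := by ring
      _ ≤ _ := mul_le_mul_of_nonneg_left h1 h2
  -- the error
  have hXR2 : XR ≤ 2 * ∑ j, a j * (wt j : ℝ) := by
    apply XR_le hA b0.1 (fun j => (wt j : ℝ)) (fun j => Nat.cast_nonneg _)
      (fun j => EB T π (fun S => (x S j : ℝ)))
      (fun i j => EB T π (fun S => ((max (x S i) (x S j) : ℕ) : ℝ)))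
    · intro j
      show EB T π (fun S => (x S j : ℝ)) ≤ (wt j : ℝ)
      rw [← EB_const T π (wt j : ℝ)]
      refine EB_mono hpro (fun S _ => ?_)
      have : x S j ≤ wt j := Nat.sub_le _ _
      exact_mod_cast this
    · intro i j
      show EB T π (fun S => ((max (x S i) (x S j) : ℕ) : ℝ)) ≤ (wt i : ℝ) + (wt j : ℝ)
      rw [← EB_const T π ((wt i : ℝ) + (wt j : ℝ))]
      refine EB_mono hpro (fun S _ => ?_)
      have h1 : x S i ≤ wt i := Nat.sub_le _ _
      have h2 : x S j ≤ wt j := Nat.sub_le _ _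
      have h3 : max (x S i) (x S j) ≤ wt i + wt j := by omega
      exact_mod_cast h3
  have hXR0 : 0 ≤ XR := by
    have hu : (0 : ℝ) ≤ u0 := by unfold u0; norm_num
    have hk : (0 : ℝ) ≤ v0 / 2 + k0 := by unfold v0 k0; norm_num
    apply add_nonneg
    · refine Finset.sum_nonneg (fun j _ => mul_nonneg (add_nonneg (mul_nonneg hu (hA.1 _ _))
        (mul_nonneg hk (sq_nonneg _))) ?_)
      exact EB_nonneg hpro (fun S _ => Nat.cast_nonneg _)
    · apply mul_nonneg (by linarith)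
      refine Finset.sum_nonneg (fun i _ => Finset.sum_nonneg (fun j _ => mul_nonneg
        (mul_nonneg (hA.1 _ _) (hA.1 _ _)) ?_))
      exact EB_nonneg hpro (fun S _ => Nat.cast_nonneg _)
  have herr : (∑ e ∈ realI B b0, π e) * XR ≤ 2 / M * ∑ j, a j * (wt j : ℝ) := by
    calc (∑ e ∈ realI B b0, π e) * XR ≤ 1 / (M : ℝ) * (2 * ∑ j, a j * (wt j : ℝ)) :=
          mul_le_mul hσ hXR2 hXR0 (by positivity)
      _ = _ := by ring
  have hfin : v0 / 2 * ∑ θ ∈ range B, (∑ j, a j * EB T π (fun S =>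
          if θ < x S j then (1 : ℝ) else 0)) ^ 2
        + Lf s * ∑ j, a j ^ 2 * (wt j : ℝ) - 2 / M * ∑ j, a j * (wt j : ℝ)
      ≤ (1 - ∑ e ∈ realI B b0, π e) * XR - XF := by
    linarith
  have hfin2 := mul_le_mul_of_nonneg_left hfin (by positivity : (0 : ℝ) ≤ 1 / (M : ℝ))
  have e1 : 1 / (M : ℝ) * ((1 - ∑ e ∈ realI B b0, π e) * XR - XF)
      = (1 - ∑ e ∈ realI B b0, π e) * (XR / M) - XF / M := by ring
  rw [e1] at hfin2
  linarith

end FIN_

end

end Pool.Agent.CGM
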