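import Pool.Agent.CGM.FINC

set_option autoImplicit false
set_option linter.unusedSectionVars false

open Finset
open scoped Classical

namespace Pool.Agent.CGM

noncomputable section

namespace FIN_

variable {n M B : ℕ}

lemma piR_inl_nonneg {A : Fin n → Fin n → ℝ} (hA : DS A) (b : Blk n M)
    (κ : Fin n ⊕ (Fin n × Fin n)) : 0 ≤ piR A b κ := (piR_bd hA b κ).1

/-- the sum over the pairs containing `j` -/
lemma sum_pair_touch {A : Fin n → Fin n → ℝ} (hA : DS A) (b : Blk n M) (j : Fin n) :
    ∑ i, piR A b (Sum.inr (j, i)) = v0 / 2 * (A b.1 j * (1 - A b.1 j)) / M ∧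
    ∑ i, piR A b (Sum.inr (i, j)) = v0 / 2 * (A b.1 j * (1 - A b.1 j)) / M := by
  have h1 : ∑ i ∈ univ.erase j, A b.1 i = 1 - A b.1 j := by
    rw [Finset.sum_erase_eq_sub (Finset.mem_univ j), hA.2.1 b.1]
  constructor
  · rw [← Finset.sum_erase_add _ _ (Finset.mem_univ j)]
    have h0 : piR A b (Sum.inr (j, j)) = 0 := by
      show (if j = j then 0 else v0 / 2 * (A b.1 j * A b.1 j) / (M : ℝ)) = 0
      rw [if_pos rfl]
    rw [h0, add_zero, ← h1, Finset.mul_sum, Finset.mul_sum, Finset.sum_div]
    refine Finset.sum_congr rfl (fun i hi => ?_)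
    show (if j = i then 0 else v0 / 2 * (A b.1 j * A b.1 i) / (M : ℝ)) = _
    rw [if_neg (Finset.ne_of_mem_erase hi).symm]
  · rw [← Finset.sum_erase_add _ _ (Finset.mem_univ j)]
    have h0 : piR A b (Sum.inr (j, j)) = 0 := by
      show (if j = j then 0 else v0 / 2 * (A b.1 j * A b.1 j) / (M : ℝ)) = 0
      rw [if_pos rfl]
    rw [h0, add_zero, ← h1, Finset.mul_sum, Finset.mul_sum, Finset.sum_div]
    refine Finset.sum_congr rfl (fun i hi => ?_)
    show (if i = j then 0 else v0 / 2 * (A b.1 i * A b.1 j) / (M : ℝ)) = _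
    rw [if_neg (Finset.ne_of_mem_erase hi)]
    ring

lemma touch_real {A : Fin n → Fin n → ℝ} (hA : DS A) (w : Fin n → Fin n → ℕ)
    (π : Lam n M B → ℝ) (b : Blk n M) (hπ : ∀ κ, π (Sum.inr (b, Sum.inl κ)) = piR A b κ)
    (j : Fin n) :
    ∑ e ∈ (realI B b).filter (fun e => yw M B w e j ≠ 0), π e ≤ (u0 + v0) / M * A b.1 j := by
  rw [Finset.sum_filter, sum_realI]
  have h1 : ∑ j', (if yw M B w (Sum.inr (b, Sum.inl (Sum.inl j'))) j ≠ 0
      then π (Sum.inr (b, Sum.inl (Sum.inl j'))) else 0) ≤ piR A b (Sum.inl j) := by
    calc _ ≤ ∑ j', (if j' = j then piR A b (Sum.inl j) else 0) := by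
          refine Finset.sum_le_sum (fun j' _ => ?_)
          by_cases h : j' = j
          · subst h
            rw [if_pos rfl, hπ]
            split_ifs
            · exact le_refl _
            · exact piR_inl_nonneg hA b _
          · rw [if_neg h, if_neg]
            push Not
            show (if j = j' then w b.1 j else 0) = 0
            rw [if_neg (fun h' => h h'.symm)]
      _ = piR A b (Sum.inl j) := by rw [Finset.sum_ite_eq']; simp
  have h2 : ∑ i, ∑ j', (if yw M B w (Sum.inr (b, Sum.inl (Sum.inr (i, j')))) j ≠ 0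
      then π (Sum.inr (b, Sum.inl (Sum.inr (i, j')))) else 0)
      ≤ ∑ j', piR A b (Sum.inr (j, j')) + ∑ i, piR A b (Sum.inr (i, j)) := by
    calc _ ≤ ∑ i, ∑ j', ((if i = j then piR A b (Sum.inr (j, j')) else 0)
            + (if j' = j then piR A b (Sum.inr (i, j)) else 0)) := by
          refine Finset.sum_le_sum (fun i _ => Finset.sum_le_sum (fun j' _ => ?_))
          have p1 : 0 ≤ (if i = j then piR A b (Sum.inr (j, j')) else 0) := by
            split_ifs
            · exact piR_inl_nonneg hA b _
            · exact le_refl _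
          have p2 : 0 ≤ (if j' = j then piR A b (Sum.inr (i, j)) else 0) := by
            split_ifs
            · exact piR_inl_nonneg hA b _
            · exact le_refl _
          by_cases h : yw M B w (Sum.inr (b, Sum.inl (Sum.inr (i, j')))) j ≠ 0
          · rw [if_pos h, hπ]
            have h' : (if j = i ∨ j = j' then w b.1 j else 0) ≠ 0 := h
            have h3 : j = i ∨ j = j' := by
              by_contra hc
              rw [if_neg hc] at h'
              exact h' rfl
            rcases h3 with h3 | h3
            · subst h3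
              rw [if_pos rfl]
              linarith
            · subst h3
              rw [if_pos (rfl : j = j)]
              linarith
          · rw [if_neg h]
            linarith
      _ = _ := by
          simp_rw [Finset.sum_add_distrib]
          congr 1
          · rw [Finset.sum_comm]
            refine Finset.sum_congr rfl (fun j' _ => ?_)
            rw [Finset.sum_ite_eq']
            simp
          · refine Finset.sum_congr rfl (fun i _ => ?_)
            rw [Finset.sum_ite_eq']
            simp
  have h3 := sum_pair_touch hA b j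
  rw [h3.1, h3.2] at h2
  have h4 : piR A b (Sum.inl j) = (u0 * A b.1 j + (v0 / 2 + k0) * A b.1 j ^ 2) / M := rfl
  rw [h4] at h1
  refine (add_le_add h1 h2).trans ?_
  have e1 : (u0 + v0) / (M : ℝ) * A b.1 j = (u0 + v0) * A b.1 j / M := by ring
  rw [← add_div, ← add_div, e1]
  apply div_le_div_of_nonneg_right _ (Nat.cast_nonneg M)
  have h5 : (0 : ℝ) ≤ A b.1 j ^ 2 := sq_nonneg _
  unfold u0 v0 k0
  nlinarith

lemma Q_real {A : Fin n → Fin n → ℝ} (hA : DS A) (w : Fin n → Fin n → ℕ)
    (π : Lam n M B → ℝ) (b : Blk n M) (hπ : ∀ κ, π (Sum.inr (b, Sum.inl κ)) = piR A b κ)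
    (a c : Fin n) (hac : a ≠ c) :
    ∑ e ∈ (realI B b).filter (fun e => yw M B w e a ≠ 0 ∧ yw M B w e c ≠ 0), π e
      ≤ v0 / M * (A b.1 a * A b.1 c) := by
  rw [Finset.sum_filter, sum_realI]
  have h1 : ∑ j', (if yw M B w (Sum.inr (b, Sum.inl (Sum.inl j'))) a ≠ 0
      ∧ yw M B w (Sum.inr (b, Sum.inl (Sum.inl j'))) c ≠ 0
      then π (Sum.inr (b, Sum.inl (Sum.inl j'))) else 0) = 0 := by
    refine Finset.sum_eq_zero (fun j' _ => ?_)
    rw [if_neg]
    rintro ⟨h2, h3⟩
    have h2' : (if a = j' then w b.1 a else 0) ≠ 0 := h2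
    have h3' : (if c = j' then w b.1 c else 0) ≠ 0 := h3
    have h4 : a = j' := by
      by_contra hc
      rw [if_neg hc] at h2'
      exact h2' rfl
    have h5 : c = j' := by
      by_contra hc
      rw [if_neg hc] at h3'
      exact h3' rfl
    exact hac (h4.trans h5.symm)
  have h2 : ∑ i, ∑ j', (if yw M B w (Sum.inr (b, Sum.inl (Sum.inr (i, j')))) a ≠ 0
      ∧ yw M B w (Sum.inr (b, Sum.inl (Sum.inr (i, j')))) c ≠ 0
      then π (Sum.inr (b, Sum.inl (Sum.inr (i, j')))) else 0)
      ≤ piR A b (Sum.inr (a, c)) + piR A b (Sum.inr (c, a)) := by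
    calc _ ≤ ∑ i, ∑ j', ((if i = a then (if j' = c then piR A b (Sum.inr (a, c)) else 0) else 0)
            + (if i = c then (if j' = a then piR A b (Sum.inr (c, a)) else 0) else 0)) := by
          refine Finset.sum_le_sum (fun i _ => Finset.sum_le_sum (fun j' _ => ?_))
          have p1 : 0 ≤ (if i = a then (if j' = c then piR A b (Sum.inr (a, c)) else 0) else 0) := by
            split_ifs
            · exact piR_inl_nonneg hA b _
            · exact le_refl _
            · exact le_refl _
          have p2 : 0 ≤ (if i = c then (if j' = a then piR A b (Sum.inr (c, a)) else 0) else 0) := by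
            split_ifs
            · exact piR_inl_nonneg hA b _
            · exact le_refl _
            · exact le_refl _
          by_cases h : yw M B w (Sum.inr (b, Sum.inl (Sum.inr (i, j')))) a ≠ 0
              ∧ yw M B w (Sum.inr (b, Sum.inl (Sum.inr (i, j')))) c ≠ 0
          · rw [if_pos h, hπ]
            have h2 : (if a = i ∨ a = j' then w b.1 a else 0) ≠ 0 := h.1
            have h3 : (if c = i ∨ c = j' then w b.1 c else 0) ≠ 0 := h.2
            have h4 : a = i ∨ a = j' := by
              by_contra hc
              rw [if_neg hc] at h2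
              exact h2 rfl
            have h5 : c = i ∨ c = j' := by
              by_contra hc
              rw [if_neg hc] at h3
              exact h3 rfl
            rcases h4 with h4 | h4
            · rcases h5 with h5 | h5
              · exact absurd (h4.trans h5.symm) hac
              · subst h4 h5
                rw [if_pos rfl, if_pos rfl]
                linarith
            · rcases h5 with h5 | h5
              · subst h4 h5
                rw [if_pos (rfl : c = c), if_pos (rfl : a = a)]
                linarith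
              · exact absurd (h4.trans h5.symm) hac
          · rw [if_neg h]
            linarith
      _ = _ := by
          simp_rw [Finset.sum_add_distrib]
          congr 1
          · rw [Finset.sum_eq_single a (fun i _ hi => by
              refine Finset.sum_eq_zero (fun j' _ => by rw [if_neg hi])) (by simp)]
            simp
          · rw [Finset.sum_eq_single c (fun i _ hi => by
              refine Finset.sum_eq_zero (fun j' _ => by rw [if_neg hi])) (by simp)]
            simp
  rw [h1, zero_add]
  refine h2.trans (le_of_eq ?_)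
  show (if a = c then 0 else v0 / 2 * (A b.1 a * A b.1 c) / (M : ℝ))
    + (if c = a then 0 else v0 / 2 * (A b.1 c * A b.1 a) / (M : ℝ)) = _
  rw [if_neg hac, if_neg hac.symm]
  ring

/-- the total probability of the mean field items at `j` with weight larger than `θ` -/
lemma mf_sum (A : Fin n → Fin n → ℝ) (hA : DS A) (w : Fin n → Fin n → ℕ)
    (hw : ∀ k j, w k j ≤ B) (π : Lam n M B → ℝ) (T : Finset (Lam n M B)) (b : Blk n M)
    (j : Fin n) (θ : ℕ) :
    ∑ e ∈ (mfI B b).filter (fun e => θ < yw M B w e j),
      piF A b (fun i c => EB T π (fun S =>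
          if w b.1 i - pr (yw M B w) S i = c then (1 : ℝ) else 0)) π e =
    A b.1 j / M * (if θ < w b.1 j then u0 + v0 * (1 - ∑ i, A b.1 i * EB T π (fun S =>
          if w b.1 j - 1 - θ < w b.1 i - pr (yw M B w) S i then (1 : ℝ) else 0)) else 0) := by
  set p : Fin n → ℕ → ℝ := fun i c => EB T π (fun S =>
          if w b.1 i - pr (yw M B w) S i = c then (1 : ℝ) else 0) with hp
  rw [Finset.sum_filter, sum_mfI]
  rw [Finset.sum_eq_single j (fun j' _ hj' => by
    have h1 : ¬ θ < yw M B w (Sum.inr (b, Sum.inr (j', none))) j := by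
      show ¬ θ < (if j = j' then w b.1 j else 0)
      rw [if_neg (fun h => hj' h.symm)]
      omega
    have h2 : ∀ i c, ¬ θ < yw M B w (Sum.inr (b, Sum.inr (j', some (i, c)))) j := by
      intro i c
      show ¬ θ < (if j = j' then w b.1 j - (c : ℕ) else 0)
      rw [if_neg (fun h => hj' h.symm)]
      omega
    rw [if_neg h1, zero_add]
    refine Finset.sum_eq_zero (fun i _ => Finset.sum_eq_zero (fun c _ => ?_))
    rw [if_neg (h2 i c)]) (by simp)]
  have h1 : (θ < yw M B w (Sum.inr (b, Sum.inr (j, none))) j) = (θ < w b.1 j) := by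
    show (θ < (if j = j then w b.1 j else 0)) = _
    rw [if_pos rfl]
  have h2 : ∀ (i : Fin n) (c : Fin (B + 1)),
      (θ < yw M B w (Sum.inr (b, Sum.inr (j, some (i, c)))) j) = (θ < w b.1 j - (c : ℕ)) := by
    intro i c
    show (θ < (if j = j then w b.1 j - (c : ℕ) else 0)) = _
    rw [if_pos rfl]
  have h3 : ∀ i : Fin n, ∑ c : Fin (B + 1),
      (if θ < yw M B w (Sum.inr (b, Sum.inr (j, some (i, c)))) j
        then piF A b p π (Sum.inr (b, Sum.inr (j, some (i, c)))) else 0)
      = v0 * (A b.1 i * A b.1 j) / M * EB T π (fun S =>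
          if θ < w b.1 j - (w b.1 i - pr (yw M B w) S i) then (1 : ℝ) else 0) := by
    intro i
    have h4 : ∀ c : Fin (B + 1),
        (if θ < yw M B w (Sum.inr (b, Sum.inr (j, some (i, c)))) j
          then piF A b p π (Sum.inr (b, Sum.inr (j, some (i, c)))) else 0)
        = v0 * (A b.1 i * A b.1 j) / M * EB T π (fun S =>
          if w b.1 i - pr (yw M B w) S i = (c : ℕ) then
            (if θ < w b.1 j - (w b.1 i - pr (yw M B w) S i) then (1 : ℝ) else 0) else 0) := by
      intro c
      rw [piF_new]
      have h5 : pmfv A b p ((j, some (i, c)) : Fin n × Option (Fin n × Fin (B + 1)))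
        = v0 * (A b.1 i * A b.1 j) * p i c / M := rfl
      rw [h5]
      simp only [h2 i c]
      by_cases h : θ < w b.1 j - (c : ℕ)
      · rw [if_pos h]
        have h6 : p i c = EB T π (fun S =>
          if w b.1 i - pr (yw M B w) S i = (c : ℕ) then
            (if θ < w b.1 j - (w b.1 i - pr (yw M B w) S i) then (1 : ℝ) else 0) else 0) := by
          rw [hp]
          refine EB_congr (fun _ _ => rfl) (fun S _ => ?_)
          by_cases h7 : w b.1 i - pr (yw M B w) S i = (c : ℕ)
          · rw [if_pos h7, if_pos h7, h7, if_pos h]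
          · rw [if_neg h7, if_neg h7]
        rw [← h6]
        ring
      · rw [if_neg h]
        have h6 : EB T π (fun S =>
          if w b.1 i - pr (yw M B w) S i = (c : ℕ) then
            (if θ < w b.1 j - (w b.1 i - pr (yw M B w) S i) then (1 : ℝ) else 0) else 0) = 0 := by
          refine (EB_congr (fun _ _ => rfl) (fun S _ => ?_)).trans (EB_const T π 0)
          by_cases h7 : w b.1 i - pr (yw M B w) S i = (c : ℕ)
          · rw [if_pos h7, h7, if_neg h]
          · rw [if_neg h7]
        rw [h6, mul_zero]
    rw [Finset.sum_congr rfl (fun c _ => h4 c), ← Finset.mul_sum, ← EB_sum]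
    congr 1
    refine EB_congr (fun _ _ => rfl) (fun S _ => ?_)
    have h8 : w b.1 i - pr (yw M B w) S i < B + 1 := by
      have := hw b.1 i
      omega
    rw [Finset.sum_eq_single (⟨w b.1 i - pr (yw M B w) S i, h8⟩ : Fin (B + 1))]
    · simp
    · intro c _ hc
      rw [if_neg]
      intro h9
      apply hc
      ext
      exact h9.symm
    · simp
  rw [Finset.sum_congr rfl (fun i _ => h3 i)]
  have h10 : (if θ < yw M B w (Sum.inr (b, Sum.inr (j, none))) j
      then piF A b p π (Sum.inr (b, Sum.inr (j, none))) else 0)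
      = if θ < w b.1 j then u0 * A b.1 j / M else 0 := by
    rw [piF_new]
    simp only [h1]
    rfl
  rw [h10]
  by_cases h : θ < w b.1 j
  · rw [if_pos h, if_pos h]
    have h11 : ∀ i, EB T π (fun S =>
          if θ < w b.1 j - (w b.1 i - pr (yw M B w) S i) then (1 : ℝ) else 0)
        = 1 - EB T π (fun S =>
          if w b.1 j - 1 - θ < w b.1 i - pr (yw M B w) S i then (1 : ℝ) else 0) := by
      intro i
      rw [eq_sub_iff_add_eq, ← EB_add]
      refine (EB_congr (fun _ _ => rfl) (fun S _ => ?_)).trans (EB_const T π 1)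
      by_cases h12 : θ < w b.1 j - (w b.1 i - pr (yw M B w) S i)
      · rw [if_pos h12, if_neg (by omega)]
        norm_num
      · rw [if_neg h12, if_pos (by omega)]
        norm_num
    rw [Finset.sum_congr rfl (fun i _ => by rw [h11 i])]
    have h13 : ∑ i, v0 * (A b.1 i * A b.1 j) / M * (1 - EB T π (fun S =>
          if w b.1 j - 1 - θ < w b.1 i - pr (yw M B w) S i then (1 : ℝ) else 0))
        = v0 * A b.1 j / M * (∑ i, A b.1 i - ∑ i, A b.1 i * EB T π (fun S =>
          if w b.1 j - 1 - θ < w b.1 i - pr (yw M B w) S i then (1 : ℝ) else 0)) := by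
      rw [← Finset.sum_sub_distrib, Finset.mul_sum]
      exact Finset.sum_congr rfl (fun i _ => by ring)
    rw [h13, hA.2.1]
    ring
  · rw [if_neg h, if_neg h]
    have h14 : ∀ i, EB T π (fun S =>
          if θ < w b.1 j - (w b.1 i - pr (yw M B w) S i) then (1 : ℝ) else 0) = 0 := by
      intro i
      refine (EB_congr (fun _ _ => rfl) (fun S _ => ?_)).trans (EB_const T π 0)
      rw [if_neg (by omega)]
    rw [Finset.sum_eq_zero (fun i _ => by rw [h14 i, mul_zero])]
    ring

end FIN_

end

end Pool.Agent.CGM
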