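import Pool.Agent.CGM.FIND

set_option autoImplicit false
set_option linter.unusedSectionVars false

open Finset
open scoped Classical

namespace Pool.Agent.CGM

noncomputable section

namespace FIN_

variable {n M B : ℕ}

lemma pmfv_bd {A : Fin n → Fin n → ℝ} (hA : DS A) (b : Blk n M) (p : Fin n → ℕ → ℝ)
    (hp : ∀ i c, 0 ≤ p i c ∧ p i c ≤ 1) (κ : Fin n × Option (Fin n × Fin (B + 1))) :
    0 ≤ pmfv A b p κ ∧ pmfv A b p κ ≤ 1 / (M : ℝ) := by
  have hMn : (0 : ℝ) ≤ (M : ℝ) := Nat.cast_nonneg M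
  obtain ⟨j, κ⟩ := κ
  have h1 := hA.1 b.1 j
  have h2 := DS.le_one hA b.1 j
  rcases κ with _ | ⟨i, c⟩
  · show 0 ≤ u0 * A b.1 j / M ∧ u0 * A b.1 j / M ≤ 1 / (M : ℝ)
    constructor
    · apply div_nonneg _ hMn
      unfold u0
      positivity
    · apply div_le_div_of_nonneg_right _ hMn
      unfold u0
      linarith
  · show 0 ≤ v0 * (A b.1 i * A b.1 j) * p i c / M ∧
      v0 * (A b.1 i * A b.1 j) * p i c / M ≤ 1 / (M : ℝ)
    have h3 := hA.1 b.1 i
    have h4 := DS.le_one hA b.1 i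
    have h5 : A b.1 i * A b.1 j ≤ 1 := by nlinarith
    have h6 : 0 ≤ A b.1 i * A b.1 j := mul_nonneg h3 h1
    have h7 : 0 ≤ v0 * (A b.1 i * A b.1 j) := by unfold v0; positivity
    have h8 : v0 * (A b.1 i * A b.1 j) ≤ 1 := by unfold v0; linarith
    constructor
    · exact div_nonneg (mul_nonneg h7 (hp i c).1) hMn
    · apply div_le_div_of_nonneg_right _ hMn
      exact mul_le_one₀ h8 (hp i c).1 (hp i c).2

lemma sum_T {Rem : Finset (Blk n M)} {T0 : Finset (Lam n M B)}
    (hT0 : ∀ e ∈ T0, ∃ b κ, e = Sum.inr (b, Sum.inr κ)) (g : Lam n M B → ℝ) :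
    ∑ e ∈ T0 ∪ Rem.biUnion (realI B), g e
      = ∑ e ∈ T0, g e + ∑ b ∈ Rem, ∑ e ∈ realI B b, g e := by
  rw [Finset.sum_union, Finset.sum_biUnion]
  · intro b _ b' _ hbb'
    exact realI_disj hbb'
  · rw [Finset.disjoint_left]
    intro e he he'
    obtain ⟨b, κ, rfl⟩ := hT0 e he
    rw [Finset.mem_biUnion] at he'
    obtain ⟨b', _, he'⟩ := he'
    rw [mem_realI] at he'
    obtain ⟨κ', h⟩ := he'
    simp at h

lemma mf_single (w : Fin n → Fin n → ℕ) {e : Lam n M B}
    (he : ∃ b κ, e = Sum.inr (b, Sum.inr κ)) : ∃ j0, ∀ j, j ≠ j0 → yw M B w e j = 0 := by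
  obtain ⟨b, ⟨j0, κ⟩, rfl⟩ := he
  refine ⟨j0, fun j hj => ?_⟩
  rcases κ with _ | ⟨i, c⟩
  · show (if j = j0 then w b.1 j else 0) = 0
    rw [if_neg hj]
  · show (if j = j0 then w b.1 j - (c : ℕ) else 0) = 0
    rw [if_neg hj]

lemma level_sum {A : Fin n → Fin n → ℝ} (hA : DS A) (a : Fin n) (t0 : Fin M)
    (Rem : Finset (Blk n M)) (hR : ∀ b ∈ Rem, t0 ≤ b.2) :
    ∑ b ∈ Rem, A b.1 a ≤ (M : ℝ) - (t0 : ℕ) := by
  have h1 : Rem ⊆ (univ : Finset (Fin n)) ×ˢ Finset.Ici t0 := by
    intro b hb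
    rw [Finset.mem_product]
    exact ⟨Finset.mem_univ _, Finset.mem_Ici.2 (hR b hb)⟩
  calc ∑ b ∈ Rem, A b.1 a ≤ ∑ b ∈ (univ : Finset (Fin n)) ×ˢ Finset.Ici t0, A b.1 a :=
        Finset.sum_le_sum_of_subset_of_nonneg h1 (fun b _ _ => hA.1 _ _)
    _ = (M : ℝ) - (t0 : ℕ) := by
        rw [Finset.sum_product]
        simp only [Finset.sum_const, Fin.card_Ici, nsmul_eq_mul]
        rw [← Finset.mul_sum, hA.2.2, mul_one, Nat.cast_sub t0.2.le]

theorem lind (hUPP : Stmt_UPP) (hLOW : Stmt_LOW) (hCOV : Stmt_COV) (hCON : Stmt_CON)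
    (hLTW : Stmt_LTW) (hRMI : Stmt_RMI) (hALG : Stmt_ALG) (hNTA : Stmt_NTA) (hNTD : Stmt_NTD)
    (hSIN : Stmt_SIN)
    (hM : 100000 ≤ M) {A : Fin n → Fin n → ℝ} (hA : DS A) (w : Fin n → Fin n → ℕ)
    (hw : ∀ k j, w k j ≤ B) : ∀ (m : ℕ) (Rem : Finset (Blk n M)), Rem.card = m →
    ∀ (T0 : Finset (Lam n M B)) (π : Lam n M B → ℝ),
    (∀ e ∈ T0, ∃ b κ, e = Sum.inr (b, Sum.inr κ) ∧ b ∉ Rem) →
    (∀ b κ, π (Sum.inr (b, Sum.inl κ)) = piR A b κ) →
    (∀ e ∈ T0, 0 ≤ π e ∧ π e ≤ 1 / (M : ℝ)) →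
    (∀ j, ∑ e ∈ T0.filter (fun e => yw M B w e j ≠ 0), π e
      + (u0 + v0) / M * ∑ b ∈ Rem, A b.1 j ≤ u0 + v0) →
    ∃ β : Fin n → Fin M → ℕ → ℝ, (∀ k t θ, 0 ≤ β k t θ ∧ β k t θ ≤ 1) ∧
      ∑ j, ∑ θ ∈ range B, (1 - Real.exp (-(∑ e ∈ T0.filter (fun e => θ < yw M B w e j), π e
        + ∑ b ∈ Rem, A b.1 j / M *
          (if θ < w b.1 j then u0 + v0 * (1 - β b.1 b.2 (w b.1 j - 1 - θ)) else 0))))
      + ∑ b ∈ Rem, 1 / (M : ℝ) * (v0 / 2 * ∑ θ ∈ range B, (β b.1 b.2 θ) ^ 2
          + Lf (((M : ℝ) - (b.2 : ℕ)) / M) * ∑ j, A b.1 j ^ 2 * (w b.1 j : ℝ)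
          - 2 / M * ∑ j, A b.1 j * (w b.1 j : ℝ)) ≤
      EB (T0 ∪ Rem.biUnion (realI B)) π (fun S => (opt (yw M B w) S univ : ℝ)) := by
  have hMr : (0 : ℝ) < (M : ℝ) := by
    have : 0 < M := by omega
    exact_mod_cast this
  have hM1 : 1 / (M : ℝ) ≤ 1 := by
    rw [div_le_one hMr]
    have : 1 ≤ M := by omega
    exact_mod_cast this
  intro m
  induction m with
  | zero =>
    intro Rem hRem T0 π hT0 hπ hb htouch
    rw [Finset.card_eq_zero] at hRem
    subst hRem
    refine ⟨fun _ _ _ => 0, fun _ _ _ => ⟨le_refl _, by norm_num⟩, ?_⟩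
    simp only [Finset.sum_empty, add_zero, Finset.biUnion_empty, Finset.union_empty]
    exact hSIN _ _ (yw M B w) T0 π B (fun e he => ⟨(hb e he).1, (hb e he).2.trans hM1⟩)
      (fun e he => mf_single w (by
        obtain ⟨b, κ, h, _⟩ := hT0 e he
        exact ⟨b, κ, h⟩))
  | succ m ih =>
    intro Rem hRem T0 π hT0 hπ hb htouch
    have hne : Rem.Nonempty := Finset.card_pos.1 (by omega)
    obtain ⟨b0, hb0, hmin⟩ := Finset.exists_min_image Rem (fun b => b.2) hne
    set Rem' := Rem.erase b0 with hRem'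
    set T := T0 ∪ Rem'.biUnion (realI B) with hTdef
    have hT0' : ∀ e ∈ T0, ∃ b κ, e = Sum.inr (b, Sum.inr κ) := by
      intro e he
      obtain ⟨b, κ, h, _⟩ := hT0 e he
      exact ⟨b, κ, h⟩
    have hRsum : ∀ g : Blk n M → ℝ, ∑ b ∈ Rem, g b = g b0 + ∑ b ∈ Rem', g b := fun g =>
      (Finset.add_sum_erase Rem g hb0).symm
    have hT : ∀ e ∈ T, 0 ≤ π e ∧ π e ≤ 1 / (M : ℝ) := by
      intro e he
      rw [hTdef, Finset.mem_union, Finset.mem_biUnion] at he
      rcases he with he | ⟨b, _, he⟩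
      · exact hb e he
      · rw [mem_realI] at he
        obtain ⟨κ, rfl⟩ := he
        rw [hπ]
        exact piR_bd hA b κ
    have hdR : Disjoint T (realI B b0) := by
      rw [Finset.disjoint_left]
      intro e he he'
      rw [mem_realI] at he'
      obtain ⟨κ', rfl⟩ := he'
      rw [hTdef, Finset.mem_union, Finset.mem_biUnion] at he
      rcases he with he | ⟨b, hbR, he⟩
      · obtain ⟨b, κ, h⟩ := hT0' _ he
        simp at h
      · rw [mem_realI] at he
        obtain ⟨κ, h⟩ := he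
        simp only [Sum.inr.injEq, Prod.mk.injEq] at h
        rw [hRem', Finset.mem_erase] at hbR
        exact hbR.1 h.1.symm
    have hdF : Disjoint T (mfI B b0) := by
      rw [Finset.disjoint_left]
      intro e he he'
      rw [mem_mfI] at he'
      obtain ⟨κ', rfl⟩ := he'
      rw [hTdef, Finset.mem_union, Finset.mem_biUnion] at he
      rcases he with he | ⟨b, hbR, he⟩
      · obtain ⟨b, κ, h, hbn⟩ := hT0 _ he
        simp only [Sum.inr.injEq, Prod.mk.injEq] at h
        rw [← h.1] at hbn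
        exact hbn hb0
      · rw [mem_realI] at he
        obtain ⟨κ, h⟩ := he
        simp at h
    have ht0 : ((b0.2 : ℕ) : ℝ) ≤ (M : ℝ) := by exact_mod_cast b0.2.2.le
    set s : ℝ := ((M : ℝ) - (b0.2 : ℕ)) / M with hs
    have hs0 : 0 ≤ s := div_nonneg (by linarith) hMr.le
    have hs1 : s ≤ 1 := by
      rw [hs, div_le_one hMr]
      have : (0 : ℝ) ≤ ((b0.2 : ℕ) : ℝ) := Nat.cast_nonneg _
      linarith
    have hv : (0 : ℝ) ≤ v0 := by unfold v0; norm_num
    have hRle : ∀ b ∈ Rem', b0.2 ≤ b.2 := fun b hbR => hmin b (Finset.mem_of_mem_erase hbR)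
    have hQ : ∀ a, ∑ c ∈ univ.erase a, Qr (yw M B w) T π a c ≤ v0 * s := by
      intro a
      have h1 : ∀ c ∈ univ.erase a, Qr (yw M B w) T π a c
          ≤ ∑ b ∈ Rem', v0 / M * (A b.1 a * A b.1 c) := by
        intro c hc
        have hac : a ≠ c := (Finset.ne_of_mem_erase hc).symm
        unfold Qr
        rw [Finset.sum_filter, sum_T hT0']
        have h2 : ∑ e ∈ T0, (if yw M B w e a ≠ 0 ∧ yw M B w e c ≠ 0 then π e else 0) = 0 := by
          refine Finset.sum_eq_zero (fun e he => ?_)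
          rw [if_neg]
          rintro ⟨h3, h4⟩
          obtain ⟨j0, hj0⟩ := mf_single w (hT0' e he)
          have h5 : a = j0 := by
            by_contra hcon
            exact h3 (hj0 a hcon)
          have h6 : c = j0 := by
            by_contra hcon
            exact h4 (hj0 c hcon)
          exact hac (h5.trans h6.symm)
        rw [h2, zero_add]
        refine Finset.sum_le_sum (fun b _ => ?_)
        rw [← Finset.sum_filter]
        exact Q_real hA w π b (hπ b) a c hac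
      calc ∑ c ∈ univ.erase a, Qr (yw M B w) T π a c
          ≤ ∑ c ∈ univ.erase a, ∑ b ∈ Rem', v0 / M * (A b.1 a * A b.1 c) :=
            Finset.sum_le_sum h1
        _ ≤ ∑ c, ∑ b ∈ Rem', v0 / M * (A b.1 a * A b.1 c) := by
            apply Finset.sum_le_sum_of_subset_of_nonneg (Finset.erase_subset _ _)
            intro c _ _
            exact Finset.sum_nonneg (fun b _ => mul_nonneg (div_nonneg hv hMr.le)
              (mul_nonneg (hA.1 _ _) (hA.1 _ _)))
        _ = v0 / M * ∑ b ∈ Rem', A b.1 a := by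
            rw [Finset.sum_comm, Finset.mul_sum]
            refine Finset.sum_congr rfl (fun b _ => ?_)
            rw [← Finset.mul_sum, ← Finset.mul_sum, hA.2.1, mul_one]
        _ ≤ v0 / M * ((M : ℝ) - (b0.2 : ℕ)) :=
            mul_le_mul_of_nonneg_left (level_sum hA a b0.2 Rem' hRle) (div_nonneg hv hMr.le)
        _ = v0 * s := by rw [hs]; ring
    have htouch' : ∀ j, ∑ e ∈ T.filter (fun e => yw M B w e j ≠ 0), π e ≤ u0 + v0 := by
      intro j
      rw [Finset.sum_filter, sum_T hT0', ← Finset.sum_filter]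
      have h1 : ∑ b ∈ Rem', ∑ e ∈ realI B b, (if yw M B w e j ≠ 0 then π e else 0)
          ≤ (u0 + v0) / M * ∑ b ∈ Rem', A b.1 j := by
        rw [Finset.mul_sum]
        refine Finset.sum_le_sum (fun b _ => ?_)
        rw [← Finset.sum_filter]
        exact touch_real hA w π b (hπ b) j
      have h2 := htouch j
      rw [hRsum (fun b => A b.1 j)] at h2
      have h3 : 0 ≤ (u0 + v0) / M * A b0.1 j :=
        mul_nonneg (div_nonneg (by unfold u0 v0; norm_num) hMr.le) (hA.1 _ _)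
      rw [mul_add] at h2
      linarith
    have hstep := block_step hUPP hLOW hCOV hCON hLTW hRMI hALG hNTA hNTD hM hA w hw π b0
      (hπ b0) T hT hdR hdF s hs0 hs1 hQ htouch'
    set p : Fin n → ℕ → ℝ := fun i c => EB T π (fun S =>
          if w b0.1 i - pr (yw M B w) S i = c then (1 : ℝ) else 0) with hp
    have hpro : Pro T π := fun e he => ⟨(hT e he).1, (hT e he).2.trans hM1⟩
    have hp01 : ∀ i c, 0 ≤ p i c ∧ p i c ≤ 1 := fun i c =>
      ⟨EB_nonneg hpro (fun S _ => by split_ifs <;> norm_num),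
        (EB_mono hpro (fun S _ => by split_ifs <;> norm_num)).trans (EB_const T π 1).le⟩
    set βn : ℕ → ℝ := fun θ => ∑ i, A b0.1 i * EB T π (fun S =>
          if θ < w b0.1 i - pr (yw M B w) S i then (1 : ℝ) else 0) with hβn
    have hβn01 : ∀ θ, 0 ≤ βn θ ∧ βn θ ≤ 1 := by
      intro θ
      have hq : ∀ i, 0 ≤ EB T π (fun S =>
          if θ < w b0.1 i - pr (yw M B w) S i then (1 : ℝ) else 0) ∧ EB T π (fun S =>
          if θ < w b0.1 i - pr (yw M B w) S i then (1 : ℝ) else 0) ≤ 1 := fun i =>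
        ⟨EB_nonneg hpro (fun S _ => by split_ifs <;> norm_num),
          (EB_mono hpro (fun S _ => by split_ifs <;> norm_num)).trans (EB_const T π 1).le⟩
      constructor
      · exact Finset.sum_nonneg (fun i _ => mul_nonneg (hA.1 _ _) (hq i).1)
      · calc βn θ ≤ ∑ i, A b0.1 i * 1 :=
              Finset.sum_le_sum (fun i _ => mul_le_mul_of_nonneg_left (hq i).2 (hA.1 _ _))
          _ = 1 := by simp only [mul_one]; exact hA.2.1 b0.1
    have hms : ∀ j θ, ∑ e ∈ (mfI B b0).filter (fun e => θ < yw M B w e j), piF A b0 p π e =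
        A b0.1 j / M * (if θ < w b0.1 j then u0 + v0 * (1 - βn (w b0.1 j - 1 - θ)) else 0) :=
      fun j θ => mf_sum A hA w hw π T b0 j θ
    -- the new family
    set T0n := T0 ∪ mfI B b0 with hT0n
    have hdF0 : Disjoint T0 (mfI B b0) :=
      Finset.disjoint_of_subset_left Finset.subset_union_left hdF
    have hsumn : ∀ (P : Lam n M B → Prop) [DecidablePred P],
        ∑ e ∈ T0n.filter P, piF A b0 p π e
          = ∑ e ∈ T0.filter P, π e + ∑ e ∈ (mfI B b0).filter P, piF A b0 p π e := by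
      intro P _
      rw [hT0n, Finset.filter_union, Finset.sum_union (Finset.disjoint_filter_filter hdF0)]
      congr 1
      refine Finset.sum_congr rfl (fun e he => ?_)
      exact piF_old A b0 p π e (Finset.disjoint_left.1 hdF0 (Finset.mem_filter.1 he).1)
    obtain ⟨β', hβ'01, hβ'⟩ := ih Rem' (by rw [hRem', Finset.card_erase_of_mem hb0]; omega)
      T0n (piF A b0 p π)
      (by
        intro e he
        rw [hT0n, Finset.mem_union] at he
        rcases he with he | he
        · obtain ⟨b, κ, h, hbn⟩ := hT0 e he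
          exact ⟨b, κ, h, fun h' => hbn (Finset.mem_of_mem_erase h')⟩
        · rw [mem_mfI] at he
          obtain ⟨κ, rfl⟩ := he
          exact ⟨b0, κ, rfl, Finset.notMem_erase b0 Rem⟩)
      (fun b κ => hπ b κ)
      (by
        intro e he
        rw [hT0n, Finset.mem_union] at he
        rcases he with he | he
        · rw [piF_old A b0 p π e (Finset.disjoint_left.1 hdF0 he)]
          exact hb e he
        · rw [mem_mfI] at he
          obtain ⟨κ, rfl⟩ := he
          rw [piF_new]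
          exact pmfv_bd hA b0 p hp01 κ)
      (by
        intro j
        rw [hsumn (fun e => yw M B w e j ≠ 0)]
        have h1 : ∑ e ∈ (mfI B b0).filter (fun e => yw M B w e j ≠ 0), piF A b0 p π e
            ≤ (u0 + v0) / M * A b0.1 j := by
          have h2 : (mfI B b0).filter (fun e => yw M B w e j ≠ 0)
              = (mfI B b0).filter (fun e => 0 < yw M B w e j) := by
            apply Finset.filter_congr
            intro e _
            omega
          rw [h2, hms j 0]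
          have h3 := hA.1 b0.1 j
          have h4 : 0 ≤ A b0.1 j / M := div_nonneg h3 hMr.le
          have h5 : (if 0 < w b0.1 j then u0 + v0 * (1 - βn (w b0.1 j - 1 - 0)) else 0)
              ≤ u0 + v0 := by
            split_ifs
            · have := (hβn01 (w b0.1 j - 1 - 0)).1
              nlinarith
            · unfold u0 v0
              norm_num
          calc _ ≤ A b0.1 j / M * (u0 + v0) := mul_le_mul_of_nonneg_left h5 h4
            _ = _ := by ring
        have h2 := htouch j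
        rw [hRsum (fun b => A b.1 j), mul_add] at h2
        linarith)
    have hset : T0n ∪ Rem'.biUnion (realI B) = T ∪ mfI B b0 := by
      rw [hT0n, hTdef]
      ext e
      simp only [Finset.mem_union]
      tauto
    have hset2 : T0 ∪ Rem.biUnion (realI B) = T ∪ realI B b0 := by
      rw [hTdef, ← Finset.insert_erase hb0, Finset.biUnion_insert]
      ext e
      simp only [Finset.mem_union, hRem']
      tauto
    rw [hset] at hβ'
    refine ⟨fun k t θ => if (k, t) = b0 then βn θ else β' k t θ, fun k t θ => ?_, ?_⟩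
    · show 0 ≤ (if (k, t) = b0 then βn θ else β' k t θ) ∧
        (if (k, t) = b0 then βn θ else β' k t θ) ≤ 1
      split_ifs
      · exact hβn01 θ
      · exact hβ'01 k t θ
    rw [hset2]
    refine le_trans ?_ hstep
    refine le_trans ?_ (add_le_add hβ' (le_refl _))
    have hb0e : ((b0.1, b0.2) : Blk n M) = b0 := rfl
    have hnew : ∀ b ∈ Rem', ¬ ((b.1, b.2) : Blk n M) = b0 := fun b hbR =>
      Finset.ne_of_mem_erase hbR
    have e1 : ∀ j θ, ∑ e ∈ T0n.filter (fun e => θ < yw M B w e j), piF A b0 p π e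
        + ∑ b ∈ Rem', A b.1 j / M *
          (if θ < w b.1 j then u0 + v0 * (1 - β' b.1 b.2 (w b.1 j - 1 - θ)) else 0)
        = ∑ e ∈ T0.filter (fun e => θ < yw M B w e j), π e
        + ∑ b ∈ Rem, A b.1 j / M *
          (if θ < w b.1 j then u0 + v0 * (1 - (if (b.1, b.2) = b0 then βn (w b.1 j - 1 - θ)
            else β' b.1 b.2 (w b.1 j - 1 - θ))) else 0) := by
      intro j θ
      rw [hsumn (fun e => θ < yw M B w e j), hms j θ, hRsum, if_pos hb0e, add_assoc]
      congr 2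
      refine Finset.sum_congr rfl (fun b hbR => ?_)
      rw [if_neg (hnew b hbR)]
    simp only [e1]
    have e2 : ∑ b ∈ Rem, 1 / (M : ℝ) * (v0 / 2 * ∑ θ ∈ range B,
          (if (b.1, b.2) = b0 then βn θ else β' b.1 b.2 θ) ^ 2
          + Lf (((M : ℝ) - (b.2 : ℕ)) / M) * ∑ j, A b.1 j ^ 2 * (w b.1 j : ℝ)
          - 2 / M * ∑ j, A b.1 j * (w b.1 j : ℝ))
        = 1 / (M : ℝ) * (v0 / 2 * ∑ θ ∈ range B, (βn θ) ^ 2
          + Lf s * ∑ j, A b0.1 j ^ 2 * (w b0.1 j : ℝ) - 2 / M * ∑ j, A b0.1 j * (w b0.1 j : ℝ))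
        + ∑ b ∈ Rem', 1 / (M : ℝ) * (v0 / 2 * ∑ θ ∈ range B, (β' b.1 b.2 θ) ^ 2
          + Lf (((M : ℝ) - (b.2 : ℕ)) / M) * ∑ j, A b.1 j ^ 2 * (w b.1 j : ℝ)
          - 2 / M * ∑ j, A b.1 j * (w b.1 j : ℝ)) := by
      rw [hRsum]
      congr 1
      · simp only [if_pos hb0e]
        rfl
      · refine Finset.sum_congr rfl (fun b hbR => ?_)
        simp only [if_neg (hnew b hbR)]
    rw [e2]
    apply le_of_eq
    ring

/-- integer weights -/
theorem fin_proof (hOPI : Stmt_OPI) (hUPP : Stmt_UPP) (hLOW : Stmt_LOW) (hCPS : Stmt_CPS)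
    (hHYB : Stmt_HYB) (hOPK : Stmt_OPK) (hCOV : Stmt_COV) (hCON : Stmt_CON)
    (hLTW : Stmt_LTW) (hRMI : Stmt_RMI) (hALG : Stmt_ALG) (hNTA : Stmt_NTA) (hNTD : Stmt_NTD)
    (hSIN : Stmt_SIN) (hEVL : Stmt_EVL) : Stmt_FIN := by
  intro n A w hA
  obtain ⟨B, hB⟩ : ∃ B, ∀ k j, w k j ≤ B := by
    refine ⟨univ.sup (fun e : Fin n × Fin n => w e.1 e.2), fun k j => ?_⟩
    exact Finset.le_sup (f := fun e : Fin n × Fin n => w e.1 e.2) (Finset.mem_univ (k, j))
  set M : ℕ := 100000 with hMdef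
  have hM : 100000 ≤ M := le_refl _
  have hM0 : 0 < M := by omega
  have hMr : (0 : ℝ) < (M : ℝ) := by exact_mod_cast hM0
  set π : Lam n M B → ℝ := fun e => match e with
    | Sum.inr (b, Sum.inl κ) => piR A b κ
    | _ => 0 with hπdef
  have hπ : ∀ b κ, π (Sum.inr (b, Sum.inl κ)) = piR A b κ := fun b κ => rfl
  have h1 := rows_to_items hOPI hUPP hCPS hHYB hOPK hM0 hA w π hπ
  obtain ⟨β, hβ01, hβ⟩ := lind hUPP hLOW hCOV hCON hLTW hRMI hALG hNTA hNTD hSIN hM hA w hB _
    (univ : Finset (Blk n M)) rfl ∅ π (by simp) hπ (by simp) (by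
      intro j
      have h2 : ∑ b : Blk n M, A b.1 j = (M : ℝ) := by
        rw [Fintype.sum_prod_type]
        simp only [Finset.sum_const, Finset.card_univ, Fintype.card_fin, nsmul_eq_mul]
        rw [← Finset.mul_sum, hA.2.2, mul_one]
      rw [h2]
      simp only [Finset.filter_empty, Finset.sum_empty, zero_add]
      rw [div_mul_cancel₀ _ (ne_of_gt hMr)])
  rw [Finset.empty_union] at hβ
  refine le_trans ?_ (hβ.trans h1)
  refine (hEVL n M B A w β hA hM hB hβ01).trans (le_of_eq ?_)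
  simp only [Finset.filter_empty, Finset.sum_empty, zero_add, Fintype.sum_prod_type]

end FIN_

end

end Pool.Agent.CGM
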