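import Pool.Agent.CGM.Stmts

/-!
# CGM, module HYB: rows are replaced one by one
-/

set_option autoImplicit false

open Finset
open scoped Classical

namespace Pool.Agent.CGM

namespace HYB_

theorem reindex {n : ℕ} (A : Fin n → Fin n → ℝ) (k : Fin n) (T : Finset (Fin n))
    (G : Finset (Fin n × Fin n) → ℝ) :
    EB (T.image (fun j => (k, j))) (fun e : Fin n × Fin n => A e.1 e.2) G =
      EB T (A k) (fun S => G (S.image (fun j => (k, j)))) := by
  induction T using Finset.induction_on generalizing G with
  | empty => simp
  | insert j T hj ih =>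
    have h1 : (k, j) ∉ T.image (fun j => (k, j)) := by
      intro h
      obtain ⟨j', hj', he⟩ := Finset.mem_image.1 h
      rw [Prod.mk.injEq] at he
      exact hj (he.2 ▸ hj')
    rw [Finset.image_insert, EB_insert h1, EB_insert hj, ih, ih]
    congr 2
    refine EB_congr (fun _ _ => rfl) (fun S _ => ?_)
    rw [Finset.image_insert]

end HYB_

open HYB_ in
theorem hyb_proof : Stmt_HYB := by
  intro n A Λ _ _ ρ D π F hA hρ hρD hDD hPro hyp
  set A' : Fin n × Fin n → ℝ := fun e => A e.1 e.2 with hA'
  have hPA : ∀ k, Pro univ (A k) := fun k j _ => hA k j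
  have key : ∀ (ks : Finset (Fin n)) (S0 : Finset Λ), (∀ k ∈ ks, Disjoint S0 (D k)) →
      (∀ k ∈ ks, ∀ N, ρ k N ∉ S0) →
      EB (ks.biUnion D) π (fun S => F (S0 ∪ S)) ≤
        EB (ks ×ˢ univ) A' (fun R => F (S0 ∪ ks.image
          (fun k => ρ k (univ.filter (fun j => (k, j) ∈ R))))) := by
    intro ks
    induction ks using Finset.induction_on with
    | empty =>
      intro S0 _ _
      simp
    | insert k ks hk ih =>
      intro S0 h1 h2
      have hkD : Disjoint (ks.biUnion D) (D k) := by
        rw [Finset.disjoint_biUnion_left]
        intro k' hk'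
        exact hDD k' k (fun e => hk (e ▸ hk'))
      have hS1 : Disjoint S0 (D k) := h1 k (Finset.mem_insert_self k ks)
      have hS2 : ∀ N, ρ k N ∉ S0 := h2 k (Finset.mem_insert_self k ks)
      have hProU : Pro (ks.biUnion D) π := by
        intro e he
        obtain ⟨k', _, hk''⟩ := Finset.mem_biUnion.1 he
        exact hPro k' e hk''
      have hProA : Pro (ks ×ˢ univ) A' := fun e _ => hA e.1 e.2
      -- left side
      have e1 : EB ((insert k ks).biUnion D) π (fun S => F (S0 ∪ S)) =
          EB (ks.biUnion D) π (fun S => EB (D k) π (fun S' => F ((S0 ∪ S) ∪ S'))) := by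
        rw [Finset.biUnion_insert, Finset.union_comm, EB_union hkD]
        refine EB_congr (fun _ _ => rfl) (fun S _ => ?_)
        refine EB_congr (fun _ _ => rfl) (fun S' _ => ?_)
        rw [Finset.union_assoc]
      have e2 : EB (ks.biUnion D) π (fun S => EB (D k) π (fun S' => F ((S0 ∪ S) ∪ S'))) ≤
          EB (ks.biUnion D) π (fun S => EB univ (A k)
            (fun N => F (insert (ρ k N) (S0 ∪ S)))) := by
        refine EB_mono hProU (fun S hS => ?_)
        apply hyp k (S0 ∪ S)
        · rw [Finset.disjoint_union_left]
          exact ⟨hS1, Finset.disjoint_of_subset_left hS hkD⟩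
        · intro N hN
          rcases Finset.mem_union.1 hN with h | h
          · exact hS2 N h
          · obtain ⟨k', _, hk''⟩ := Finset.mem_biUnion.1 (hS h)
            exact hρD k k' N hk''
      have e3 : EB (ks.biUnion D) π (fun S => EB univ (A k)
            (fun N => F (insert (ρ k N) (S0 ∪ S)))) =
          EB univ (A k) (fun N => EB (ks.biUnion D) π
            (fun S => F (insert (ρ k N) S0 ∪ S))) := by
        rw [EB_comm]
        refine EB_congr (fun _ _ => rfl) (fun N _ => ?_)
        refine EB_congr (fun _ _ => rfl) (fun S _ => ?_)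
        rw [Finset.insert_union]
      have e4 : EB univ (A k) (fun N => EB (ks.biUnion D) π
            (fun S => F (insert (ρ k N) S0 ∪ S))) ≤
          EB univ (A k) (fun N => EB (ks ×ˢ univ) A' (fun R => F (insert (ρ k N) S0 ∪ ks.image
            (fun k => ρ k (univ.filter (fun j => (k, j) ∈ R)))))) := by
        refine EB_mono (hPA k) (fun N _ => ?_)
        apply ih (insert (ρ k N) S0)
        · intro k' hk'
          rw [Finset.disjoint_insert_left]
          exact ⟨hρD k k' N, h1 k' (Finset.mem_insert_of_mem hk')⟩
        · intro k' hk' N' hN'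
          rcases Finset.mem_insert.1 hN' with h | h
          · exact hk ((hρ k' N' k N h).1 ▸ hk')
          · exact h2 k' (Finset.mem_insert_of_mem hk') N' h
      -- right side
      have hprod : (insert k ks) ×ˢ (univ : Finset (Fin n)) =
          (univ.image (fun j => (k, j))) ∪ (ks ×ˢ univ) := by
        ext ⟨a, b⟩
        simp only [Finset.mem_product, Finset.mem_insert, Finset.mem_univ, and_true,
          Finset.mem_union, Finset.mem_image, true_and, Prod.mk.injEq]
        constructor
        · rintro (h | h)
          · exact Or.inl ⟨b, h.symm, rfl⟩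
          · exact Or.inr h
        · rintro (⟨j, h, _⟩ | h)
          · exact Or.inl h.symm
          · exact Or.inr h
      have hdis : Disjoint ((univ : Finset (Fin n)).image (fun j => (k, j))) (ks ×ˢ univ) := by
        rw [Finset.disjoint_left]
        rintro ⟨a, b⟩ hab hab'
        obtain ⟨j, _, he⟩ := Finset.mem_image.1 hab
        rw [Prod.mk.injEq] at he
        exact hk (he.1 ▸ (Finset.mem_product.1 hab').1)
      have e5 : EB ((insert k ks) ×ˢ univ) A' (fun R => F (S0 ∪ (insert k ks).image
            (fun k => ρ k (univ.filter (fun j => (k, j) ∈ R))))) =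
          EB univ (A k) (fun N => EB (ks ×ˢ univ) A' (fun R => F (insert (ρ k N) S0 ∪ ks.image
            (fun k => ρ k (univ.filter (fun j => (k, j) ∈ R)))))) := by
        rw [hprod, EB_union hdis, hA', reindex]
        refine EB_congr (fun _ _ => rfl) (fun N _ => ?_)
        refine EB_congr (fun _ _ => rfl) (fun R hR => ?_)
        congr 1
        have r1 : univ.filter (fun j => (k, j) ∈ N.image (fun j => (k, j)) ∪ R) = N := by
          ext j
          rw [Finset.mem_filter, Finset.mem_union, Finset.mem_image]
          constructor
          · rintro ⟨_, ⟨a, ha, hb⟩ | h⟩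
            · exact (Prod.mk.inj hb).2 ▸ ha
            · exact absurd (Finset.mem_product.1 (hR h)).1 hk
          · intro h
            exact ⟨Finset.mem_univ _, Or.inl ⟨j, h, rfl⟩⟩
        have r2 : ∀ k' ∈ ks, univ.filter (fun j => (k', j) ∈ N.image (fun j => (k, j)) ∪ R) =
            univ.filter (fun j => (k', j) ∈ R) := by
          intro k' hk'
          ext j
          rw [Finset.mem_filter, Finset.mem_filter, Finset.mem_union, Finset.mem_image]
          constructor
          · rintro ⟨_, ⟨a, _, hb⟩ | h⟩
            · exact absurd ((Prod.mk.inj hb).1 ▸ hk') hk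
            · exact ⟨Finset.mem_univ _, h⟩
          · rintro ⟨_, h⟩
            exact ⟨Finset.mem_univ _, Or.inr h⟩
        rw [Finset.image_insert, r1, Finset.insert_union, Finset.union_insert]
        congr 2
        apply Finset.image_congr
        intro k' hk'
        show ρ k' (univ.filter (fun j => (k', j) ∈ N.image (fun j => (k, j)) ∪ R)) =
          ρ k' (univ.filter (fun j => (k', j) ∈ R))
        rw [r2 k' (Finset.mem_coe.1 hk')]
      rw [e1, e5]
      exact e2.trans (e3 ▸ e4)
  have h0 := key univ ∅ (fun k _ => Finset.disjoint_empty_left _) (fun k _ N => by simp)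
  simp only [Finset.empty_union, Finset.univ_product_univ] at h0
  exact h0

end Pool.Agent.CGM
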