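import Pool.Agent.CGM.Stmts

/-!
# ITG: reduction to integer weights
-/

set_option autoImplicit false

open Finset
open scoped Classical

namespace Pool.Agent.CGM

namespace ITG_

lemma A_le_one {n : ℕ} {A : Fin n → Fin n → ℝ} (hA : DS A) (i j : Fin n) : A i j ≤ 1 := by
  rw [← hA.2.1 i]
  exact Finset.single_le_sum (f := fun j => A i j) (fun j _ => hA.1 i j) (Finset.mem_univ j)

lemma prob_nonneg {n : ℕ} {A : Fin n → Fin n → ℝ} (hA : DS A) (R : Finset (Fin n × Fin n)) :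
    0 ≤ prob A R := by
  unfold prob
  refine mul_nonneg (Finset.prod_nonneg (fun e _ => hA.1 _ _)) (Finset.prod_nonneg (fun e _ => ?_))
  have := A_le_one hA e.1 e.2
  linarith

lemma maxW_le {n : ℕ} {W W' : Fin n → Fin n → ℝ} (N : ℝ)
    (hW : ∀ i j, W' i j ≤ N * W i j) (hN : 0 ≤ N) (R : Finset (Fin n × Fin n)) :
    maxW W' R ≤ N * maxW W R := by
  unfold maxW
  refine Finset.sup'_le _ _ (fun M hM => ?_)
  calc ∑ e ∈ M, W' e.1 e.2 ≤ ∑ e ∈ M, N * W e.1 e.2 := Finset.sum_le_sum (fun e _ => hW _ _)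
    _ = N * ∑ e ∈ M, W e.1 e.2 := by rw [Finset.mul_sum]
    _ ≤ _ := mul_le_mul_of_nonneg_left
        (Finset.le_sup' (f := fun M : Finset (Fin n × Fin n) => ∑ e ∈ M, W e.1 e.2) hM) hN

lemma Phi_le {n : ℕ} {A W W' : Fin n → Fin n → ℝ} (hA : DS A) (N : ℝ)
    (hW : ∀ i j, W' i j ≤ N * W i j) (hN : 0 ≤ N) : Phi A W' ≤ N * Phi A W := by
  unfold Phi
  rw [Finset.mul_sum]
  refine Finset.sum_le_sum (fun R _ => ?_)
  have := mul_le_mul_of_nonneg_left (maxW_le N hW hN R) (prob_nonneg hA R)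
  linarith

end ITG_

theorem itg_proof : Stmt_ITG := by
  intro c hc hint n A W hA hW
  by_contra hcon
  push_neg at hcon
  set S : ℝ := ∑ i, ∑ j, A i j with hS
  set T : ℝ := ∑ i, ∑ j, A i j * W i j with hT
  have hd : 0 < c * T - Phi A W := by linarith
  obtain ⟨N, hN⟩ := exists_nat_gt (c * S / (c * T - Phi A W))
  have hN1 : c * S < N * (c * T - Phi A W) := by
    rwa [div_lt_iff₀ hd] at hN
  have hN0 : (0 : ℝ) ≤ N := Nat.cast_nonneg N
  have h1 := hint n A (fun i j => ⌊(N : ℝ) * W i j⌋₊) hA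
  have h2 : Phi A (fun i j => ((⌊(N : ℝ) * W i j⌋₊ : ℕ) : ℝ)) ≤ N * Phi A W :=
    ITG_.Phi_le hA (N : ℝ) (fun i j => Nat.floor_le (mul_nonneg hN0 (hW i j))) hN0
  have h3 : (N : ℝ) * T - S ≤ ∑ i, ∑ j, A i j * ((⌊(N : ℝ) * W i j⌋₊ : ℕ) : ℝ) := by
    rw [hT, hS, Finset.mul_sum, ← Finset.sum_sub_distrib]
    refine Finset.sum_le_sum (fun i _ => ?_)
    rw [Finset.mul_sum, ← Finset.sum_sub_distrib]
    refine Finset.sum_le_sum (fun j _ => ?_)
    have h4 : (N : ℝ) * W i j - 1 ≤ ((⌊(N : ℝ) * W i j⌋₊ : ℕ) : ℝ) := by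
      have := Nat.lt_floor_add_one ((N : ℝ) * W i j)
      linarith
    have := mul_le_mul_of_nonneg_left h4 (hA.1 i j)
    nlinarith
  have h5 := mul_le_mul_of_nonneg_left h3 hc
  nlinarith

end Pool.Agent.CGM
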