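import Pool.Agent.CGM.Stmts

/-!
# CGM, module JEN: Jensen inequality for `1 - exp (-c)` with total weight at most one
-/

set_option autoImplicit false

open Finset
open scoped Classical

namespace Pool.Agent.CGM

noncomputable section

theorem jen_proof : Stmt_JEN := by
  intro ι s l c hl hs hc
  -- tangent line at the point `-a`, `a = ∑ l c`
  set a : ℝ := ∑ i ∈ s, l i * c i with ha
  have ha0 : 0 ≤ a := sum_nonneg (fun i hi => mul_nonneg (hl i hi) (hc i hi))
  have key : ∀ x : ℝ, Real.exp (-a) * (1 + a - x) ≤ Real.exp (-x) := by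
    intro x
    have h1 : a - x + 1 ≤ Real.exp (a - x) := Real.add_one_le_exp (a - x)
    have h2 : Real.exp (-x) = Real.exp (-a) * Real.exp (a - x) := by
      rw [← Real.exp_add]
      congr 1
      ring
    rw [h2]
    apply mul_le_mul_of_nonneg_left _ (Real.exp_pos _).le
    linarith
  have h1 : ∑ i ∈ s, l i * (Real.exp (-a) * (1 + a - c i)) ≤ ∑ i ∈ s, l i * Real.exp (-c i) :=
    sum_le_sum (fun i hi => mul_le_mul_of_nonneg_left (key (c i)) (hl i hi))
  have h2 : ∑ i ∈ s, l i * (Real.exp (-a) * (1 + a - c i))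
      = Real.exp (-a) * ((1 + a) * ∑ i ∈ s, l i - a) := by
    rw [ha, mul_sum, ← sum_sub_distrib, mul_sum]
    apply sum_congr rfl
    intro i _
    ring
  have h3 : ∑ i ∈ s, l i * (1 - Real.exp (-c i)) = ∑ i ∈ s, l i - ∑ i ∈ s, l i * Real.exp (-c i) := by
    rw [← sum_sub_distrib]
    apply sum_congr rfl
    intro i _
    ring
  have h4 := key 0
  rw [neg_zero, Real.exp_zero, sub_zero] at h4
  have h5 : 0 ≤ 1 - ∑ i ∈ s, l i := by linarith
  have h6 := mul_le_mul_of_nonneg_left h4 h5
  rw [h3]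
  rw [h2] at h1
  nlinarith [h1, h6]

end

end Pool.Agent.CGM
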