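import Pool.Agent.CGM.Stmts

/-!
# CGM, module LOW: lower bound for adding independent items
-/

set_option autoImplicit false

open Finset
open scoped Classical

namespace Pool.Agent.CGM

namespace LOW_

lemma one_sub_sum_le {Λ : Type} [DecidableEq Λ] (π : Λ → ℝ) (T : Finset Λ) (h : Pro T π) :
    1 - ∑ e ∈ T, π e ≤ ∏ e ∈ T, (1 - π e) := by
  induction T using Finset.induction_on with
  | empty => simp
  | insert e T he ih =>
    have hT : Pro T π := h.mono (Finset.subset_insert e T)
    have h1 := ih hT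
    have he' := h e (Finset.mem_insert_self e T)
    have h0 : ∏ x ∈ T, (1 - π x) ≤ 1 :=
      Finset.prod_le_one (fun x hx => by linarith [(hT x hx).2]) (fun x hx => by linarith [(hT x hx).1])
    rw [Finset.sum_insert he, Finset.prod_insert he]
    nlinarith [mul_nonneg he'.1 (sub_nonneg.2 h0)]

lemma EB_single {Λ : Type} [DecidableEq Λ] (π : Λ → ℝ) (T : Finset Λ) (g : ℝ) :
    EB T π (fun S => if S = ∅ then g else 0) = (∏ e ∈ T, (1 - π e)) * g := by
  unfold EB
  rw [Finset.sum_eq_single ∅]
  · simp [wB]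
  · intro S _ hS
    simp [hS]
  · intro h
    exact absurd (Finset.empty_mem_powerset T) h

end LOW_

open LOW_ in
theorem low_proof (h1 : Stmt_OPI) : Stmt_LOW := by
  intro Λ J _ _ _ _ y S0 D π
  induction D using Finset.induction_on with
  | empty => intro _ _ _; simp
  | insert e T he ih =>
    intro hd hpro hsum
    have hT : Pro T π := hpro.mono (Finset.subset_insert e T)
    have hdT : Disjoint S0 T := Finset.disjoint_of_subset_right (Finset.subset_insert e T) hd
    have heS : e ∉ S0 := fun h => Finset.disjoint_left.1 hd h (Finset.mem_insert_self e T)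
    have he' := hpro e (Finset.mem_insert_self e T)
    rw [Finset.sum_insert he] at hsum ⊢
    rw [Finset.sum_insert he]
    have hs0 : 0 ≤ ∑ x ∈ T, π x := Finset.sum_nonneg (fun x hx => (hT x hx).1)
    have ihT := ih hdT hT (by linarith)
    rw [EB_insert he]
    have hg0 : (0 : ℝ) ≤ (gain y S0 e : ℝ) := Nat.cast_nonneg _
    have key : EB T π (fun S => (opt y (S0 ∪ S) univ : ℝ)) +
        (∏ x ∈ T, (1 - π x)) * (gain y S0 e : ℝ) ≤
        EB T π (fun S => (opt y (S0 ∪ insert e S) univ : ℝ)) := by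
      rw [← EB_single, ← EB_add]
      refine EB_mono hT (fun S _ => ?_)
      by_cases hS : S = ∅
      · subst hS
        rw [if_pos rfl, Finset.union_empty]
        have hi : S0 ∪ insert e (∅ : Finset Λ) = insert e S0 := by
          rw [Finset.union_insert, Finset.union_empty]
        rw [hi, h1 Λ J y S0 e heS, Nat.cast_add]
      · rw [if_neg hS, add_zero]
        exact_mod_cast opt_mono y (Finset.union_subset_union_right (Finset.subset_insert e S))
          (Finset.Subset.refl univ)
    have hp := one_sub_sum_le π T hT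
    have hpos : 0 ≤ ∑ x ∈ T, π x * (gain y S0 x : ℝ) :=
      Finset.sum_nonneg (fun x hx => mul_nonneg (hT x hx).1 (Nat.cast_nonneg _))
    have e1 : π e * ((1 - ∑ x ∈ T, π x) * (gain y S0 e : ℝ)) ≤
        π e * ((∏ x ∈ T, (1 - π x)) * (gain y S0 e : ℝ)) :=
      mul_le_mul_of_nonneg_left (mul_le_mul_of_nonneg_right hp hg0) he'.1
    have e2 := mul_le_mul_of_nonneg_left key he'.1
    have e3 : 0 ≤ π e * (π e * (gain y S0 e : ℝ)) := mul_nonneg he'.1 (mul_nonneg he'.1 hg0)
    have e4 : 0 ≤ π e * ∑ x ∈ T, π x * (gain y S0 x : ℝ) := mul_nonneg he'.1 hpos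
    have goal_expand : (1 - (π e + ∑ x ∈ T, π x)) *
        (π e * (gain y S0 e : ℝ) + ∑ x ∈ T, π x * (gain y S0 x : ℝ)) =
        π e * ((1 - ∑ x ∈ T, π x) * (gain y S0 e : ℝ)) - π e * (π e * (gain y S0 e : ℝ)) +
        (1 - ∑ x ∈ T, π x) * ∑ x ∈ T, π x * (gain y S0 x : ℝ) -
        π e * ∑ x ∈ T, π x * (gain y S0 x : ℝ) := by ring
    rw [goal_expand]
    rw [mul_add] at e2
    linarith

end Pool.Agent.CGM
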