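import Pool.Agent.CGM.Stmts

/-!
# Module LTW of the project CGM (MP_3bdb72_co): Schur test and Cauchy-Schwarz
-/

set_option autoImplicit false

open Finset
open scoped Classical

namespace Pool.Agent.CGM

namespace LTW_

lemma swap {J : Type} [Fintype J] [DecidableEq J] (F : J → J → ℝ) :
    ∑ a, ∑ c ∈ univ.erase a, F a c = ∑ c, ∑ a ∈ univ.erase c, F a c := by
  refine Finset.sum_comm' (fun a c => ?_)
  simp only [Finset.mem_univ, Finset.mem_erase, true_and, and_true]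
  exact ⟨fun h => Ne.symm h, fun h => Ne.symm h⟩

/-- Schur test -/
lemma schur {J : Type} [Fintype J] [DecidableEq J] (Q : J → J → ℝ) (q : ℝ) (hq : 0 ≤ q)
    (hQ : ∀ a b, 0 ≤ Q a b) (hr : ∀ a, ∑ c ∈ univ.erase a, Q a c ≤ q)
    (hc : ∀ c, ∑ a ∈ univ.erase c, Q a c ≤ q) (z : J → ℝ) :
    ∑ a, (∑ c ∈ univ.erase a, Q a c * z c) ^ 2 ≤ q ^ 2 * ∑ c, z c ^ 2 := by
  have h1 : ∀ a, (∑ c ∈ univ.erase a, Q a c * z c) ^ 2 ≤
      q * ∑ c ∈ univ.erase a, Q a c * z c ^ 2 := by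
    intro a
    have h2 : (∑ c ∈ univ.erase a, Q a c * z c) ^ 2 ≤
        (∑ c ∈ univ.erase a, Q a c) * ∑ c ∈ univ.erase a, Q a c * z c ^ 2 :=
      Finset.sum_sq_le_sum_mul_sum_of_sq_le_mul _ (fun c _ => hQ a c)
        (fun c _ => mul_nonneg (hQ a c) (sq_nonneg _)) (fun c _ => le_of_eq (by ring))
    have h3 : 0 ≤ ∑ c ∈ univ.erase a, Q a c * z c ^ 2 :=
      Finset.sum_nonneg (fun c _ => mul_nonneg (hQ a c) (sq_nonneg _))
    exact h2.trans (mul_le_mul_of_nonneg_right (hr a) h3)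
  calc ∑ a, (∑ c ∈ univ.erase a, Q a c * z c) ^ 2
      ≤ ∑ a, q * ∑ c ∈ univ.erase a, Q a c * z c ^ 2 := Finset.sum_le_sum (fun a _ => h1 a)
    _ = q * ∑ c, z c ^ 2 * ∑ a ∈ univ.erase c, Q a c := by
        rw [← Finset.mul_sum, swap (fun a c => Q a c * z c ^ 2)]
        congr 1
        refine Finset.sum_congr rfl (fun c _ => ?_)
        rw [Finset.mul_sum]
        exact Finset.sum_congr rfl (fun a _ => by ring)
    _ ≤ q * ∑ c, z c ^ 2 * q :=
        mul_le_mul_of_nonneg_left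
          (Finset.sum_le_sum (fun c _ => mul_le_mul_of_nonneg_left (hc c) (sq_nonneg _))) hq
    _ = q ^ 2 * ∑ c, z c ^ 2 := by
        rw [← Finset.sum_mul]
        ring

end LTW_

theorem ltw_proof : Stmt_LTW := by
  intro J _ _ Q P q hq hq1 hQ hr hc hP hPd hPQ α hα
  set β : J → ℝ := fun a => ∑ b ∈ univ.erase a, P a b * α b with hβ
  have hβ0 : ∀ a, 0 ≤ β a := fun a =>
    Finset.sum_nonneg (fun b _ => mul_nonneg (hP a b) (hα b))
  have hβ1 : ∀ a, β a ≤ ∑ c ∈ univ.erase a, Q a c * (α c + β c) := by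
    intro a
    have e1 : β a ≤ ∑ b ∈ univ.erase a, (∑ c ∈ univ.erase a, Q a c * P c b) * α b :=
      Finset.sum_le_sum (fun b hb =>
        mul_le_mul_of_nonneg_right (hPQ a b (Ne.symm (Finset.ne_of_mem_erase hb))) (hα b))
    refine e1.trans ?_
    have e2 : ∑ b ∈ univ.erase a, (∑ c ∈ univ.erase a, Q a c * P c b) * α b =
        ∑ c ∈ univ.erase a, Q a c * ∑ b ∈ univ.erase a, P c b * α b := by
      simp_rw [Finset.sum_mul, Finset.mul_sum]
      rw [Finset.sum_comm]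
      exact Finset.sum_congr rfl (fun c _ => Finset.sum_congr rfl (fun b _ => by ring))
    rw [e2]
    refine Finset.sum_le_sum (fun c _ => mul_le_mul_of_nonneg_left ?_ (hQ a c))
    have e3 : ∑ b ∈ univ.erase a, P c b * α b ≤ ∑ b, P c b * α b :=
      Finset.sum_le_sum_of_subset_of_nonneg (Finset.erase_subset a univ)
        (fun b _ _ => mul_nonneg (hP c b) (hα b))
    have e4 : ∑ b, P c b * α b = α c + β c := by
      rw [← Finset.add_sum_erase univ _ (mem_univ c), hPd c, one_mul]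
    linarith
  have hB : ∑ a, β a ^ 2 ≤ q ^ 2 * ∑ a, (α a + β a) ^ 2 := by
    refine le_trans (Finset.sum_le_sum (fun a _ => ?_))
      (LTW_.schur Q q hq hQ hr hc (fun a => α a + β a))
    exact pow_le_pow_left₀ (hβ0 a) (hβ1 a) 2
  have hexp : ∑ a, (α a + β a) ^ 2 = ∑ a, α a ^ 2 + 2 * ∑ a, α a * β a + ∑ a, β a ^ 2 := by
    rw [Finset.mul_sum, ← Finset.sum_add_distrib, ← Finset.sum_add_distrib]
    exact Finset.sum_congr rfl (fun a _ => by ring)
  rw [hexp] at hB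
  have hC : (∑ a, α a * β a) ^ 2 ≤ (∑ a, α a ^ 2) * ∑ a, β a ^ 2 :=
    Finset.sum_mul_sq_le_sq_mul_sq univ α β
  have hC0 : 0 ≤ ∑ a, α a * β a := Finset.sum_nonneg (fun a _ => mul_nonneg (hα a) (hβ0 a))
  have hgoal : ∑ a, ∑ b ∈ univ.erase a, α a * α b * P a b = ∑ a, α a * β a := by
    refine Finset.sum_congr rfl (fun a _ => ?_)
    rw [hβ, Finset.mul_sum]
    exact Finset.sum_congr rfl (fun b _ => by ring)
  rw [hgoal]
  have hA0 : 0 ≤ ∑ a, α a ^ 2 := Finset.sum_nonneg (fun a _ => sq_nonneg _)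
  have hB0 : 0 ≤ ∑ a, β a ^ 2 := Finset.sum_nonneg (fun a _ => sq_nonneg _)
  generalize (∑ a, α a ^ 2) = A at *
  generalize (∑ a, β a ^ 2) = B at *
  generalize (∑ a, α a * β a) = C at *
  set x := Real.sqrt A with hx
  set y := Real.sqrt B with hy
  have hx0 : 0 ≤ x := Real.sqrt_nonneg _
  have hy0 : 0 ≤ y := Real.sqrt_nonneg _
  have hxx : x ^ 2 = A := Real.sq_sqrt hA0
  have hyy : y ^ 2 = B := Real.sq_sqrt hB0
  have hCxy : C ≤ x * y := by
    refine (sq_le_sq₀ hC0 (mul_nonneg hx0 hy0)).1 ?_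
    rw [mul_pow, hxx, hyy]
    exact hC
  have h1 : y ^ 2 ≤ (q * (x + y)) ^ 2 := by
    have : q ^ 2 * (A + 2 * C + B) ≤ q ^ 2 * (x + y) ^ 2 := by
      refine mul_le_mul_of_nonneg_left ?_ (sq_nonneg _)
      have e : (x + y) ^ 2 = x ^ 2 + 2 * (x * y) + y ^ 2 := by ring
      rw [e, hxx, hyy]
      linarith
    rw [hyy, mul_pow]
    exact hB.trans this
  have h2 : y ≤ q * (x + y) :=
    (sq_le_sq₀ hy0 (mul_nonneg hq (add_nonneg hx0 hy0))).1 h1
  have h1q : 0 < 1 - q := by linarith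
  rw [div_mul_eq_mul_div, le_div_iff₀ h1q]
  have h3 : y * (1 - q) ≤ q * x := by linarith
  calc C * (1 - q) ≤ (x * y) * (1 - q) := mul_le_mul_of_nonneg_right hCxy h1q.le
    _ = x * (y * (1 - q)) := by ring
    _ ≤ x * (q * x) := mul_le_mul_of_nonneg_left h3 hx0
    _ = q * A := by rw [← hxx]; ring

end Pool.Agent.CGM
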