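import Pool.Agent.CGM.Stmts

/-!
# CGM : numerical inequality A
-/

set_option autoImplicit false

open Finset
open scoped Classical

namespace Pool.Agent.CGM

namespace NTA_

theorem poly {s : ℝ} (h0 : 0 ≤ s) (h1 : s ≤ 1) :
    v0 / 2 - k0 + v0 / 2 * (v0 * s + (v0 * s) ^ 2 + (v0 * s) ^ 3 + (v0 * s) ^ 4 / (1 - v0)) ≤
      v0 * (r0 + 74 / 1000 * s ^ 4) := by
  have h2 : s ^ 2 ≤ s := by
    rw [pow_two]
    exact mul_le_of_le_one_left h0 h1
  have h3 : s ^ 3 ≤ s := by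
    have e : s ^ 3 = s ^ 2 * s := by ring
    rw [e]
    have := mul_le_of_le_one_right (sq_nonneg s) h1
    linarith
  have h4 : 4 * s - 3 ≤ s ^ 4 := by
    have e : s ^ 4 - (4 * s - 3) = (s - 1) ^ 2 * (s ^ 2 + 2 * s + 3) := by ring
    have : 0 ≤ (s - 1) ^ 2 * (s ^ 2 + 2 * s + 3) := by positivity
    linarith
  unfold v0 k0 r0
  norm_num
  ring_nf
  nlinarith

end NTA_

theorem nta_proof : Stmt_NTA := by
  intro s q hs0 hs1 hq0 hq1
  have hp := NTA_.poly hs0 hs1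
  obtain ⟨c, hc⟩ : ∃ c, c = v0 / 2 - k0 +
    v0 / 2 * (v0 * s + (v0 * s) ^ 2 + (v0 * s) ^ 3 + (v0 * s) ^ 4 / (1 - v0)) := ⟨_, rfl⟩
  have hr : (0 : ℝ) < r0 := by unfold r0; norm_num
  have hv : (0 : ℝ) < v0 := by unfold v0; norm_num
  have hv1 : v0 < 1 := by unfold v0; norm_num
  have hz : v0 * s ≤ v0 := mul_le_of_le_one_right hv.le hs1
  have hz0 : 0 ≤ v0 * s := mul_nonneg hv.le hs0
  have hf : fs s ≤ v0 * s + (v0 * s) ^ 2 + (v0 * s) ^ 3 + (v0 * s) ^ 4 / (1 - v0) := by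
    unfold fs
    have e : v0 * s / (1 - v0 * s) = v0 * s + (v0 * s) ^ 2 + (v0 * s) ^ 3 +
        (v0 * s) ^ 4 / (1 - v0 * s) := by
      have : 1 - v0 * s ≠ 0 := by linarith
      field_simp
      ring
    rw [e]
    have : (v0 * s) ^ 4 / (1 - v0 * s) ≤ (v0 * s) ^ 4 / (1 - v0) :=
      div_le_div_of_nonneg_left (by positivity) (by linarith) (by linarith)
    linarith
  rw [← hc] at hp
  obtain ⟨t, ht⟩ : ∃ t, t = 74 / 1000 * s ^ 4 := ⟨_, rfl⟩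
  have hL : Lf s = v0 / 2 * r0 ^ 2 - c * r0 - v0 / 2 * t ^ 2 := by
    unfold Lf
    rw [hc, ht]
  rw [← ht] at hp
  have h1 : v0 / 2 - k0 + v0 / 2 * fs s ≤ c := by
    rw [hc]
    have := mul_le_mul_of_nonneg_left hf (show 0 ≤ v0 / 2 by linarith)
    linarith
  have h2 : (v0 / 2 - k0 + v0 / 2 * fs s) * q ≤ c * q :=
    mul_le_mul_of_nonneg_right h1 (by linarith)
  have h3 : 0 ≤ (v0 * (r0 + t) - c) * (q - r0) :=
    mul_nonneg (by linarith) (by linarith)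
  have h4 : 0 ≤ v0 / 2 * (q - (r0 + t)) ^ 2 := by positivity
  rw [hL]
  linarith

end Pool.Agent.CGM
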