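import Pool.Agent.CGM.Stmts

/-!
# CGM, module NTB: the average of the polynomial `Lf` is nonnegative
-/

set_option autoImplicit false

open Finset
open scoped Classical

namespace Pool.Agent.CGM

noncomputable section

namespace NTB_

theorem pow_step (n : ℕ) (x : ℝ) (hx : 0 ≤ x) :
    x ^ (n + 1) + (n + 1) * x ^ n ≤ (x + 1) ^ (n + 1) := by
  induction n with
  | zero => simp
  | succ n ih =>
    have h1 : (x + 1) ^ (n + 1 + 1) = (x + 1) ^ (n + 1) * (x + 1) := by ring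
    have h2 : (x ^ (n + 1) + (n + 1) * x ^ n) * (x + 1) ≤ (x + 1) ^ (n + 1) * (x + 1) :=
      mul_le_mul_of_nonneg_right ih (by linarith)
    have h3 : 0 ≤ (n + 1 : ℝ) * x ^ n := by positivity
    have h4 : (x ^ (n + 1) + (n + 1) * x ^ n) * (x + 1) =
        x ^ (n + 1 + 1) + ((n + 1 : ℝ) + 1) * x ^ (n + 1) + (n + 1 : ℝ) * x ^ n := by ring
    push_cast
    rw [h1]
    linarith

theorem sum_pow_le (p M : ℕ) :
    ∑ k ∈ range M, ((k : ℝ) + 1) ^ p ≤ (M : ℝ) ^ (p + 1) / (p + 1) + (M : ℝ) ^ p := by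
  induction M with
  | zero =>
    simp only [range_zero, sum_empty, Nat.cast_zero]
    have : (0 : ℝ) ≤ (0 : ℝ) ^ p := pow_nonneg le_rfl p
    have h2 : (0 : ℝ) ^ (p + 1) / (p + 1) = 0 := by simp
    rw [h2]
    linarith
  | succ M ih =>
    rw [sum_range_succ]
    have h := pow_step p (M : ℝ) (Nat.cast_nonneg M)
    have hp : (0 : ℝ) < (p : ℝ) + 1 := by positivity
    have h2 : (M : ℝ) ^ (p + 1) / (p + 1) + (M : ℝ) ^ p ≤ ((M : ℝ) + 1) ^ (p + 1) / (p + 1) := by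
      rw [le_div_iff₀ hp, add_mul, div_mul_cancel₀ _ hp.ne']
      linarith
    push_cast
    linarith

theorem avg_pow_le (p M : ℕ) (hM : 0 < M) :
    ∑ t ∈ range M, (((M : ℝ) - t) / M) ^ p ≤ (M : ℝ) / (p + 1) + 1 := by
  have hM' : (0 : ℝ) < (M : ℝ) := by exact_mod_cast hM
  have e1 : ∑ t ∈ range M, (((M : ℝ) - t) / M) ^ p
      = (∑ t ∈ range M, ((((M - 1 - t : ℕ) : ℝ) + 1) ^ p)) / (M : ℝ) ^ p := by
    rw [sum_div]
    apply sum_congr rfl
    intro t ht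
    have ht' : t + 1 ≤ M := by
      have := mem_range.1 ht
      omega
    have e2 : ((M - 1 - t : ℕ) : ℝ) + 1 = (M : ℝ) - t := by
      have e3 : M - 1 - t = M - (t + 1) := by omega
      rw [e3, Nat.cast_sub ht']
      push_cast
      ring
    rw [e2, div_pow]
  rw [e1, Finset.sum_range_reflect (fun k => ((k : ℝ) + 1) ^ p) M, div_le_iff₀ (by positivity)]
  have h := sum_pow_le p M
  have e4 : ((M : ℝ) / (p + 1) + 1) * (M : ℝ) ^ p = (M : ℝ) ^ (p + 1) / (p + 1) + (M : ℝ) ^ p := by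
    ring
  rw [e4]
  exact h

end NTB_

theorem ntb_proof : Stmt_NTB := by
  intro M hM
  have hM0 : 0 < M := by omega
  have hMr : (100000 : ℝ) ≤ (M : ℝ) := by exact_mod_cast hM
  have h1 := NTB_.avg_pow_le 1 M hM0
  have h2 := NTB_.avg_pow_le 2 M hM0
  have h3 := NTB_.avg_pow_le 3 M hM0
  have h4 := NTB_.avg_pow_le 4 M hM0
  have h8 := NTB_.avg_pow_le 8 M hM0
  have e : ∑ t ∈ range M, Lf (((M : ℝ) - t) / M)
      = (M : ℝ) * (v0 / 2 * r0 ^ 2 - (v0 / 2 - k0) * r0)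
        - v0 / 2 * v0 * r0 * ∑ t ∈ range M, (((M : ℝ) - t) / M) ^ 1
        - v0 / 2 * v0 ^ 2 * r0 * ∑ t ∈ range M, (((M : ℝ) - t) / M) ^ 2
        - v0 / 2 * v0 ^ 3 * r0 * ∑ t ∈ range M, (((M : ℝ) - t) / M) ^ 3
        - v0 / 2 * (v0 ^ 4 / (1 - v0)) * r0 * ∑ t ∈ range M, (((M : ℝ) - t) / M) ^ 4
        - v0 / 2 * (74 / 1000) ^ 2 * ∑ t ∈ range M, (((M : ℝ) - t) / M) ^ 8 := by
    have e0 : (M : ℝ) * (v0 / 2 * r0 ^ 2 - (v0 / 2 - k0) * r0)
        = ∑ t ∈ range M, (v0 / 2 * r0 ^ 2 - (v0 / 2 - k0) * r0) := by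
      rw [sum_const, card_range, nsmul_eq_mul]
    rw [e0, mul_sum, mul_sum, mul_sum, mul_sum, mul_sum, ← sum_sub_distrib, ← sum_sub_distrib,
      ← sum_sub_distrib, ← sum_sub_distrib, ← sum_sub_distrib]
    apply sum_congr rfl
    intro t _
    unfold Lf
    ring
  rw [e]
  generalize ∑ t ∈ range M, (((M : ℝ) - t) / M) ^ 1 = a1 at *
  generalize ∑ t ∈ range M, (((M : ℝ) - t) / M) ^ 2 = a2 at *
  generalize ∑ t ∈ range M, (((M : ℝ) - t) / M) ^ 3 = a3 at *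
  generalize ∑ t ∈ range M, (((M : ℝ) - t) / M) ^ 4 = a4 at *
  generalize ∑ t ∈ range M, (((M : ℝ) - t) / M) ^ 8 = a8 at *
  unfold v0 r0 k0
  norm_num at h1 h2 h3 h4 h8 ⊢
  linarith

end

end Pool.Agent.CGM
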