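import Pool.Agent.CGM.Stmts

/-! Module NTC: numerical inequality C -/

set_option autoImplicit false

open Finset
open scoped Classical

namespace Pool.Agent.CGM

namespace NTC_

lemma exp35 : Real.exp (-(3 / 5)) ≤ 548812 / 1000000 := by
  have h := Real.sum_le_exp_of_nonneg (x := 3 / 5) (by norm_num) 9
  have h2 : (1000000 / 548812 : ℝ) ≤ Real.exp (3 / 5) := by
    refine le_trans ?_ h
    simp only [Finset.sum_range_succ, Finset.sum_range_zero, Nat.factorial]
    norm_num
  rw [Real.exp_neg, inv_le_comm₀ (Real.exp_pos _) (by norm_num)]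
  refine le_trans (le_of_eq ?_) h2
  norm_num

lemma exp_small {t : ℝ} (h1 : -(27 / 100) ≤ t) (h2 : t ≤ 27 / 100) :
    Real.exp t ≤ 1 + t + 14 / 25 * t ^ 2 := by
  have ht : |t| ≤ 27 / 100 := abs_le.2 ⟨h1, h2⟩
  have hb := Real.exp_bound (x := t) (by linarith) (n := 3) (by norm_num)
  simp only [Finset.sum_range_succ, Finset.sum_range_zero, Nat.factorial] at hb
  have h3 := (abs_le.1 hb).2
  have h4 : |t| ^ 3 ≤ 27 / 100 * t ^ 2 := by
    rw [pow_succ, sq_abs, mul_comm]
    gcongr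
  norm_num at h3
  nlinarith [sq_nonneg t]

end NTC_

open NTC_ in
theorem ntc_proof : Stmt_NTC := by
  intro b h0 h1
  have e : -(u0 + v0 * (1 - b)) = -(3 / 5) + (486 / 1000 * b - 268 / 1000) := by
    unfold u0 v0
    ring
  rw [e, Real.exp_add]
  set t : ℝ := 486 / 1000 * b - 268 / 1000 with ht
  have hb : b = (t + 268 / 1000) * (1000 / 486) := by
    rw [ht]; ring
  have t1 : -(27 / 100) ≤ t := by rw [ht]; linarith
  have t2 : t ≤ 27 / 100 := by rw [ht]; linarith
  have h3 := exp_small t1 t2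
  have h4 : Real.exp (-(3 / 5)) * Real.exp t ≤ 548812 / 1000000 * (1 + t + 14 / 25 * t ^ 2) :=
    mul_le_mul exp35 h3 (Real.exp_pos _).le (by norm_num)
  have h5 : v0 / 2 * b ^ 2 = 243 / 1000 * ((t + 268 / 1000) * (1000 / 486)) ^ 2 := by
    rw [← hb]
    unfold v0
    ring
  rw [h5]
  nlinarith [sq_nonneg (t + 1822 / 1000000), h4]

end Pool.Agent.CGM
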