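import Pool.Agent.CGM.Stmts

/-!
# CGM, module NTD
-/

set_option autoImplicit false

namespace Pool.Agent.CGM

theorem ntd_proof : Stmt_NTD := by
  intro M hM
  have hM' : (100000 : ℝ) ≤ (M : ℝ) := by exact_mod_cast hM
  have hMpos : (0 : ℝ) < M := by linarith
  have h1 : 1 / (M : ℝ) ≤ 1 / 100000 := one_div_le_one_div_of_le (by norm_num) hM'
  have h2 : (0 : ℝ) ≤ u0 + v0 := by unfold u0 v0; norm_num
  have h3 : -((1 + 1 / (M : ℝ)) * (u0 + v0)) ≥ -((1 + 1 / 100000) * (u0 + v0)) := by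
    have := mul_le_mul_of_nonneg_right (by linarith : 1 + 1 / (M : ℝ) ≤ 1 + 1 / 100000) h2
    linarith
  refine le_trans ?_ (Real.exp_le_exp.2 h3)
  have h4 : -((1 + 1 / 100000) * (u0 + v0)) = -1 + (1 - (1 + 1 / 100000) * (u0 + v0)) := by ring
  rw [h4, Real.exp_add]
  have h5 : (0.36787944116 : ℝ) < Real.exp (-1) := Real.exp_neg_one_gt_d9
  obtain ⟨t, ht⟩ : ∃ t, t = 1 - (1 + 1 / 100000) * (u0 + v0) := ⟨_, rfl⟩
  rw [← ht]
  have ht0 : 0 ≤ t := by rw [ht]; unfold u0 v0; norm_num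
  have h6 : t + 1 ≤ Real.exp t := Real.add_one_le_exp t
  have h7 : 1 + t + t ^ 2 / 2 + t ^ 3 / 6 ≤ Real.exp t := by
    have := Real.sum_le_exp_of_nonneg ht0 4
    simp only [Finset.sum_range_succ, Finset.sum_range_zero, Nat.factorial] at this
    norm_num at this
    linarith
  have h8 : 0.36787944116 * (1 + t + t ^ 2 / 2 + t ^ 3 / 6) ≤ Real.exp (-1) * Real.exp t :=
    mul_le_mul h5.le h7 (by positivity) (Real.exp_pos _).le
  refine le_trans ?_ h8
  rw [ht]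
  unfold u0 v0 r0
  norm_num

end Pool.Agent.CGM
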