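import Pool.Agent.CGM.Stmts

/-!
# Module NTE of the project CGM (MP_3bdb72_co)

`exp (-(1 + z)) ≤ 0.375 - 0.233 a` for `z = a/2 + a^2/3 + a^3/4 + a^4/5` and `0 ≤ a ≤ 1`.
Bernstein certificates (degree 16) on `[0, 3/10]` and `[3/10, 1]`.
-/

set_option autoImplicit false

open Finset
open scoped Classical

namespace Pool.Agent.CGM

namespace NTE_

lemma exp_neg_le (z : ℝ) (hz : 0 ≤ z) :
    Real.exp (-z) ≤ 1 - z + z ^ 2 / 2 - z ^ 3 / 6 + z ^ 4 / 24 := by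
  have h1 : 1 + z + z ^ 2 / 2 + z ^ 3 / 6 + z ^ 4 / 24 ≤ Real.exp z := by
    have h := Real.sum_le_exp_of_nonneg hz 5
    simp only [Finset.sum_range_succ, Finset.sum_range_zero] at h
    norm_num [Nat.factorial] at h
    linarith
  have hS : 0 < 1 + z + z ^ 2 / 2 + z ^ 3 / 6 + z ^ 4 / 24 := by positivity
  have hprod : (1 + z + z ^ 2 / 2 + z ^ 3 / 6 + z ^ 4 / 24) *
      (1 - z + z ^ 2 / 2 - z ^ 3 / 6 + z ^ 4 / 24) = 1 + z ^ 6 / 72 + z ^ 8 / 576 := by ring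
  have hge : 1 ≤ (1 + z + z ^ 2 / 2 + z ^ 3 / 6 + z ^ 4 / 24) *
      (1 - z + z ^ 2 / 2 - z ^ 3 / 6 + z ^ 4 / 24) := by
    rw [hprod]
    have h6 : 0 ≤ z ^ 6 / 72 := by positivity
    have h8 : 0 ≤ z ^ 8 / 576 := by positivity
    linarith
  rw [Real.exp_neg]
  calc (Real.exp z)⁻¹ ≤ (1 + z + z ^ 2 / 2 + z ^ 3 / 6 + z ^ 4 / 24)⁻¹ :=
        inv_anti₀ hS h1
    _ ≤ 1 - z + z ^ 2 / 2 - z ^ 3 / 6 + z ^ 4 / 24 := by
        rw [inv_le_iff_one_le_mul₀ hS]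
        rw [mul_comm]
        exact hge

lemma exp_neg_one_le : Real.exp (-1) ≤ 36788 / 100000 := by
  rw [Real.exp_neg]
  have h := Real.exp_one_gt_d9
  rw [inv_le_iff_one_le_mul₀ (Real.exp_pos 1)]
  nlinarith

lemma cert1 (x y : ℝ) (hx : 0 ≤ x) (hy : 0 ≤ y) : 0 ≤
      (71200000000000/43046721 : ℝ) * (x ^ 0 * y ^ 16)
      + (992020000000000/43046721 : ℝ) * (x ^ 1 * y ^ 15)
      + (79077500000000/531441 : ℝ) * (x ^ 2 * y ^ 14)
      + (25394131625000000/43046721 : ℝ) * (x ^ 3 * y ^ 13)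
      + (69030302031312500/43046721 : ℝ) * (x ^ 4 * y ^ 12)
      + (5038351641425000/1594323 : ℝ) * (x ^ 5 * y ^ 11)
      + (200295730841668750/43046721 : ℝ) * (x ^ 6 * y ^ 10)
      + (223700907034328125/43046721 : ℝ) * (x ^ 7 * y ^ 9)
      + (56403289779531685/12754584 : ℝ) * (x ^ 8 * y ^ 8)
      + (983134142322580727/344373768 : ℝ) * (x ^ 9 * y ^ 7)
      + (1903217236952897765/1377495072 : ℝ) * (x ^ 10 * y ^ 6)
      + (629401176128900039/1275458400 : ℝ) * (x ^ 11 * y ^ 5)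
      + (3572540438486681626781/27549901440000 : ℝ) * (x ^ 12 * y ^ 4)
      + (919847414548287975607/34437376800000 : ℝ) * (x ^ 13 * y ^ 3)
      + (65200239003592986797/12754584000000 : ℝ) * (x ^ 14 * y ^ 2)
      + (773807530310411292551/860934420000000 : ℝ) * (x ^ 15 * y ^ 1)
      + (7625663449217173339361/86093442000000000 : ℝ) * (x ^ 16 * y ^ 0) := by
  positivity

lemma cert2 (x y : ℝ) (hx : 0 ≤ x) (hy : 0 ≤ y) : 0 ≤
      (7625663449217173339361/66465861139202000000000 : ℝ) * (x ^ 0 * y ^ 16)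
      + (11307348010957663825201/3323293056960100000000 : ℝ) * (x ^ 1 * y ^ 15)
      + (42430866344601699650113/797590333670424000000 : ℝ) * (x ^ 2 * y ^ 14)
      + (1721088027230286527713/3798049207954400000 : ℝ) * (x ^ 3 * y ^ 13)
      + (65198286586035812496803/27345954297271680000 : ℝ) * (x ^ 4 * y ^ 12)
      + (9664871687617648615901/1139414762386320000 : ℝ) * (x ^ 5 * y ^ 11)
      + (132874651219184008077103/6152839716886128000 : ℝ) * (x ^ 6 * y ^ 10)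
      + (5848706125318980458741/143566260060676320 : ℝ) * (x ^ 7 * y ^ 9)
      + (30034405082234000644121/516838536218434752 : ℝ) * (x ^ 8 * y ^ 8)
      + (2044559877417628887355/32302408513652172 : ℝ) * (x ^ 9 * y ^ 7)
      + (243099255246673277885/4614629787664596 : ℝ) * (x ^ 10 * y ^ 6)
      + (38335451975539089550/1153657446916149 : ℝ) * (x ^ 11 * y ^ 5)
      + (71907290220318989375/4614629787664596 : ℝ) * (x ^ 12 * y ^ 4)
      + (6049567191974481250/1153657446916149 : ℝ) * (x ^ 13 * y ^ 3)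
      + (9598215968173718750/8075602128413043 : ℝ) * (x ^ 14 * y ^ 2)
      + (1294173197765125000/8075602128413043 : ℝ) * (x ^ 15 * y ^ 1)
      + (76076717675937500/8075602128413043 : ℝ) * (x ^ 16 * y ^ 0) := by
  positivity

/-- the polynomial inequality -/
lemma poly (a : ℝ) (h0 : 0 ≤ a) (h1 : a ≤ 1) :
    0 ≤ 375 / 1000 - 233 / 1000 * a - 36788 / 100000 *
      (1 - (a / 2 + a ^ 2 / 3 + a ^ 3 / 4 + a ^ 4 / 5)
        + (a / 2 + a ^ 2 / 3 + a ^ 3 / 4 + a ^ 4 / 5) ^ 2 / 2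
        - (a / 2 + a ^ 2 / 3 + a ^ 3 / 4 + a ^ 4 / 5) ^ 3 / 6
        + (a / 2 + a ^ 2 / 3 + a ^ 3 / 4 + a ^ 4 / 5) ^ 4 / 24) := by
  rcases le_total a (3 / 10) with h | h
  · have hc := cert1 a (3 / 10 - a) h0 (by linarith)
    refine le_of_le_of_eq hc ?_
    ring
  · have hc := cert2 (a - 3 / 10) (1 - a) (by linarith) (by linarith)
    refine le_of_le_of_eq hc ?_
    ring

end NTE_

theorem nte_proof : Stmt_NTE := by
  intro a h0 h1
  have hz : 0 ≤ a / 2 + a ^ 2 / 3 + a ^ 3 / 4 + a ^ 4 / 5 := by positivity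
  have hsplit : Real.exp (-(1 + a / 2 + a ^ 2 / 3 + a ^ 3 / 4 + a ^ 4 / 5)) =
      Real.exp (-1) * Real.exp (-(a / 2 + a ^ 2 / 3 + a ^ 3 / 4 + a ^ 4 / 5)) := by
    rw [← Real.exp_add]
    congr 1
    ring
  have hA := NTE_.exp_neg_le _ hz
  have hB := NTE_.exp_neg_one_le
  have hP := NTE_.poly a h0 h1
  have hpos : 0 ≤ Real.exp (-(a / 2 + a ^ 2 / 3 + a ^ 3 / 4 + a ^ 4 / 5)) :=
    (Real.exp_pos _).le
  have hmul : Real.exp (-1) * Real.exp (-(a / 2 + a ^ 2 / 3 + a ^ 3 / 4 + a ^ 4 / 5)) ≤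
      36788 / 100000 * (1 - (a / 2 + a ^ 2 / 3 + a ^ 3 / 4 + a ^ 4 / 5)
        + (a / 2 + a ^ 2 / 3 + a ^ 3 / 4 + a ^ 4 / 5) ^ 2 / 2
        - (a / 2 + a ^ 2 / 3 + a ^ 3 / 4 + a ^ 4 / 5) ^ 3 / 6
        + (a / 2 + a ^ 2 / 3 + a ^ 3 / 4 + a ^ 4 / 5) ^ 4 / 24) :=
    mul_le_mul hB hA hpos (by norm_num)
  rw [hsplit]
  have hu : (1 : ℝ) - u0 - v0 / 2 - k0 * a = 375 / 1000 - 233 / 1000 * a := by
    unfold u0 v0 k0
    ring
  rw [hu]
  linarith

end Pool.Agent.CGM
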