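import Pool.Agent.CGM.Stmts

/-!
# CGM, module NTF : a one-variable numerical inequality
-/

set_option autoImplicit false

open Finset
open scoped Classical

namespace Pool.Agent.CGM

namespace NTF_

theorem exp_neg_one_lo : 36787 / 100000 < Real.exp (-1) := by
  rw [Real.exp_neg, lt_inv_comm₀ (by norm_num) (Real.exp_pos 1)]
  have := Real.exp_one_lt_d9
  norm_num at this ⊢
  linarith

theorem exp_neg_one_hi : Real.exp (-1) < 36789 / 100000 := by
  rw [Real.exp_neg, inv_lt_comm₀ (Real.exp_pos 1) (by norm_num)]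
  have := Real.exp_one_gt_d9
  norm_num at this ⊢
  linarith

theorem exp_neg_le {s : ℝ} (h0 : 0 ≤ s) (h1 : s ≤ 1) :
    Real.exp (-s) ≤ 1 - s + s ^ 2 / 2 - s ^ 3 / 6 + s ^ 4 / 24 - s ^ 5 / 120 + s ^ 6 / 600 := by
  have h := Real.exp_bound (x := -s) (by rw [abs_neg, abs_of_nonneg h0]; exact h1) (n := 6)
    (by norm_num)
  rw [abs_neg, abs_of_nonneg h0] at h
  have h2 := (abs_le.1 h).2
  simp only [Finset.sum_range_succ, Finset.sum_range_zero, Nat.factorial] at h2
  norm_num at h2
  have h6 : 0 ≤ s ^ 6 := by positivity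
  nlinarith [h2, h6]

end NTF_

open NTF_ in
theorem ntf_proof : Stmt_NTF := by
  intro s h0 h1
  have lo := exp_neg_one_lo
  have hi := exp_neg_one_hi
  unfold v0
  rcases le_or_gt s (85 / 100) with h | h
  · have h2 := exp_neg_le h0 h1
    have key : 0 ≤ s * ((36787 / 100000 - 243 / 1000) - 257 / 1000 * s + s ^ 2 / 6 - s ^ 3 / 24 +
        s ^ 4 / 120 - s ^ 5 / 600) := by
      apply mul_nonneg h0
      have e1 : 0 ≤ s ^ 4 * (1 / 120 - s / 600) := by
        apply mul_nonneg (by positivity); linarith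
      have e2 : 0 ≤ (85 / 100 - s) * ((1 / 10) + (85 / 100 - s) * (1 / 10)) := by
        apply mul_nonneg (by linarith)
        have := mul_nonneg (sub_nonneg.2 h) (by norm_num : (0 : ℝ) ≤ 1 / 10)
        linarith
      have e3 : 0 ≤ (85 / 100 - s) * s ^ 2 := mul_nonneg (by linarith) (sq_nonneg _)
      have e4 : 0 ≤ (85 / 100 - s) ^ 2 := sq_nonneg _
      nlinarith [e1, e2, e3, e4, mul_nonneg h0 (sub_nonneg.2 h)]
    have e5 : 0 ≤ s * (Real.exp (-1) - 36787 / 100000) := mul_nonneg h0 (by linarith)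
    nlinarith [h2, key, e5]
  · obtain ⟨t, ht⟩ : ∃ t, t = 1 - s := ⟨_, rfl⟩
    have hs : s = 1 - t := by linarith
    have ht0 : 0 ≤ t := by linarith
    have ht1 : t ≤ 15 / 100 := by linarith
    have he : Real.exp (-s) = Real.exp (-1) * Real.exp t := by
      rw [← Real.exp_add]; congr 1; linarith
    have hb := Real.abs_exp_sub_one_sub_id_le (x := t) (by rw [abs_of_nonneg ht0]; linarith)
    have hb2 : Real.exp t ≤ 1 + t + t ^ 2 := by linarith [(abs_le.1 hb).2]
    have hpos : 0 < Real.exp (-1) := Real.exp_pos _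
    rw [he, hs]
    have e1 : Real.exp (-1) * Real.exp t ≤ Real.exp (-1) * (1 + t + t ^ 2) :=
      mul_le_mul_of_nonneg_left hb2 hpos.le
    have e2 : Real.exp (-1) * (2 * t + t ^ 2) ≤ 36789 / 100000 * (2 * t + t ^ 2) :=
      mul_le_mul_of_nonneg_right hi.le (by positivity)
    have e3 : 0 ≤ t * (15 / 100 - t) := mul_nonneg ht0 (by linarith)
    nlinarith [e1, e2, e3]

end Pool.Agent.CGM
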