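import Pool.Agent.CGM.Stmts

/-!
# Module OPI of the project CGM (MP_3bdb72_co): adding one item
-/

set_option autoImplicit false

open Finset
open scoped Classical

namespace Pool.Agent.CGM

namespace OPI_

lemma val_update {Λ J : Type} [Fintype Λ] [DecidableEq Λ]
    (y : Λ → J → ℕ) (m : Λ → Option J) (e : Λ) (o : Option J) :
    val y (Function.update m e o) + (m e).elim 0 (y e) = val y m + o.elim 0 (y e) := by
  unfold val
  rw [← Finset.add_sum_erase univ _ (mem_univ e),
    ← Finset.add_sum_erase univ (fun f => (m f).elim 0 (y f)) (mem_univ e)]
  have h : ∑ f ∈ univ.erase e, (Function.update m e o f).elim 0 (y f) =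
      ∑ f ∈ univ.erase e, (m f).elim 0 (y f) := by
    refine Finset.sum_congr rfl (fun f hf => ?_)
    rw [Function.update_of_ne (Finset.ne_of_mem_erase hf)]
  rw [h, Function.update_self]
  omega

lemma upper {Λ J : Type} [Fintype Λ] [DecidableEq Λ] [Fintype J] [DecidableEq J]
    (y : Λ → J → ℕ) (S : Finset Λ) (e : Λ) :
    opt y (insert e S) univ ≤ opt y S univ + gain y S e := by
  obtain ⟨m, hm, hv⟩ := exists_opt y (insert e S) univ
  rw [← hv]
  rcases hme : m e with _ | j
  · have h1 : IsM S univ m := by
      refine ⟨fun f i hf => ⟨?_, mem_univ _⟩, hm.2⟩
      rcases Finset.mem_insert.1 (hm.1 f i hf).1 with h | h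
      · rw [h, hme] at hf
        simp at hf
      · exact h
    have h2 := val_le_opt (y := y) h1
    omega
  · have h1 : IsM S (univ.erase j) (Function.update m e none) := by
      refine ⟨fun f i hf => ?_, fun f f' i hf hf' => ?_⟩
      · have hfe : f ≠ e := by
          intro h
          rw [h, Function.update_self] at hf
          simp at hf
        rw [Function.update_of_ne hfe] at hf
        refine ⟨?_, ?_⟩
        · rcases Finset.mem_insert.1 (hm.1 f i hf).1 with h | h
          · exact absurd h hfe
          · exact h
        · refine Finset.mem_erase.2 ⟨fun hij => hfe ?_, mem_univ _⟩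
          rw [hij] at hf
          exact hm.2 f e j hf hme
      · have hfe : f ≠ e := by
          intro h
          rw [h, Function.update_self] at hf
          simp at hf
        have hfe' : f' ≠ e := by
          intro h
          rw [h, Function.update_self] at hf'
          simp at hf'
        rw [Function.update_of_ne hfe] at hf
        rw [Function.update_of_ne hfe'] at hf'
        exact hm.2 f f' i hf hf'
    have h2 := val_le_opt (y := y) h1
    have h3 := val_update y m e none
    rw [hme] at h3
    simp only [Option.elim] at h3
    have h4 : y e j - pr y S j ≤ gain y S e :=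
      Finset.le_sup (f := fun j => y e j - pr y S j) (mem_univ j)
    have h5 : opt y S (univ.erase j) ≤ opt y S univ :=
      opt_mono y (Finset.Subset.refl S) (Finset.erase_subset j univ)
    unfold pr at h4
    omega

lemma lower {Λ J : Type} [Fintype Λ] [DecidableEq Λ] [Fintype J] [DecidableEq J]
    (y : Λ → J → ℕ) (S : Finset Λ) (e : Λ) (he : e ∉ S) :
    opt y S univ + gain y S e ≤ opt y (insert e S) univ := by
  have h0 : opt y S univ ≤ opt y (insert e S) univ :=
    opt_mono y (Finset.subset_insert e S) (Finset.Subset.refl univ)
  rcases isEmpty_or_nonempty J with hJ | hJ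
  · have : gain y S e = 0 := by
      unfold gain
      rw [Finset.univ_eq_empty, Finset.sup_empty]
      rfl
    omega
  · obtain ⟨j, -, hj⟩ := Finset.exists_mem_eq_sup (univ : Finset J) Finset.univ_nonempty
      (fun j => y e j - pr y S j)
    have hg : gain y S e = y e j - pr y S j := hj
    obtain ⟨m, hm, hv⟩ := exists_opt y S (univ.erase j)
    have hme : m e = none := by
      rcases hme : m e with _ | i
      · rfl
      · exact absurd (hm.1 e i hme).1 he
    have h1 : IsM (insert e S) univ (Function.update m e (some j)) := by
      refine ⟨fun f i hf => ⟨?_, mem_univ _⟩, fun f f' i hf hf' => ?_⟩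
      · by_cases hfe : f = e
        · rw [hfe]
          exact Finset.mem_insert_self e S
        · rw [Function.update_of_ne hfe] at hf
          exact Finset.mem_insert_of_mem (hm.1 f i hf).1
      · by_cases hfe : f = e
        · by_cases hfe' : f' = e
          · rw [hfe, hfe']
          · exfalso
            rw [hfe, Function.update_self] at hf
            rw [Function.update_of_ne hfe'] at hf'
            have hij : j = i := Option.some.inj hf
            exact (Finset.ne_of_mem_erase (hm.1 f' i hf').2) hij.symm
        · by_cases hfe' : f' = e
          · exfalso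
            rw [hfe', Function.update_self] at hf'
            rw [Function.update_of_ne hfe] at hf
            have hij : j = i := Option.some.inj hf'
            exact (Finset.ne_of_mem_erase (hm.1 f i hf).2) hij.symm
          · rw [Function.update_of_ne hfe] at hf
            rw [Function.update_of_ne hfe'] at hf'
            exact hm.2 f f' i hf hf'
    have h2 := val_le_opt (y := y) h1
    have h3 := val_update y m e (some j)
    rw [hme] at h3
    simp only [Option.elim] at h3
    have h5 : opt y S (univ.erase j) ≤ opt y S univ :=
      opt_mono y (Finset.Subset.refl S) (Finset.erase_subset j univ)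
    rw [hg]
    unfold pr
    omega

end OPI_

theorem opi_proof : Stmt_OPI := by
  intro Λ J _ _ _ _ y S e he
  exact le_antisymm (OPI_.upper y S e) (OPI_.lower y S e he)

end Pool.Agent.CGM
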