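import Pool.Agent.CGM.Stmts

set_option autoImplicit false

open Finset
open scoped Classical

namespace Pool.Agent.CGM

noncomputable section

lemma OPK_sum {n : ℕ} (w : Fin n → Fin n → ℕ) {Λ : Type} [Fintype Λ] [DecidableEq Λ]
    (y : Λ → Fin n → ℕ) (ρ : Fin n → Λ) (R M : Finset (Fin n × Fin n))
    (hy : ∀ k j, y (ρ k) j = if (k, j) ∈ R then w k j else 0) (m : Λ → Option (Fin n))
    (hrel : ∀ k j, (k, j) ∈ M ↔ (k, j) ∈ R ∧ m (ρ k) = some j) :
    ∑ e ∈ M, w e.1 e.2 = ∑ k, (m (ρ k)).elim 0 (y (ρ k)) := by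
  have h1 : ∑ e ∈ M, w e.1 e.2 = ∑ e : Fin n × Fin n, if e ∈ M then w e.1 e.2 else 0 := by
    rw [Finset.sum_ite_mem, Finset.univ_inter]
  rw [h1, Fintype.sum_prod_type]
  refine Finset.sum_congr rfl (fun k _ => ?_)
  cases hm : m (ρ k) with
  | none =>
    show _ = 0
    refine Finset.sum_eq_zero (fun j _ => ?_)
    rw [if_neg]
    intro h
    have := ((hrel k j).1 h).2
    rw [hm] at this
    exact absurd this (by simp)
  | some j0 =>
    show _ = y (ρ k) j0
    rw [Finset.sum_eq_single j0]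
    · rw [hy k j0]
      by_cases h : (k, j0) ∈ R
      · rw [if_pos h, if_pos ((hrel k j0).2 ⟨h, hm⟩)]
      · rw [if_neg h, if_neg (fun h2 => h ((hrel k j0).1 h2).1)]
    · intro j _ hj
      rw [if_neg]
      intro h
      have h2 := ((hrel k j).1 h).2
      rw [hm] at h2
      exact hj (Option.some.inj h2).symm
    · intro h
      exact absurd (Finset.mem_univ _) h

lemma OPK_val {n : ℕ} {Λ : Type} [Fintype Λ] [DecidableEq Λ]
    (y : Λ → Fin n → ℕ) (ρ : Fin n → Λ) (hρ : Function.Injective ρ) (m : Λ → Option (Fin n))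
    (hm : IsM (univ.image ρ) univ m) : val y m = ∑ k, (m (ρ k)).elim 0 (y (ρ k)) := by
  unfold val
  have h1 : ∑ e, (m e).elim 0 (y e) = ∑ e ∈ univ.image ρ, (m e).elim 0 (y e) := by
    symm
    refine Finset.sum_subset (Finset.subset_univ _) (fun e _ he => ?_)
    cases h : m e with
    | none => rfl
    | some j => exact absurd (hm.1 e j h).1 he
  rw [h1, Finset.sum_image (fun a _ b _ h => hρ h)]

theorem opk_proof : Stmt_OPK := by
  intro n w Λ _ _ y ρ R hρ hy
  apply le_antisymm
  · unfold maxW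
    refine Finset.sup'_le _ _ (fun M hM => ?_)
    rw [Finset.mem_filter, Finset.mem_powerset] at hM
    obtain ⟨hMR, hMm⟩ := hM
    let m : Λ → Option (Fin n) := fun e =>
      if h : ∃ j, ∃ k, ρ k = e ∧ (k, j) ∈ M then some h.choose else none
    have hm1 : ∀ e j, m e = some j → ∃ k, ρ k = e ∧ (k, j) ∈ M := by
      intro e j h
      by_cases h2 : ∃ j, ∃ k, ρ k = e ∧ (k, j) ∈ M
      · have h3 : m e = some h2.choose := dif_pos h2
        rw [h3] at h
        have h4 := h2.choose_spec
        rw [Option.some.inj h] at h4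
        exact h4
      · have h3 : m e = none := dif_neg h2
        rw [h3] at h
        exact absurd h (by simp)
    have hm2 : ∀ k j, (k, j) ∈ M → m (ρ k) = some j := by
      intro k j h
      have h2 : ∃ j, ∃ k', ρ k' = ρ k ∧ (k', j) ∈ M := ⟨j, k, rfl, h⟩
      have h3 : m (ρ k) = some h2.choose := dif_pos h2
      obtain ⟨k', hk', hj'⟩ := h2.choose_spec
      have h4 := hρ hk'
      subst h4
      have h5 := hMm (k', h2.choose) hj' (k', j) h (Or.inl rfl)
      rw [h3]
      congr 1
      exact congrArg Prod.snd h5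
    have hIs : IsM (univ.image ρ) univ m := by
      constructor
      · intro e j h
        obtain ⟨k, hk, _⟩ := hm1 e j h
        exact ⟨Finset.mem_image.2 ⟨k, Finset.mem_univ _, hk⟩, Finset.mem_univ _⟩
      · intro e e' j h h'
        obtain ⟨k, hk, hkj⟩ := hm1 e j h
        obtain ⟨k', hk', hkj'⟩ := hm1 e' j h'
        have h5 := hMm (k, j) hkj (k', j) hkj' (Or.inr rfl)
        have h6 : k = k' := congrArg Prod.fst h5
        rw [← hk, ← hk', h6]
    have h7 : ∑ e ∈ M, w e.1 e.2 = val y m := by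
      rw [OPK_val y ρ hρ m hIs]
      refine OPK_sum w y ρ R M hy m (fun k j => ⟨fun h => ⟨hMR h, hm2 k j h⟩, fun h => ?_⟩)
      obtain ⟨k', hk', hj'⟩ := hm1 (ρ k) j h.2
      rw [hρ hk'] at hj'
      exact hj'
    have h8 := val_le_opt (y := y) hIs
    rw [← h7] at h8
    have h9 : ((∑ e ∈ M, w e.1 e.2 : ℕ) : ℝ) ≤ (opt y (univ.image ρ) univ : ℝ) := by
      exact_mod_cast h8
    refine le_trans (le_of_eq ?_) h9
    push_cast
    rfl
  · obtain ⟨m, hm, hv⟩ := exists_opt y (univ.image ρ) univ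
    rw [← hv, OPK_val y ρ hρ m hm]
    let M : Finset (Fin n × Fin n) :=
      univ.filter (fun e => e ∈ R ∧ m (ρ e.1) = some e.2)
    have hrel : ∀ k j, (k, j) ∈ M ↔ (k, j) ∈ R ∧ m (ρ k) = some j := by
      intro k j
      simp only [M, Finset.mem_filter, Finset.mem_univ, true_and]
    rw [← OPK_sum w y ρ R M hy m hrel]
    unfold maxW
    have hM : M ∈ R.powerset.filter (fun M => IsMatching M) := by
      rw [Finset.mem_filter, Finset.mem_powerset]
      constructor
      · intro e he
        exact ((hrel e.1 e.2).1 he).1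
      · intro e he f hf hef
        have h1 := ((hrel e.1 e.2).1 he).2
        have h2 := ((hrel f.1 f.2).1 hf).2
        rcases hef with h | h
        · rw [h, h2] at h1
          exact Prod.ext h (Option.some.inj h1).symm
        · rw [h] at h1
          exact Prod.ext (hρ (hm.2 _ _ _ h1 h2)) h
    refine le_trans (le_of_eq ?_) (Finset.le_sup' (fun M : Finset (Fin n × Fin n) =>
      ∑ e ∈ M, ((w e.1 e.2 : ℕ) : ℝ)) hM)
    push_cast
    rfl

end

end Pool.Agent.CGM
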