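import Pool.Agent.CGM.Stmts

/-!
# CGM, module OPL : prices depend only on the items that touch the component
-/

set_option autoImplicit false

open Finset
open scoped Classical

namespace Pool.Agent.CGM

namespace OPL_

variable {Λ J : Type} [Fintype Λ] [DecidableEq Λ] [Fintype J] [DecidableEq J]

/-- the optimal matching splits -/
lemma split (y : Λ → J → ℕ) (S : Finset Λ) (K : Finset J)
    (h : ∀ e ∈ S, (∀ j, j ∈ K → y e j = 0) ∨ (∀ j, j ∉ K → y e j = 0)) (U : Finset J) :
    opt y S U = opt y (S.filter (fun e => ∃ j ∈ K, y e j ≠ 0)) (U ∩ K) +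
      opt y (S.filter (fun e => ¬ ∃ j ∈ K, y e j ≠ 0)) (U \ K) := by
  apply le_antisymm
  · obtain ⟨m, hm, hv⟩ := exists_opt y S U
    rw [← hv]
    obtain ⟨m1, hm1⟩ : ∃ m1 : Λ → Option J, m1 = fun e => (m e).filter
      (fun j => decide (e ∈ S.filter (fun e => ∃ j ∈ K, y e j ≠ 0) ∧ j ∈ K)) := ⟨_, rfl⟩
    obtain ⟨m2, hm2⟩ : ∃ m2 : Λ → Option J, m2 = fun e => (m e).filter
      (fun j => decide (e ∈ S.filter (fun e => ¬ ∃ j ∈ K, y e j ≠ 0) ∧ j ∉ K)) := ⟨_, rfl⟩
    have h1 : IsM (S.filter (fun e => ∃ j ∈ K, y e j ≠ 0)) (U ∩ K) m1 := by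
      refine ⟨fun e j hj => ?_, fun e e' j hj hj' => ?_⟩
      · rw [hm1] at hj
        obtain ⟨h2, h3⟩ := Option.filter_eq_some_iff.1 hj
        have h4 := of_decide_eq_true h3
        exact ⟨h4.1, mem_inter.2 ⟨(hm.1 e j h2).2, h4.2⟩⟩
      · rw [hm1] at hj hj'
        exact hm.2 e e' j (Option.filter_eq_some_iff.1 hj).1 (Option.filter_eq_some_iff.1 hj').1
    have h2 : IsM (S.filter (fun e => ¬ ∃ j ∈ K, y e j ≠ 0)) (U \ K) m2 := by
      refine ⟨fun e j hj => ?_, fun e e' j hj hj' => ?_⟩
      · rw [hm2] at hj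
        obtain ⟨h2, h3⟩ := Option.filter_eq_some_iff.1 hj
        have h4 := of_decide_eq_true h3
        exact ⟨h4.1, mem_sdiff.2 ⟨(hm.1 e j h2).2, h4.2⟩⟩
      · rw [hm2] at hj hj'
        exact hm.2 e e' j (Option.filter_eq_some_iff.1 hj).1 (Option.filter_eq_some_iff.1 hj').1
    refine le_trans ?_ (add_le_add (val_le_opt h1) (val_le_opt h2))
    unfold val
    rw [← Finset.sum_add_distrib]
    refine Finset.sum_le_sum fun e _ => ?_
    rcases hme : m e with _ | j
    · simp
    · have hS := hm.1 e j hme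
      rcases Nat.eq_zero_or_pos (y e j) with h0 | h0
      · simp [h0]
      · by_cases hj : j ∈ K
        · have e1 : m1 e = some j := by
            rw [hm1]
            simp only [hme]
            rw [Option.filter_eq_some_iff]
            refine ⟨rfl, decide_eq_true ⟨mem_filter.2 ⟨hS.1, j, hj, by omega⟩, hj⟩⟩
          rw [e1]
          simp
        · have e2 : m2 e = some j := by
            rw [hm2]
            simp only [hme]
            rw [Option.filter_eq_some_iff]
            refine ⟨rfl, decide_eq_true ⟨mem_filter.2 ⟨hS.1, ?_⟩, hj⟩⟩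
            rcases h e hS.1 with h3 | h3
            · rintro ⟨i, hi, h4⟩
              exact h4 (h3 i hi)
            · have := h3 j hj
              omega
          rw [e2]
          simp
  · obtain ⟨m1, h1, hv1⟩ := exists_opt y (S.filter (fun e => ∃ j ∈ K, y e j ≠ 0)) (U ∩ K)
    obtain ⟨m2, h2, hv2⟩ := exists_opt y (S.filter (fun e => ¬ ∃ j ∈ K, y e j ≠ 0)) (U \ K)
    rw [← hv1, ← hv2]
    obtain ⟨m, hm⟩ : ∃ m : Λ → Option J, m = fun e => if m1 e = none then m2 e else m1 e :=
      ⟨_, rfl⟩
    have hmj : ∀ e j, m e = some j → (m1 e = some j) ∨ (m2 e = some j) := by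
      intro e j hj
      rw [hm] at hj
      simp only at hj
      split_ifs at hj
      · exact Or.inr hj
      · exact Or.inl hj
    have hM : IsM S U m := by
      refine ⟨fun e j hj => ?_, fun e e' j hj hj' => ?_⟩
      · rcases hmj e j hj with h3 | h3
        · have := h1.1 e j h3
          exact ⟨(mem_filter.1 this.1).1, (mem_inter.1 this.2).1⟩
        · have := h2.1 e j h3
          exact ⟨(mem_filter.1 this.1).1, (mem_sdiff.1 this.2).1⟩
      · rcases hmj e j hj with h3 | h3 <;> rcases hmj e' j hj' with h4 | h4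
        · exact h1.2 e e' j h3 h4
        · exact absurd (mem_inter.1 (h1.1 e j h3).2).2 (mem_sdiff.1 (h2.1 e' j h4).2).2
        · exact absurd (mem_inter.1 (h1.1 e' j h4).2).2 (mem_sdiff.1 (h2.1 e j h3).2).2
        · exact h2.2 e e' j h3 h4
    refine le_trans (le_of_eq ?_) (val_le_opt hM)
    unfold val
    rw [← Finset.sum_add_distrib]
    refine Finset.sum_congr rfl fun e _ => ?_
    rcases h3 : m1 e with _ | j
    · have : m e = m2 e := by
        rw [hm]
        simp only [h3]
        simp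
      rw [this]
      simp
    · have h4 : m2 e = none := by
        rcases h5 : m2 e with _ | i
        · rfl
        · exact absurd (mem_filter.1 (h1.1 e j h3).1).2 (mem_filter.1 (h2.1 e i h5).1).2
      have : m e = some j := by
        rw [hm]
        simp only [h3]
        simp
      rw [this, h4]
      simp

lemma pr_in (y : Λ → J → ℕ) (S : Finset Λ) (K : Finset J)
    (h : ∀ e ∈ S, (∀ j, j ∈ K → y e j = 0) ∨ (∀ j, j ∉ K → y e j = 0)) {i : J} (hi : i ∈ K) :
    pr y S i = opt y (S.filter (fun e => ∃ j ∈ K, y e j ≠ 0)) (univ ∩ K) -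
      opt y (S.filter (fun e => ∃ j ∈ K, y e j ≠ 0)) (univ.erase i ∩ K) := by
  unfold pr
  rw [split y S K h univ, split y S K h (univ.erase i)]
  have e1 : (univ.erase i : Finset J) \ K = univ \ K := by
    ext j
    simp only [mem_sdiff, mem_erase, mem_univ, and_true, true_and]
    constructor
    · exact fun h => h.2
    · exact fun h => ⟨fun e => h (e ▸ hi), h⟩
  rw [e1, Nat.add_sub_add_right]

lemma pr_out (y : Λ → J → ℕ) (S : Finset Λ) (K : Finset J)
    (h : ∀ e ∈ S, (∀ j, j ∈ K → y e j = 0) ∨ (∀ j, j ∉ K → y e j = 0)) {i : J} (hi : i ∉ K) :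
    pr y S i = opt y (S.filter (fun e => ¬ ∃ j ∈ K, y e j ≠ 0)) (univ \ K) -
      opt y (S.filter (fun e => ¬ ∃ j ∈ K, y e j ≠ 0)) (univ.erase i \ K) := by
  unfold pr
  rw [split y S K h univ, split y S K h (univ.erase i)]
  have e1 : (univ.erase i : Finset J) ∩ K = univ ∩ K := by
    ext j
    simp only [mem_inter, mem_erase, mem_univ, and_true, true_and]
    constructor
    · exact fun h => h.2
    · exact fun h => ⟨fun e => hi (e ▸ h), h⟩
  rw [e1, Nat.add_sub_add_left]

end OPL_

open OPL_ in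
theorem opl_proof : Stmt_OPL := by
  intro Λ J _ _ _ _ y S K h
  constructor
  · intro i hi
    rw [pr_in y S K h hi, pr_in y (S.filter (fun e => ∃ j ∈ K, y e j ≠ 0)) K
      (fun e he => h e (mem_filter.1 he).1) hi, Finset.filter_filter]
    simp only [and_self]
  · intro i hi
    rw [pr_out y S K h hi, pr_out y (S.filter (fun e => ¬ ∃ j ∈ K, y e j ≠ 0)) K
      (fun e he => h e (mem_filter.1 he).1) hi, Finset.filter_filter]
    simp only [and_self]

end Pool.Agent.CGM
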