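import Pool.Agent.CGM.Stmts

set_option autoImplicit false

open Finset
open scoped Classical

namespace Pool.Agent.CGM

noncomputable section

namespace OPM_

variable {Λ J : Type}

/-- right vertices reached from `j` by alternating paths -/
inductive Reach (M1 M2 : Λ → Option J) (j : J) : J → Prop
  | base : Reach M1 M2 j j
  | step (l : Λ) (x x' : J) : Reach M1 M2 j x → M1 l = some x → M2 l = some x' →
      Reach M1 M2 j x'

def Ys (M1 M2 : Λ → Option J) (j : J) (l : Λ) : Prop :=
  ∃ x, M1 l = some x ∧ Reach M1 M2 j x

variable [Fintype Λ] [DecidableEq Λ] [Fintype J] [DecidableEq J]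

lemma main (y : Λ → J → ℕ) {S S' : Finset Λ} (hS : S ⊆ S') (j : J) :
    opt y S univ + opt y S' (univ.erase j) ≤ opt y S (univ.erase j) + opt y S' univ := by
  obtain ⟨M1, h1, e1⟩ := exists_opt y S univ
  obtain ⟨M2, h2, e2⟩ := exists_opt y S' (univ.erase j)
  set A : Λ → Option J := fun l => if Ys M1 M2 j l then M2 l else M1 l with hA
  set B : Λ → Option J := fun l => if Ys M1 M2 j l then M1 l else M2 l with hB
  have mA : IsM S (univ.erase j) A := by
    constructor
    · intro l x hx
      by_cases hY : Ys M1 M2 j l
      · simp only [hA, if_pos hY] at hx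
        obtain ⟨x1, hx1, _⟩ := hY
        exact ⟨(h1.1 l x1 hx1).1, (h2.1 l x hx).2⟩
      · simp only [hA, if_neg hY] at hx
        refine ⟨(h1.1 l x hx).1, Finset.mem_erase.2 ⟨?_, mem_univ _⟩⟩
        rintro rfl
        exact hY ⟨x, hx, Reach.base⟩
    · intro l l' x hx hx'
      by_cases hY : Ys M1 M2 j l <;> by_cases hY' : Ys M1 M2 j l'
      · simp only [hA, if_pos hY] at hx
        simp only [hA, if_pos hY'] at hx'
        exact h2.2 l l' x hx hx'
      · simp only [hA, if_pos hY] at hx
        simp only [hA, if_neg hY'] at hx'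
        obtain ⟨x1, hx1, hr⟩ := hY
        exact absurd ⟨x, hx', Reach.step l x1 x hr hx1 hx⟩ hY'
      · simp only [hA, if_neg hY] at hx
        simp only [hA, if_pos hY'] at hx'
        obtain ⟨x1, hx1, hr⟩ := hY'
        exact absurd ⟨x, hx, Reach.step l' x1 x hr hx1 hx'⟩ hY
      · simp only [hA, if_neg hY] at hx
        simp only [hA, if_neg hY'] at hx'
        exact h1.2 l l' x hx hx'
  have key : ∀ l l' x, Ys M1 M2 j l → ¬ Ys M1 M2 j l' → M1 l = some x → M2 l' = some x →
      False := by
    intro l l' x hY hY' hx hx'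
    obtain ⟨x1, hx1, hr⟩ := hY
    have : x1 = x := by
      rw [hx1] at hx
      exact Option.some.inj hx
    subst this
    cases hr with
    | base => exact (Finset.mem_erase.1 (h2.1 l' _ hx').2).1 rfl
    | step l2 x0 _ hr0 h10 h20 =>
      have : l2 = l' := h2.2 l2 l' _ h20 hx'
      subst this
      exact hY' ⟨x0, h10, hr0⟩
  have mB : IsM S' univ B := by
    constructor
    · intro l x hx
      by_cases hY : Ys M1 M2 j l
      · simp only [hB, if_pos hY] at hx
        exact ⟨hS (h1.1 l x hx).1, mem_univ _⟩
      · simp only [hB, if_neg hY] at hx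
        exact ⟨(h2.1 l x hx).1, mem_univ _⟩
    · intro l l' x hx hx'
      by_cases hY : Ys M1 M2 j l <;> by_cases hY' : Ys M1 M2 j l'
      · simp only [hB, if_pos hY] at hx
        simp only [hB, if_pos hY'] at hx'
        exact h1.2 l l' x hx hx'
      · simp only [hB, if_pos hY] at hx
        simp only [hB, if_neg hY'] at hx'
        exact absurd (key l l' x hY hY' hx hx') id
      · simp only [hB, if_neg hY] at hx
        simp only [hB, if_pos hY'] at hx'
        exact absurd (key l' l x hY' hY hx' hx) id
      · simp only [hB, if_neg hY] at hx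
        simp only [hB, if_neg hY'] at hx'
        exact h2.2 l l' x hx hx'
  have hval : val y A + val y B = val y M1 + val y M2 := by
    unfold val
    rw [← Finset.sum_add_distrib, ← Finset.sum_add_distrib]
    refine Finset.sum_congr rfl (fun l _ => ?_)
    by_cases hY : Ys M1 M2 j l
    · simp only [hA, hB, if_pos hY]
      exact add_comm _ _
    · simp only [hA, hB, if_neg hY]
  have hA' := val_le_opt (y := y) mA
  have hB' := val_le_opt (y := y) mB
  rw [← e1, ← e2, ← hval]
  exact Nat.add_le_add hA' hB'

end OPM_

theorem opm_proof : Stmt_OPM := by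
  intro Λ J _ _ _ _ y S S' hS j
  have h := OPM_.main y hS j
  unfold pr
  omega

end

end Pool.Agent.CGM
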