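import Pool.Agent.CGM.Stmts

/-!
# CGM: module OPS (items with at most one vertex of nonzero weight)
-/

set_option autoImplicit false

open Finset
open scoped Classical

namespace Pool.Agent.CGM

namespace OPS_

variable {Λ J : Type} [Fintype Λ] [DecidableEq Λ] [Fintype J] [DecidableEq J]

lemma val_eq (y : Λ → J → ℕ) (m : Λ → Option J) :
    val y m = ∑ j, ∑ e, if m e = some j then y e j else 0 := by
  unfold val
  rw [Finset.sum_comm]
  refine Finset.sum_congr rfl (fun e _ => ?_)
  cases h : m e with
  | none => simp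
  | some j =>
    simp only [Option.elim_some, Option.some.injEq]
    rw [Finset.sum_ite_eq]
    simp

lemma opt_le (y : Λ → J → ℕ) (S : Finset Λ) :
    opt y S univ ≤ ∑ j, S.sup (fun e => y e j) := by
  obtain ⟨m, hm, h⟩ := exists_opt y S univ
  rw [← h, val_eq]
  refine Finset.sum_le_sum (fun j _ => ?_)
  by_cases hj : ∃ e0, m e0 = some j
  · obtain ⟨e0, he0⟩ := hj
    rw [Finset.sum_eq_single e0, if_pos he0]
    · exact Finset.le_sup (f := fun e => y e j) (hm.1 e0 j he0).1
    · intro e _ hne
      rw [if_neg]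
      intro he
      exact hne (hm.2 e e0 j he he0)
    · intro h0
      exact absurd (Finset.mem_univ e0) h0
  · push Not at hj
    rw [Finset.sum_eq_zero]
    · exact Nat.zero_le _
    · intro e _
      rw [if_neg (hj e)]

lemma exists_E (y : Λ → J → ℕ) (S : Finset Λ) (j : J) (h : 0 < S.sup (fun e => y e j)) :
    ∃ e ∈ S, y e j = S.sup (fun e => y e j) := by
  have hS : S.Nonempty := by
    rw [Finset.nonempty_iff_ne_empty]
    rintro rfl
    simp at h
  obtain ⟨e, he, h2⟩ := Finset.exists_mem_eq_sup S hS (fun e => y e j)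
  exact ⟨e, he, h2.symm⟩

lemma le_opt (y : Λ → J → ℕ) (S : Finset Λ)
    (hS : ∀ e ∈ S, ∃ j0, ∀ j, j ≠ j0 → y e j = 0) :
    ∑ j, S.sup (fun e => y e j) ≤ opt y S univ := by
  let P : Λ → J → Prop := fun e j =>
    0 < S.sup (fun e => y e j) ∧ e ∈ S ∧ y e j = S.sup (fun e => y e j)
  -- each item has at most one `j`
  have hPj : ∀ e j j', P e j → P e j' → j = j' := by
    intro e j j' h h'
    obtain ⟨j0, hj0⟩ := hS e h.2.1
    have h1 : j = j0 := by
      by_contra hne
      have := hj0 j hne
      have h2 := h.1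
      rw [← h.2.2, this] at h2
      exact lt_irrefl _ h2
    have h2 : j' = j0 := by
      by_contra hne
      have := hj0 j' hne
      have h2 := h'.1
      rw [← h'.2.2, this] at h2
      exact lt_irrefl _ h2
    rw [h1, h2]
  have hex : ∀ j, 0 < S.sup (fun e => y e j) → ∃ e, P e j := by
    intro j hj
    obtain ⟨e, he, h2⟩ := exists_E y S j hj
    exact ⟨e, hj, he, h2⟩
  -- the chosen item of `j`
  let Q : Λ → J → Prop := fun e j => ∃ h : ∃ e, P e j, e = h.choose
  have hQP : ∀ e j, Q e j → P e j := by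
    rintro e j ⟨h, rfl⟩
    exact h.choose_spec
  let m : Λ → Option J := fun e => if h : ∃ j, Q e j then some h.choose else none
  have hm1 : ∀ e j, m e = some j → Q e j := by
    intro e j h
    simp only [m] at h
    by_cases h2 : ∃ j, Q e j
    · rw [dif_pos h2] at h
      have h3 := h2.choose_spec
      rw [Option.some.injEq] at h
      rw [← h]
      exact h3
    · rw [dif_neg h2] at h
      simp at h
  have hm2 : ∀ e j, Q e j → m e = some j := by
    intro e j h
    have h2 : ∃ j, Q e j := ⟨j, h⟩
    simp only [m]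
    rw [dif_pos h2]
    congr 1
    exact hPj e _ _ (hQP _ _ h2.choose_spec) (hQP _ _ h)
  have hM : IsM S univ m := by
    refine ⟨fun e j h => ⟨(hQP _ _ (hm1 e j h)).2.1, Finset.mem_univ j⟩, ?_⟩
    intro e e' j h h'
    obtain ⟨h1, rfl⟩ := hm1 e j h
    obtain ⟨h2, rfl⟩ := hm1 e' j h'
    rfl
  refine le_trans (le_of_eq ?_) (val_le_opt hM)
  rw [val_eq]
  refine Finset.sum_congr rfl (fun j _ => ?_)
  by_cases hj : 0 < S.sup (fun e => y e j)
  · have hx := hex j hj
    have hQ : Q hx.choose j := ⟨hx, rfl⟩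
    rw [Finset.sum_eq_single hx.choose, if_pos (hm2 _ _ hQ)]
    · exact (hx.choose_spec).2.2.symm
    · intro e _ hne
      rw [if_neg]
      intro he
      obtain ⟨h1, rfl⟩ := hm1 e j he
      exact hne rfl
    · intro h0
      exact absurd (Finset.mem_univ _) h0
  · rw [Finset.sum_eq_zero]
    · omega
    · intro e _
      rw [if_neg]
      intro he
      exact hj (hQP _ _ (hm1 e j he)).1

end OPS_

theorem ops_proof : Stmt_OPS := by
  intro Λ J _ _ _ _ y S hS
  exact le_antisymm (OPS_.opt_le y S) (OPS_.le_opt y S hS)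

end Pool.Agent.CGM
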