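import Pool.Agent.CGM.Stmts

/-!
# A vertex touched by no item has price zero
-/

set_option autoImplicit false
set_option linter.unusedSectionVars false

open Finset
open scoped Classical

namespace Pool.Agent.CGM

theorem opz_proof : Stmt_OPZ := by
  intro Λ J _ _ _ _ y S j h
  unfold pr
  apply Nat.sub_eq_zero_of_le
  obtain ⟨m, hm, hv⟩ := exists_opt y S (univ : Finset J)
  have h1 : IsM S ((univ : Finset J).erase j) (fun e => if m e = some j then none else m e) := by
    constructor
    · intro e i hi
      by_cases he : m e = some j
      · simp only [he, if_true] at hi
        exact absurd hi (by simp)
      · simp only [he, if_false] at hi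
        refine ⟨(hm.1 e i hi).1, Finset.mem_erase.2 ⟨fun hij => he (by rw [hi, hij]),
          Finset.mem_univ _⟩⟩
    · intro e e' i hi hi'
      by_cases he : m e = some j
      · simp only [he, if_true] at hi
        exact absurd hi (by simp)
      · by_cases he' : m e' = some j
        · simp only [he', if_true] at hi'
          exact absurd hi' (by simp)
        · simp only [he, if_false] at hi
          simp only [he', if_false] at hi'
          exact hm.2 e e' i hi hi'
  have h2 : val y (fun e => if m e = some j then none else m e) = val y m := by
    unfold val
    refine Finset.sum_congr rfl (fun e _ => ?_)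
    by_cases he : m e = some j
    · simp only [he, if_true, Option.elim_none, Option.elim_some]
      exact (h e (hm.1 e j he).1).symm
    · simp only [he, if_false]
  rw [← hv, ← h2]
  exact val_le_opt h1

end Pool.Agent.CGM
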