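import Pool.Agent.CGM.Stmts

set_option autoImplicit false

open Finset
open scoped Classical

namespace Pool.Agent.CGM

namespace RMI_

lemma exp_bd {x ε : ℝ} (hx : 0 ≤ x) (hxe : x ≤ ε) (he : ε ≤ 1 / 2) :
    Real.exp (-((1 + ε) * x)) ≤ 1 - x := by
  have hx2 : x ≤ 1 / 2 := hxe.trans he
  have hpos : 0 < 1 - x := by linarith
  have ht : 0 ≤ x + x ^ 2 := by positivity
  have h1 : 1 + (x + x ^ 2) + (x + x ^ 2) ^ 2 / 2 ≤ Real.exp (x + x ^ 2) :=
    Real.quadratic_le_exp_of_nonneg ht
  have h2 : 1 ≤ (1 - x) * Real.exp (x + x ^ 2) := by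
    have h3 : 1 ≤ (1 - x) * (1 + (x + x ^ 2) + (x + x ^ 2) ^ 2 / 2) := by
      have h4 : (1 - x) * (1 + (x + x ^ 2) + (x + x ^ 2) ^ 2 / 2) =
          1 + x ^ 2 * (1 - x - x ^ 2 - x ^ 3) / 2 := by ring
      rw [h4]
      have h5 : 0 ≤ 1 - x - x ^ 2 - x ^ 3 := by
        have h6 : x ^ 2 ≤ 1 / 4 := by nlinarith
        have h7 : x ^ 3 ≤ 1 / 8 := by
          have : x ^ 3 = x * x ^ 2 := by ring
          rw [this]
          nlinarith [sq_nonneg x]
        linarith
      have : 0 ≤ x ^ 2 * (1 - x - x ^ 2 - x ^ 3) := mul_nonneg (sq_nonneg x) h5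
      linarith
    exact h3.trans (mul_le_mul_of_nonneg_left h1 hpos.le)
  have h3 : Real.exp (-(x + x ^ 2)) ≤ 1 - x := by
    rw [Real.exp_neg, inv_le_comm₀ (Real.exp_pos _) hpos]
    rw [inv_le_iff_one_le_mul₀ hpos]
    linarith [mul_comm (1 - x) (Real.exp (x + x ^ 2))]
  refine le_trans (Real.exp_le_exp.2 ?_) h3
  nlinarith

/-- expectation of the indicator that no element of `T` is chosen -/
lemma EB_none {Λ : Type} [DecidableEq Λ] (T : Finset Λ) (π : Λ → ℝ) :
    EB T π (fun S => if S = ∅ then 1 else 0) = ∏ e ∈ T, (1 - π e) := by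
  induction T using Finset.induction_on with
  | empty => simp
  | insert e T he ih =>
    rw [EB_insert he, ih, Finset.prod_insert he]
    have : (fun S : Finset Λ => if insert e S = ∅ then (1 : ℝ) else 0) = fun _ => 0 := by
      funext S
      simp
    rw [this, EB_const]
    ring

end RMI_

open RMI_ in
theorem rmi_proof (h1 : Stmt_OPZ) : Stmt_RMI := by
  intro Λ J _ _ _ _ y T π j ε hε hT
  have hP : Pro T π := fun e he => ⟨(hT e he).1, by have := (hT e he).2; linarith⟩
  set T' := T.filter (fun e => y e j ≠ 0) with hT'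
  have hsub : T' ⊆ T := Finset.filter_subset _ _
  have h2 : EB T π (fun S => if S ∩ T' = ∅ then (1 : ℝ) else 0) ≤
      EB T π (fun S => if pr y S j = 0 then 1 else 0) := by
    refine EB_mono hP (fun S hS => ?_)
    by_cases h : S ∩ T' = ∅
    · have h3 : pr y S j = 0 := by
        refine h1 Λ J y S j (fun e he => ?_)
        by_contra hne
        have : e ∈ S ∩ T' := Finset.mem_inter.2 ⟨he, Finset.mem_filter.2 ⟨hS he, hne⟩⟩
        rw [h] at this
        exact absurd this (Finset.notMem_empty e)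
      rw [if_pos h, if_pos h3]
    · rw [if_neg h]
      split_ifs
      · exact zero_le_one
      · exact le_refl _
  refine le_trans ?_ h2
  rw [EB_restrict hsub π (fun S => if S = ∅ then (1 : ℝ) else 0), EB_none]
  rw [Finset.mul_sum, ← Finset.sum_neg_distrib, Real.exp_sum]
  refine Finset.prod_le_prod (fun e _ => (Real.exp_pos _).le) (fun e he => ?_)
  exact exp_bd (hT e (hsub he)).1 (hT e (hsub he)).2 hε

end Pool.Agent.CGM
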