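import Pool.Agent.CGM.Stmts

set_option autoImplicit false

open Finset
open scoped Classical

namespace Pool.Agent.CGM

noncomputable section

lemma SIN_pr {Λ : Type} [DecidableEq Λ] (π : Λ → ℝ) (P : Λ → Prop) [DecidablePred P]
    (T : Finset Λ) :
    EB T π (fun S => if ∃ e ∈ S, P e then (1 : ℝ) else 0) =
      1 - ∏ e ∈ T.filter P, (1 - π e) := by
  induction T using Finset.induction_on with
  | empty => simp
  | insert a T ha ih =>
    rw [EB_insert ha, ih]
    by_cases hP : P a
    · have h1 : EB T π (fun S => if ∃ e ∈ insert a S, P e then (1 : ℝ) else 0) = 1 := by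
        have : (fun S : Finset Λ => if ∃ e ∈ insert a S, P e then (1 : ℝ) else 0) =
            fun _ => (1 : ℝ) := by
          funext S
          rw [if_pos ⟨a, Finset.mem_insert_self a S, hP⟩]
        rw [this, EB_const]
      rw [h1, Finset.filter_insert, if_pos hP,
        Finset.prod_insert (fun h => ha (Finset.mem_filter.1 h).1)]
      ring
    · have h1 : (fun S : Finset Λ => if ∃ e ∈ insert a S, P e then (1 : ℝ) else 0) =
          fun S => if ∃ e ∈ S, P e then (1 : ℝ) else 0 := by
        funext S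
        have h2 : (∃ e ∈ insert a S, P e) ↔ ∃ e ∈ S, P e := by
          constructor
          · rintro ⟨e, he, hPe⟩
            rcases Finset.mem_insert.1 he with h | h
            · rw [h] at hPe
              exact absurd hPe hP
            · exact ⟨e, h, hPe⟩
          · rintro ⟨e, he, hPe⟩
            exact ⟨e, Finset.mem_insert_of_mem he, hPe⟩
        by_cases h3 : ∃ e ∈ S, P e
        · rw [if_pos h3, if_pos (h2.2 h3)]
        · rw [if_neg h3, if_neg (fun h => h3 (h2.1 h))]
      rw [h1, ih, Finset.filter_insert, if_neg hP]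
      ring

lemma SIN_exp {Λ : Type} (π : Λ → ℝ) (T : Finset Λ) (h : ∀ e ∈ T, 0 ≤ π e ∧ π e ≤ 1) :
    ∏ e ∈ T, (1 - π e) ≤ Real.exp (-∑ e ∈ T, π e) := by
  rw [← Finset.sum_neg_distrib, Real.exp_sum]
  refine Finset.prod_le_prod (fun e he => ?_) (fun e he => ?_)
  · have := (h e he).2
    linarith
  · have := Real.add_one_le_exp (-π e)
    linarith

theorem sin_proof (hops : Stmt_OPS) : Stmt_SIN := by
  intro Λ J _ _ _ _ y T π B hπ hT
  have h1 : EB T π (fun S => (opt y S univ : ℝ)) =
      ∑ j, EB T π (fun S => ((S.sup (fun e => y e j) : ℕ) : ℝ)) := by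
    rw [← EB_sum]
    refine EB_congr (fun _ _ => rfl) (fun S hS => ?_)
    rw [hops Λ J y S (fun e he => hT e (hS he))]
    push_cast
    rfl
  rw [h1]
  refine Finset.sum_le_sum (fun j _ => ?_)
  have h2 : EB T π (fun S => ∑ θ ∈ range B, (if ∃ e ∈ S, θ < y e j then (1 : ℝ) else 0)) ≤
      EB T π (fun S => ((S.sup (fun e => y e j) : ℕ) : ℝ)) := by
    refine EB_mono hπ (fun S hS => ?_)
    have h3 : ∀ θ : ℕ, (∃ e ∈ S, θ < y e j) ↔ θ < S.sup (fun e => y e j) := by
      intro θ
      rw [Finset.lt_sup_iff]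
    have h4 : ∑ θ ∈ range B, (if ∃ e ∈ S, θ < y e j then (1 : ℝ) else 0) =
        (((range B).filter (fun θ => ∃ e ∈ S, θ < y e j)).card : ℝ) := by
      rw [Finset.card_filter]
      push_cast
      rfl
    rw [h4]
    have h5 : (range B).filter (fun θ => ∃ e ∈ S, θ < y e j) ⊆
        range (S.sup (fun e => y e j)) := by
      intro θ hθ
      rw [Finset.mem_filter] at hθ
      rw [Finset.mem_range]
      exact (h3 θ).1 hθ.2
    have h6 := Finset.card_le_card h5
    rw [Finset.card_range] at h6
    exact_mod_cast h6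
  refine le_trans ?_ h2
  rw [EB_sum]
  refine Finset.sum_le_sum (fun θ _ => ?_)
  rw [SIN_pr π (fun e => θ < y e j) T]
  have h7 := SIN_exp π (T.filter (fun e => θ < y e j))
    (fun e he => hπ e (Finset.mem_filter.1 he).1)
  linarith

end

end Pool.Agent.CGM
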