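import Pool.Agent.CGM.Stmts

set_option autoImplicit false

open Finset
open scoped Classical

namespace Pool.Agent.CGM

namespace UPP_

variable {Λ J : Type} [Fintype Λ] [DecidableEq Λ] [Fintype J] [DecidableEq J]

lemma gain_anti (h2 : Stmt_OPM) (y : Λ → J → ℕ) {S S' : Finset Λ} (h : S ⊆ S') (e : Λ) :
    gain y S' e ≤ gain y S e := by
  unfold gain
  refine Finset.sup_mono_fun (fun j _ => ?_)
  exact Nat.sub_le_sub_left (h2 Λ J y S S' h j) _

end UPP_

open UPP_ in
theorem upp_proof (h1 : Stmt_OPI) (h2 : Stmt_OPM) : Stmt_UPP := by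
  intro Λ J _ _ _ _ y S0 D π hd hP
  induction D using Finset.induction_on with
  | empty => simp
  | insert e D he ih =>
    have hd' : Disjoint S0 D := Finset.disjoint_of_subset_right (Finset.subset_insert e D) hd
    have heS0 : e ∉ S0 := fun h => Finset.disjoint_left.1 hd h (Finset.mem_insert_self e D)
    have hP' : Pro D π := hP.mono (Finset.subset_insert e D)
    have hpe := hP e (Finset.mem_insert_self e D)
    have ih' := ih hd' hP'
    rw [EB_insert he, Finset.sum_insert he]
    have hstep : EB D π (fun S => (opt y (S0 ∪ insert e S) univ : ℝ)) ≤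
        EB D π (fun S => (opt y (S0 ∪ S) univ : ℝ)) + (gain y S0 e : ℝ) := by
      have h3 : EB D π (fun S => (opt y (S0 ∪ insert e S) univ : ℝ)) ≤
          EB D π (fun S => (opt y (S0 ∪ S) univ : ℝ) + (gain y S0 e : ℝ)) := by
        refine EB_mono hP' (fun S hS => ?_)
        have heS : e ∉ S0 ∪ S := by
          rw [Finset.mem_union]
          rintro (h | h)
          · exact heS0 h
          · exact he (hS h)
        rw [Finset.union_insert, h1 Λ J y (S0 ∪ S) e heS]
        have h4 := gain_anti h2 y (Finset.subset_union_left : S0 ⊆ S0 ∪ S) e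
        push_cast
        have h5 : (gain y (S0 ∪ S) e : ℝ) ≤ (gain y S0 e : ℝ) := by exact_mod_cast h4
        linarith
      rw [EB_add, EB_const] at h3
      exact h3
    nlinarith [mul_le_mul_of_nonneg_left hstep hpe.1]

end Pool.Agent.CGM
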