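import Pool.Agent.CGM.FINE
import Pool.Agent.CGM.OPI
import Pool.Agent.CGM.OPM
import Pool.Agent.CGM.OPL
import Pool.Agent.CGM.OPZ
import Pool.Agent.CGM.OPS
import Pool.Agent.CGM.OPK
import Pool.Agent.CGM.UPP
import Pool.Agent.CGM.LOW
import Pool.Agent.CGM.CAP
import Pool.Agent.CGM.CPS
import Pool.Agent.CGM.HYB
import Pool.Agent.CGM.COV
import Pool.Agent.CGM.CONN
import Pool.Agent.CGM.LTW
import Pool.Agent.CGM.RMI
import Pool.Agent.CGM.ALG
import Pool.Agent.CGM.SIN
import Pool.Agent.CGM.JEN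
import Pool.Agent.CGM.NTA
import Pool.Agent.CGM.NTB
import Pool.Agent.CGM.NTC
import Pool.Agent.CGM.NTD
import Pool.Agent.CGM.NTE
import Pool.Agent.CGM.NTF
import Pool.Agent.CGM.EVL
import Pool.Agent.CGM.ITG

set_option autoImplicit false

open Finset
open scoped Classical

namespace Pool.Agent.CGM

theorem main : ∀ (n : ℕ) (A W : Fin n → Fin n → ℝ), DS A → (∀ i j, 0 ≤ W i j) →
    525 / 1000 * ∑ i, ∑ j, A i j * W i j ≤ Phi A W := by
  have hOPI := opi_proof
  have hOPM := opm_proof
  have hOPL := opl_proof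
  have hUPP := upp_proof hOPI hOPM
  have hLOW := low_proof hOPI
  have hCAP := cap_proof nte_proof ntf_proof
  have hCPS := cps_proof hCAP
  have hCOV := cov_proof hOPM hOPL
  have hRMI := rmi_proof opz_proof
  have hSIN := sin_proof ops_proof
  have hEVL := evl_proof jen_proof ntb_proof ntc_proof
  have hFIN := FIN_.fin_proof hOPI hUPP hLOW hCPS hyb_proof opk_proof hCOV con_proof ltw_proof
    hRMI alg_proof nta_proof ntd_proof hSIN hEVL
  exact itg_proof (525 / 1000) (by norm_num) hFIN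

end Pool.Agent.CGM
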