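import Pool.Agent.CGM.Defs

/-!
# Statements of the modules of the project CGM (MP_3bdb72_co)

Recipes: /team-store/MP_3bdb72_CGM.md
-/

set_option autoImplicit false
set_option linter.unusedSectionVars false

open Finset
open scoped Classical

namespace Pool.Agent.CGM

noncomputable section

/-! ## Part A: optimal matchings -/

/-- OPI: adding one item -/
def Stmt_OPI : Prop :=
  ∀ (Λ J : Type) [Fintype Λ] [DecidableEq Λ] [Fintype J] [DecidableEq J] (y : Λ → J → ℕ)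
    (S : Finset Λ) (e : Λ), e ∉ S → opt y (insert e S) univ = opt y S univ + gain y S e

/-- OPM: prices increase when items are added -/
def Stmt_OPM : Prop :=
  ∀ (Λ J : Type) [Fintype Λ] [DecidableEq Λ] [Fintype J] [DecidableEq J] (y : Λ → J → ℕ)
    (S S' : Finset Λ), S ⊆ S' → ∀ j : J, pr y S j ≤ pr y S' j

/-- OPL: prices depend only on the items that touch the component -/
def Stmt_OPL : Prop :=
  ∀ (Λ J : Type) [Fintype Λ] [DecidableEq Λ] [Fintype J] [DecidableEq J] (y : Λ → J → ℕ)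
    (S : Finset Λ) (K : Finset J),
    (∀ e ∈ S, (∀ j, j ∈ K → y e j = 0) ∨ (∀ j, j ∉ K → y e j = 0)) →
    (∀ i, i ∈ K → pr y S i = pr y (S.filter (fun e => ∃ j ∈ K, y e j ≠ 0)) i) ∧
    (∀ i, i ∉ K → pr y S i = pr y (S.filter (fun e => ¬ ∃ j ∈ K, y e j ≠ 0)) i)

/-- OPZ: a vertex touched by no item has price zero -/
def Stmt_OPZ : Prop :=
  ∀ (Λ J : Type) [Fintype Λ] [DecidableEq Λ] [Fintype J] [DecidableEq J] (y : Λ → J → ℕ)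
    (S : Finset Λ) (j : J), (∀ e ∈ S, y e j = 0) → pr y S j = 0

/-- OPS: if every item has at most one vertex with nonzero weight -/
def Stmt_OPS : Prop :=
  ∀ (Λ J : Type) [Fintype Λ] [DecidableEq Λ] [Fintype J] [DecidableEq J] (y : Λ → J → ℕ)
    (S : Finset Λ), (∀ e ∈ S, ∃ j0, ∀ j, j ≠ j0 → y e j = 0) →
    opt y S univ = ∑ j, S.sup (fun e => y e j)

/-- OPK: link with matchings of `K_{n,n}` -/
def Stmt_OPK : Prop :=
  ∀ (n : ℕ) (w : Fin n → Fin n → ℕ) (Λ : Type) [Fintype Λ] [DecidableEq Λ]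
    (y : Λ → Fin n → ℕ) (ρ : Fin n → Λ) (R : Finset (Fin n × Fin n)), Function.Injective ρ →
    (∀ k j, y (ρ k) j = if (k, j) ∈ R then w k j else 0) →
    maxW (fun i j => (w i j : ℝ)) R = (opt y (univ.image ρ) univ : ℝ)

/-- UPP: upper bound for adding independent items -/
def Stmt_UPP : Prop :=
  ∀ (Λ J : Type) [Fintype Λ] [DecidableEq Λ] [Fintype J] [DecidableEq J] (y : Λ → J → ℕ)
    (S0 D : Finset Λ) (π : Λ → ℝ), Disjoint S0 D → Pro D π →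
    EB D π (fun S => (opt y (S0 ∪ S) univ : ℝ)) ≤
      (opt y S0 univ : ℝ) + ∑ e ∈ D, π e * (gain y S0 e : ℝ)

/-- LOW: lower bound for adding independent items -/
def Stmt_LOW : Prop :=
  ∀ (Λ J : Type) [Fintype Λ] [DecidableEq Λ] [Fintype J] [DecidableEq J] (y : Λ → J → ℕ)
    (S0 D : Finset Λ) (π : Λ → ℝ), Disjoint S0 D → Pro D π → ∑ e ∈ D, π e ≤ 1 →
    (opt y S0 univ : ℝ) + (1 - ∑ e ∈ D, π e) * ∑ e ∈ D, π e * (gain y S0 e : ℝ) ≤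
      EB D π (fun S => (opt y (S0 ∪ S) univ : ℝ))

/-! ## Part B: rows are replaced by small items -/

/-- CAP: the capacity inequality -/
def Stmt_CAP : Prop :=
  ∀ (J : Type) (S : Finset J) (a : J → ℝ), (∀ j ∈ S, 0 ≤ a j) → ∑ j ∈ S, a j ≤ 1 →
    u0 * (∑ j ∈ S, a j) + v0 * (∑ j ∈ S, a j - (∑ j ∈ S, a j) ^ 2 / 2) + k0 * ∑ j ∈ S, a j ^ 2 ≤
      1 - ∏ j ∈ S, (1 - a j)

/-- CPS: the capacity inequality for functions -/
def Stmt_CPS : Prop :=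
  ∀ (J : Type) [Fintype J] [DecidableEq J] (a : J → ℝ) (x : J → ℕ), (∀ j, 0 ≤ a j) →
    ∑ j, a j = 1 →
    ∑ j, (u0 * a j + k0 * a j ^ 2) * (x j : ℝ)
        + v0 / 2 * ∑ i, ∑ j, a i * a j * ((max (x i) (x j) : ℕ) : ℝ) ≤
      EB univ a (fun N => ((N.sup x : ℕ) : ℝ))

/-- HYB: rows are replaced one by one -/
def Stmt_HYB : Prop :=
  ∀ (n : ℕ) (A : Fin n → Fin n → ℝ) (Λ : Type) [Fintype Λ] [DecidableEq Λ]
    (ρ : Fin n → Finset (Fin n) → Λ) (D : Fin n → Finset Λ) (π : Λ → ℝ) (F : Finset Λ → ℝ),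
    (∀ i j, 0 ≤ A i j ∧ A i j ≤ 1) → (∀ k N k' N', ρ k N = ρ k' N' → k = k' ∧ N = N') →
    (∀ k k' N, ρ k N ∉ D k') → (∀ k k', k ≠ k' → Disjoint (D k) (D k')) →
    (∀ k, Pro (D k) π) →
    (∀ (k : Fin n) (S0 : Finset Λ), Disjoint S0 (D k) → (∀ N, ρ k N ∉ S0) →
      EB (D k) π (fun S => F (S0 ∪ S)) ≤ EB univ (A k) (fun N => F (insert (ρ k N) S0))) →
    EB (univ.biUnion D) π F ≤
      EB univ (fun e : Fin n × Fin n => A e.1 e.2)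
        (fun R => F (univ.image (fun k => ρ k (univ.filter (fun j => (k, j) ∈ R)))))

/-! ## Part C: correlations -/

/-- COV: the covariance bound -/
def Stmt_COV : Prop :=
  ∀ (Λ J : Type) [Fintype Λ] [DecidableEq Λ] [Fintype J] [DecidableEq J] (y : Λ → J → ℕ)
    (T : Finset Λ) (π : Λ → ℝ) (i j : J) (c d : ℕ), Pro T π →
    EB T π (fun S => EB T π (fun S' => ((max (c - pr y S i) (d - pr y S' j) : ℕ) : ℝ)))
      - EB T π (fun S => ((max (c - pr y S i) (d - pr y S j) : ℕ) : ℝ)) ≤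
    Pc y T π i j * EB T π (fun S => ((d - pr y S j : ℕ) : ℝ))

/-- CON: first step of a path -/
def Stmt_CON : Prop :=
  ∀ (Λ J : Type) [Fintype Λ] [DecidableEq Λ] [Fintype J] [DecidableEq J] (y : Λ → J → ℕ)
    (T : Finset Λ) (π : Λ → ℝ) (a b : J), Pro T π → a ≠ b →
    Pc y T π a b ≤ ∑ c ∈ univ.erase a, Qr y T π a c * Pc y T π c b

/-- LTW: the quadratic form of the connection probabilities -/
def Stmt_LTW : Prop :=
  ∀ (J : Type) [Fintype J] [DecidableEq J] (Q P : J → J → ℝ) (q : ℝ), 0 ≤ q → q < 1 →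
    (∀ a b, 0 ≤ Q a b) → (∀ a, ∑ c ∈ univ.erase a, Q a c ≤ q) →
    (∀ c, ∑ a ∈ univ.erase c, Q a c ≤ q) →
    (∀ a b, 0 ≤ P a b) → (∀ a, P a a = 1) →
    (∀ a b, a ≠ b → P a b ≤ ∑ c ∈ univ.erase a, Q a c * P c b) →
    ∀ α : J → ℝ, (∀ a, 0 ≤ α a) →
      ∑ a, ∑ b ∈ univ.erase a, α a * α b * P a b ≤ q / (1 - q) * ∑ a, α a ^ 2

/-- RMI: with not too small probability a vertex has price zero -/
def Stmt_RMI : Prop :=
  ∀ (Λ J : Type) [Fintype Λ] [DecidableEq Λ] [Fintype J] [DecidableEq J] (y : Λ → J → ℕ)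
    (T : Finset Λ) (π : Λ → ℝ) (j : J) (ε : ℝ), ε ≤ 1 / 2 → (∀ e ∈ T, 0 ≤ π e ∧ π e ≤ ε) →
    Real.exp (-((1 + ε) * ∑ e ∈ T.filter (fun e => y e j ≠ 0), π e)) ≤
      EB T π (fun S => if pr y S j = 0 then 1 else 0)

/-- ALG: comparison of the pairs and of their mean field version (finite probability space) -/
def Stmt_ALG : Prop :=
  ∀ (Ω J : Type) [Fintype J] [DecidableEq J] (s : Finset Ω) (μ : Ω → ℝ) (x : Ω → J → ℕ)
    (w : J → ℕ) (a : J → ℝ) (P : J → J → ℝ) (B : ℕ) (u v κ f : ℝ),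
    (∀ ω ∈ s, 0 ≤ μ ω) → ∑ ω ∈ s, μ ω = 1 → (∀ ω ∈ s, ∀ j, x ω j ≤ w j) → (∀ j, w j ≤ B) →
    (∀ j, 0 ≤ a j) → ∑ j, a j = 1 → 0 ≤ v → (∀ i j, 0 ≤ P i j) → (∀ i j, P i j = P j i) →
    (∀ i j, i ≠ j →
      ∑ ω ∈ s, μ ω * (∑ ω' ∈ s, μ ω' * ((max (x ω i) (x ω' j) : ℕ) : ℝ))
        - ∑ ω ∈ s, μ ω * ((max (x ω i) (x ω j) : ℕ) : ℝ) ≤ P i j * ∑ ω ∈ s, μ ω * (x ω j : ℝ)) →
    (∀ α : J → ℝ, (∀ j, 0 ≤ α j) →
      ∑ i, ∑ j ∈ univ.erase i, α i * α j * P i j ≤ f * ∑ j, α j ^ 2) →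
    ∑ j, a j ^ 2 * ∑ θ ∈ range (w j),
        (κ * (∑ ω ∈ s, μ ω * (if θ < x ω j then 1 else 0))
          - v / 2 * (∑ ω ∈ s, μ ω * (if θ < x ω j then 1 else 0))
              * (1 - ∑ ω ∈ s, μ ω * (if θ < x ω j then 1 else 0))
          - v / 2 * f * (∑ ω ∈ s, μ ω * (if θ < x ω j then 1 else 0)))
      + v / 2 * ∑ θ ∈ range B, (∑ j, a j * ∑ ω ∈ s, μ ω * (if θ < x ω j then 1 else 0)) ^ 2 ≤
    (∑ j, (u * a j + (v / 2 + κ) * a j ^ 2) * (∑ ω ∈ s, μ ω * (x ω j : ℝ))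
      + v / 2 * ∑ i, ∑ j ∈ univ.erase i,
          a i * a j * ∑ ω ∈ s, μ ω * ((max (x ω i) (x ω j) : ℕ) : ℝ))
    - (∑ j, u * a j * (∑ ω ∈ s, μ ω * (x ω j : ℝ))
      + ∑ i, ∑ j, v * (a i * a j) * ∑ c : Fin (B + 1),
          (∑ ω ∈ s, μ ω * (if x ω i = (c : ℕ) then 1 else 0))
            * ∑ ω ∈ s, μ ω * ((x ω j - (c : ℕ) : ℕ) : ℝ))

/-! ## Part D: the final evaluation -/

/-- SIN: items with one vertex -/
def Stmt_SIN : Prop :=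
  ∀ (Λ J : Type) [Fintype Λ] [DecidableEq Λ] [Fintype J] [DecidableEq J] (y : Λ → J → ℕ)
    (T : Finset Λ) (π : Λ → ℝ) (B : ℕ), Pro T π → (∀ e ∈ T, ∃ j0, ∀ j, j ≠ j0 → y e j = 0) →
    ∑ j, ∑ θ ∈ range B, (1 - Real.exp (-∑ e ∈ T.filter (fun e => θ < y e j), π e)) ≤
      EB T π (fun S => (opt y S univ : ℝ))

/-- JEN: Jensen -/
def Stmt_JEN : Prop :=
  ∀ (ι : Type) (s : Finset ι) (l c : ι → ℝ), (∀ i ∈ s, 0 ≤ l i) → ∑ i ∈ s, l i ≤ 1 →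
    (∀ i ∈ s, 0 ≤ c i) →
    ∑ i ∈ s, l i * (1 - Real.exp (-c i)) ≤ 1 - Real.exp (-∑ i ∈ s, l i * c i)

/-- NTA: numerical inequality A -/
def Stmt_NTA : Prop :=
  ∀ s q : ℝ, 0 ≤ s → s ≤ 1 → r0 ≤ q → q ≤ 1 →
    Lf s ≤ k0 * q - v0 / 2 * q * (1 - q) - v0 / 2 * fs s * q

/-- NTB: numerical inequality B -/
def Stmt_NTB : Prop :=
  ∀ M : ℕ, 100000 ≤ M → 0 ≤ ∑ t ∈ range M, Lf (((M : ℝ) - t) / M)

/-- NTC: numerical inequality C -/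
def Stmt_NTC : Prop :=
  ∀ b : ℝ, 0 ≤ b → b ≤ 1 →
    52507 / 100000 ≤ 1 - Real.exp (-(u0 + v0 * (1 - b))) + v0 / 2 * b ^ 2

/-- NTD: numerical inequality D -/
def Stmt_NTD : Prop :=
  ∀ M : ℕ, 100000 ≤ M → r0 ≤ Real.exp (-((1 + 1 / (M : ℝ)) * (u0 + v0)))

/-- NTE: numerical inequality E (used for CAP) -/
def Stmt_NTE : Prop :=
  ∀ a : ℝ, 0 ≤ a → a ≤ 1 →
    Real.exp (-(1 + a / 2 + a ^ 2 / 3 + a ^ 3 / 4 + a ^ 4 / 5)) ≤ 1 - u0 - v0 / 2 - k0 * a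

/-- NTF: numerical inequality F (used for CAP) -/
def Stmt_NTF : Prop :=
  ∀ s : ℝ, 0 ≤ s → s ≤ 1 →
    s * (1 - Real.exp (-1)) + v0 / 2 * s * (1 - s) ≤ 1 - Real.exp (-s)

/-- EVL: evaluation of the final lower bound -/
def Stmt_EVL : Prop :=
  ∀ (n M B : ℕ) (A : Fin n → Fin n → ℝ) (w : Fin n → Fin n → ℕ) (β : Fin n → Fin M → ℕ → ℝ),
    DS A → 100000 ≤ M → (∀ k j, w k j ≤ B) → (∀ k t θ, 0 ≤ β k t θ ∧ β k t θ ≤ 1) →
    525 / 1000 * ∑ k, ∑ j, A k j * (w k j : ℝ) ≤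
      ∑ j, ∑ θ ∈ range B, (1 - Real.exp (-∑ k, ∑ t, A k j / M *
          (if θ < w k j then u0 + v0 * (1 - β k t (w k j - 1 - θ)) else 0)))
      + ∑ k, ∑ t : Fin M, 1 / (M : ℝ) * (v0 / 2 * ∑ θ ∈ range B, (β k t θ) ^ 2
          + Lf (((M : ℝ) - (t : ℕ)) / M) * ∑ j, A k j ^ 2 * (w k j : ℝ)
          - 2 / M * ∑ j, A k j * (w k j : ℝ))

/-- ITG: reduction to integer weights -/
def Stmt_ITG : Prop :=
  ∀ c : ℝ, 0 ≤ c →
    (∀ (n : ℕ) (A : Fin n → Fin n → ℝ) (w : Fin n → Fin n → ℕ), DS A →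
      c * ∑ i, ∑ j, A i j * (w i j : ℝ) ≤ Phi A (fun i j => (w i j : ℝ))) →
    ∀ (n : ℕ) (A W : Fin n → Fin n → ℝ), DS A → (∀ i j, 0 ≤ W i j) →
      c * ∑ i, ∑ j, A i j * W i j ≤ Phi A W

/-- LIN: the Lindeberg replacement (integer weights, rows already replaced by small items) -/
def Stmt_FIN : Prop :=
  ∀ (n : ℕ) (A : Fin n → Fin n → ℝ) (w : Fin n → Fin n → ℕ), DS A →
    525 / 1000 * ∑ i, ∑ j, A i j * (w i j : ℝ) ≤ Phi A (fun i j => (w i j : ℝ))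

end

end Pool.Agent.CGM
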